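import Pool.Agent.P.MP_a0f0ad_al.Fi.S.Defs

/-! Statements of the semialgebraic library used by the other chapters. -/

namespace Pool.Agent.P.MP_a0f0ad_al.Fi

open Set MeasureTheory Metric

-- deps:
/-- Tarski-Seidenberg -/
def S_PROJ : Prop :=
  ∀ (X Y : Type) [NormedAddCommGroup X] [NormedSpace ℝ X] [FiniteDimensional ℝ X]
    [NormedAddCommGroup Y] [NormedSpace ℝ Y] [FiniteDimensional ℝ Y] (s : Set (X × Y)),
    SA s → SA (Prod.fst '' s)

-- deps:
/-- uniform finiteness of one dimensional fibres -/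
def S_UF : Prop :=
  ∀ (X : Type) [NormedAddCommGroup X] [NormedSpace ℝ X] [FiniteDimensional ℝ X]
    (s : Set (X × ℝ)), SA s →
    ∃ B : ℕ, ∀ x, ∃ F : Finset ℝ, F.card ≤ B ∧ frontier {t | (x, t) ∈ s} ⊆ (F : Set ℝ)

-- deps:
/-- measurable, with null frontier -/
def S_NULL : Prop :=
  ∀ (X : Type) [NormedAddCommGroup X] [NormedSpace ℝ X] [FiniteDimensional ℝ X]
    [MeasurableSpace X] [BorelSpace X] (μ : Measure X) [μ.IsAddHaarMeasure] (s : Set X),
    SA s → MeasurableSet s ∧ μ (frontier s) = 0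

-- deps: PROJ UF
/-- definable choice -/
def S_CHOICE : Prop :=
  ∀ (X Y : Type) [NormedAddCommGroup X] [NormedSpace ℝ X] [FiniteDimensional ℝ X]
    [NormedAddCommGroup Y] [NormedSpace ℝ Y] [FiniteDimensional ℝ Y] (s : Set (X × Y)),
    SA s → ∃ f : X → Y, SAF (Prod.fst '' s) f ∧ ∀ x ∈ Prod.fst '' s, (x, f x) ∈ s

-- deps: PROJ UF CHOICE
/-- definable enumeration of finite fibres -/
def S_ENUM : Prop :=
  ∀ (X Y : Type) [NormedAddCommGroup X] [NormedSpace ℝ X] [FiniteDimensional ℝ X]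
    [NormedAddCommGroup Y] [NormedSpace ℝ Y] [FiniteDimensional ℝ Y] (s : Set (X × Y)),
    SA s → (∀ x, {y | (x, y) ∈ s}.Finite) →
    ∃ (r : ℕ) (A : Fin r → Set X) (f : Fin r → X → Y), (∀ i, SAF (A i) (f i)) ∧
      ∀ x y, (x, y) ∈ s ↔ ∃ i, x ∈ A i ∧ y = f i x

-- deps: PROJ UF NULL
/-- a definable map is continuously differentiable on an open definable set of full measure -/
def S_DIFF : Prop :=
  ∀ (X Y : Type) [NormedAddCommGroup X] [NormedSpace ℝ X] [FiniteDimensional ℝ X]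
    [NormedAddCommGroup Y] [NormedSpace ℝ Y] [FiniteDimensional ℝ Y]
    [MeasurableSpace X] [BorelSpace X] (μ : Measure X) [μ.IsAddHaarMeasure]
    (s : Set X) (f : X → Y), SAF s f →
    ∃ U : Set X, IsOpen U ∧ SA U ∧ U ⊆ s ∧ μ (s \ U) = 0 ∧ ContDiffOn ℝ 1 f U

-- deps: PROJ UF NULL
/-- the tail estimate: a definable function cannot be both confined and steep on a big set -/
def S_TAIL : Prop :=
  ∀ (X : Type) [NormedAddCommGroup X] [NormedSpace ℝ X] [FiniteDimensional ℝ X]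
    [MeasurableSpace X] [BorelSpace X] (μ : Measure X) [μ.IsAddHaarMeasure]
    (U : Set X) (f : X → ℝ), IsOpen U → Bornology.IsBounded U → SAF U f →
    DifferentiableOn ℝ f U →
    ∃ C : ℝ, ∀ c t l : ℝ, 0 < t → 0 < l →
      μ {x | x ∈ U ∧ |f x - c| ≤ t ∧ l ≤ ‖fderiv ℝ f x‖} ≤ ENNReal.ofReal (C * t / l)

-- deps: PROJ UF NULL
/-- neighbourhoods of thin sets, uniformly in definable families -/
def S_THIN : Prop :=
  ∀ (P X : Type) [NormedAddCommGroup P] [NormedSpace ℝ P] [FiniteDimensional ℝ P]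
    [NormedAddCommGroup X] [NormedSpace ℝ X] [FiniteDimensional ℝ X]
    [MeasurableSpace X] [BorelSpace X] (μ : Measure X) [μ.IsAddHaarMeasure]
    (s : Set (P × X)), SA s → (∀ p, interior {x | (p, x) ∈ s} = ∅) → ∀ L : ℝ,
    ∃ C : ℝ, ∀ (p : P) (r : ℝ), 0 < r → r ≤ 1 →
      μ (cthickening r ({x | (p, x) ∈ s} ∩ closedBall 0 L)) ≤ ENNReal.ofReal (C * r)

-- deps: PROJ UF NULL DIFF TAIL THIN
/-- first order Taylor expansion with a rate, off a small set -/
def S_OSC : Prop :=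
  ∀ (X : Type) [NormedAddCommGroup X] [NormedSpace ℝ X] [FiniteDimensional ℝ X]
    [MeasurableSpace X] [BorelSpace X] (μ : Measure X) [μ.IsAddHaarMeasure]
    (U : Set X) (f : X → ℝ), IsOpen U → SAF U f → ∀ L0 : ℝ,
    ∃ C : ℝ, ∀ r e L : ℝ, 0 < r → r ≤ 1 → 0 < e → 0 < L →
      μ {x | ‖x‖ ≤ L0 ∧ closedBall x r ⊆ U ∧
          (∀ y ∈ closedBall x r, ∀ z ∈ closedBall x r, |f y - f z| ≤ L * ‖y - z‖) ∧
          ¬ (DifferentiableAt ℝ f x ∧ ∀ y ∈ closedBall x r,
              |f y - f x - fderiv ℝ f x (y - x)| ≤ e * ‖y - x‖)} ≤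
        ENNReal.ofReal (C * (r + r * L / e))

-- deps: PROJ UF
/-- integrals of polynomials over definable subsets of intervals are definable -/
def S_INTG : Prop :=
  ∀ (X : Type) [NormedAddCommGroup X] [NormedSpace ℝ X] [FiniteDimensional ℝ X]
    (A : Set (X × ℝ)) (f : X × ℝ → ℝ), SA A → IsP f →
    SAF univ fun p : X × ℝ × ℝ => ∫ t in p.2.1..p.2.2, A.indicator f (p.1, t)

end Pool.Agent.P.MP_a0f0ad_al.Fi
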