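import Pool.Agent.P.MP_a0f0ad_al.Fi.S.Iface2
import Pool.Agent.P.MP_a0f0ad_al.Fi.S.Iface

/-! Step DER of the filiform project. -/

namespace Pool.Agent.P.MP_a0f0ad_al.Fi

open Set MeasureTheory Metric Filter Topology SignType Asymptotics
open scoped Polynomial

section

variable {X Y Z : Type} [NormedAddCommGroup X] [NormedSpace ℝ X] [NormedAddCommGroup Y]
  [NormedSpace ℝ Y] [NormedAddCommGroup Z] [NormedSpace ℝ Z] [Fact S_PROJ]
  [FiniteDimensional ℝ X] [FiniteDimensional ℝ Y] [FiniteDimensional ℝ Z]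

/-- properties that hold near a point are definable -/
theorem DP.nhds {φ : Z → X → Prop} (h : DP fun p : Z × X => φ p.1 p.2) {a : Z → X} (ha : DF a) :
    DP fun z => ∀ᶠ y in 𝓝 (a z), φ z y :=
  (h.interior.comp (f := fun z => (z, a z)) (DF.id.prodMk ha)).congr fun _ =>
    mem_interior_iff_mem_nhds.symm

variable {g : X → Y}

@[fun_prop] theorem DF.continuousAt (hg : DF g) : DP (ContinuousAt g) := by
  have h : DP fun x => ∀ ε : ℝ, ε > 0 → ∀ᶠ y in 𝓝 x, Dist.dist (cox Y (g y)) (cox Y (g x)) < ε :=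
    DP.all (DP.imp (by fun_prop) (DP.nhds
      (φ := fun (p : X × ℝ) y => Dist.dist (cox Y (g y)) (cox Y (g p.1)) < p.2) (by fun_prop)
      (by fun_prop)))
  refine h.congr fun x => ?_
  rw [← (cox Y).toHomeomorph.comp_continuousAt_iff]
  exact Metric.tendsto_nhds

theorem DF.hasFDerivAt (hg : DF g) : DP fun p : X × (X →L[ℝ] Y) => HasFDerivAt g p.2 p.1 := by
  have h : DP fun p : X × (X →L[ℝ] Y) => ∀ ε : ℝ, 0 < ε → ∀ᶠ y in 𝓝 p.1,
      ‖cox Y (g y - g p.1 - p.2 (y - p.1))‖ ≤ ε * ‖cox X (y - p.1)‖ :=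
    DP.all (DP.imp (by fun_prop) (DP.nhds (φ := fun (p : (X × (X →L[ℝ] Y)) × ℝ) y =>
      ‖cox Y (g y - g p.1.1 - p.1.2 (y - p.1.1))‖ ≤ p.2 * ‖cox X (y - p.1.1)‖) (by fun_prop)
      (by fun_prop)))
  refine h.congr fun p => ?_
  rw [hasFDerivAt_iff_isLittleO, ← isLittleO_iff]
  exact ⟨fun a => (((cox Y).isBigO_comp _ _).trans_isLittleO a).trans_isBigO
      ((cox X).isBigO_comp_rev _ _),
    fun a => (((cox Y).isBigO_comp_rev _ _).trans_isLittleO a).trans_isBigO ((cox X).isBigO_comp _ _)⟩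

@[fun_prop] theorem DF.differentiableAt (hg : DF g) : DP (DifferentiableAt ℝ g) :=
  DP.ex (φ := fun x L => HasFDerivAt g L x) hg.hasFDerivAt

/-- the derivative of a definable map is definable -/
@[fun_prop] theorem DF.fderiv (hg : DF g) : DF (fderiv ℝ g) := by
  have h2 := hg.differentiableAt
  have h : DP fun p : X × (X →L[ℝ] Y) =>
      HasFDerivAt g p.2 p.1 ∨ ¬DifferentiableAt ℝ g p.1 ∧ p.2 = 0 :=
    hg.hasFDerivAt.or (by fun_prop)
  refine h.congr fun p => ⟨fun a => ?_, ?_⟩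
  · by_cases b : DifferentiableAt ℝ g p.1
    · exact Or.inl (a ▸ b.hasFDerivAt)
    · exact Or.inr ⟨b, a.trans (fderiv_zero_of_not_differentiableAt b)⟩
  · rintro (a | ⟨a, b⟩)
    · exact a.fderiv.symm
    · exact b.trans (fderiv_zero_of_not_differentiableAt a).symm

omit [Fact S_PROJ] [FiniteDimensional ℝ X] [FiniteDimensional ℝ Y] in
theorem contDiffAt_succ_iff_near {n : ℕ} {x : X} : ContDiffAt ℝ (n + 1 : ℕ) g x ↔
    (∀ᶠ y in 𝓝 x, DifferentiableAt ℝ g y) ∧ ContDiffAt ℝ n (fderiv ℝ g) x := by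
  push_cast
  rw [contDiffAt_succ_iff_hasFDerivAt]
  refine ⟨fun ⟨f', ⟨u, hu, h⟩, k⟩ => ⟨?_, k.congr_of_eventuallyEq ?_⟩,
    fun ⟨h, k⟩ => ⟨_, ⟨_, h, fun y hy => hy.hasFDerivAt⟩, k⟩⟩
  · exact mem_of_superset hu fun y hy => (h y hy).differentiableAt
  · exact mem_of_superset hu fun y hy => (h y hy).fderiv

omit [Fact S_PROJ] [FiniteDimensional ℝ X] [FiniteDimensional ℝ Y] in
theorem contDiffAt_zero_iff_near {x : X} :
    ContDiffAt ℝ (0 : ℕ) g x ↔ ∀ᶠ y in 𝓝 x, ContinuousAt g y := by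
  push_cast
  rw [contDiffAt_zero]
  exact ⟨fun ⟨u, hu, h⟩ => (eventually_mem_nhds_iff.2 hu).mono fun y hy => h.continuousAt hy,
    fun h => ⟨_, h, fun y hy => hy.continuousWithinAt⟩⟩

@[fun_prop] theorem DF.contDiffAt (hg : DF g) (n : ℕ) : DP (ContDiffAt ℝ n g) := by
  induction n generalizing Y with
  | zero =>
    exact (DP.nhds (φ := fun _ y => ContinuousAt g y) (hg.continuousAt.pm IsPM.id.snd)
      DF.id).congr fun _ => contDiffAt_zero_iff_near
  | succ n ih =>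
    exact ((DP.nhds (φ := fun _ y => DifferentiableAt ℝ g y) (hg.differentiableAt.pm IsPM.id.snd)
      DF.id).and (ih hg.fderiv)).congr fun _ => contDiffAt_succ_iff_near

end

theorem p_DER (hPROJ : S_PROJ) :
    S_DER := by
  intro X Y _ _ _ _ _ _ g hg
  have : Fact S_PROJ := ⟨hPROJ⟩
  exact ⟨hg.continuousAt, hg.differentiableAt, hg.fderiv, hg.contDiffAt⟩

end Pool.Agent.P.MP_a0f0ad_al.Fi
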