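import Pool.Agent.P.MP_a0f0ad_al.Fi.S.Iface

/-! Toolbox for semialgebraic sets. `IsPM` (polynomial maps), `DP` (definable predicates) and `DF`
(definable total maps) are proved by `fun_prop`; the facts that need the projection theorem take
the instance `Fact S_PROJ`. -/

namespace Pool.Agent.P.MP_a0f0ad_al.Fi

open Set

variable {X Y Z : Type} [NormedAddCommGroup X] [NormedSpace ℝ X] [NormedAddCommGroup Y]
  [NormedSpace ℝ Y] [NormedAddCommGroup Z] [NormedSpace ℝ Z]

/-! ### Polynomial functions and maps -/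

namespace IsP

variable {f g : X → ℝ}

theorem const (c : ℝ) : IsP fun _ : X => c := Subalgebra.algebraMap_mem _ c
theorem clm (l : X →L[ℝ] ℝ) : IsP fun x => l x := Algebra.subset_adjoin ⟨l, rfl⟩
theorem add (hf : IsP f) (hg : IsP g) : IsP fun x => f x + g x := Subalgebra.add_mem _ hf hg
theorem mul (hf : IsP f) (hg : IsP g) : IsP fun x => f x * g x := Subalgebra.mul_mem _ hf hg
theorem neg (hf : IsP f) : IsP fun x => -f x := Subalgebra.neg_mem _ hf
theorem sub (hf : IsP f) (hg : IsP g) : IsP fun x => f x - g x := Subalgebra.sub_mem _ hf hg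
theorem pow (hf : IsP f) (n : ℕ) : IsP fun x => f x ^ n := Subalgebra.pow_mem _ hf n

theorem sum {ι : Type} (s : Finset ι) {f : ι → X → ℝ} (h : ∀ i ∈ s, IsP (f i)) :
    IsP fun x => ∑ i ∈ s, f i x := by
  have := Subalgebra.sum_mem _ h
  rwa [← funext fun x => Finset.sum_apply x s f]

theorem prod {ι : Type} (s : Finset ι) {f : ι → X → ℝ} (h : ∀ i ∈ s, IsP (f i)) :
    IsP fun x => ∏ i ∈ s, f i x := by
  have := Subalgebra.prod_mem _ h
  rwa [← funext fun x => Finset.prod_apply x s f]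

@[elab_as_elim]
theorem induction {p : (X → ℝ) → Prop} (hf : IsP f) (h0 : ∀ c, p fun _ => c)
    (h1 : ∀ l : X →L[ℝ] ℝ, p fun x => l x)
    (h2 : ∀ f g, IsP f → IsP g → p f → p g → p fun x => f x + g x)
    (h3 : ∀ f g, IsP f → IsP g → p f → p g → p fun x => f x * g x) : p f := by
  induction hf using Algebra.adjoin_induction with
  | mem f hf => obtain ⟨l, rfl⟩ := hf; exact h1 l
  | algebraMap c => exact h0 c
  | add f g hf hg a b => exact h2 f g hf hg a b
  | mul f g hf hg a b => exact h3 f g hf hg a b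

theorem analyticAt (hf : IsP f) (x : X) : AnalyticAt ℝ f x :=
  hf.induction (fun _ => analyticAt_const) (fun l => l.analyticAt x) (fun _ _ _ _ a b => a.add b)
    fun _ _ _ _ a b => a.mul b

theorem contDiff (hf : IsP f) {n : WithTop ℕ∞} : ContDiff ℝ n f :=
  hf.induction (fun _ => contDiff_const) (fun l => l.contDiff) (fun _ _ _ _ a b => a.add b)
    fun _ _ _ _ a b => a.mul b

theorem continuous (hf : IsP f) : Continuous f := (hf.contDiff (n := 0)).continuous

end IsP

/-- polynomial maps -/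
@[fun_prop] def IsPM (f : X → Y) : Prop := ∀ l : Y →L[ℝ] ℝ, IsP fun x => l (f x)

theorem IsP.comp {g : Y → ℝ} {f : X → Y} (hg : IsP g) (hf : IsPM f) : IsP fun x => g (f x) :=
  hg.induction (fun c => IsP.const c) hf (fun _ _ _ _ a b => a.add b) fun _ _ _ _ a b => a.mul b

theorem IsPM.isP {f : X → ℝ} (h : IsPM f) : IsP f := h (ContinuousLinearMap.id ℝ ℝ)

theorem IsP.isPM {f : X → ℝ} (h : IsP f) : IsPM f := fun l => by
  have e : ∀ x, l (f x) = f x * l 1 := fun x => by
    rw [← smul_eq_mul, ← map_smul, smul_eq_mul, mul_one]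
  simp only [e]
  exact h.mul (IsP.const _)

namespace IsPM

variable {f g : X → Y}

@[fun_prop] theorem id : IsPM fun x : X => x := IsP.clm
@[fun_prop] theorem const (c : Y) : IsPM fun _ : X => c := fun l => IsP.const (l c)
@[fun_prop] theorem comp {g : Y → Z} (hg : IsPM g) (hf : IsPM f) : IsPM fun x => g (f x) :=
  fun l => (hg l).comp hf
@[fun_prop] theorem clm (L : X →L[ℝ] Y) : IsPM (L : X → Y) := fun l => IsP.clm (l.comp L)
@[fun_prop] theorem cle (L : X ≃L[ℝ] Y) : IsPM (L : X → Y) := clm (L : X →L[ℝ] Y)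
@[fun_prop] theorem fst {f : X → Y × Z} (hf : IsPM f) : IsPM fun x => (f x).1 :=
  (clm (ContinuousLinearMap.fst ℝ Y Z)).comp hf
@[fun_prop] theorem snd {f : X → Y × Z} (hf : IsPM f) : IsPM fun x => (f x).2 :=
  (clm (ContinuousLinearMap.snd ℝ Y Z)).comp hf
@[fun_prop] theorem add (hf : IsPM f) (hg : IsPM g) : IsPM fun x => f x + g x := fun l => by
  simpa only [map_add] using (hf l).add (hg l)
@[fun_prop] theorem neg (hf : IsPM f) : IsPM fun x => -f x := fun l => by
  simpa only [map_neg] using (hf l).neg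
@[fun_prop] theorem sub (hf : IsPM f) (hg : IsPM g) : IsPM fun x => f x - g x := fun l => by
  simpa only [map_sub] using (hf l).sub (hg l)
@[fun_prop] theorem smul {c : X → ℝ} (hc : IsPM c) (hf : IsPM f) : IsPM fun x => c x • f x :=
  fun l => by simpa only [map_smul, smul_eq_mul] using hc.isP.mul (hf l)
@[fun_prop] theorem mul {f g : X → ℝ} (hf : IsPM f) (hg : IsPM g) : IsPM fun x => f x * g x :=
  (hf.isP.mul hg.isP).isPM
@[fun_prop] theorem pow {f : X → ℝ} (hf : IsPM f) (n : ℕ) : IsPM fun x => f x ^ n :=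
  (hf.isP.pow n).isPM
@[fun_prop] theorem div_const {f : X → ℝ} (hf : IsPM f) (c : ℝ) : IsPM fun x => f x / c :=
  (hf.isP.mul (IsP.const c⁻¹)).isPM
@[fun_prop] theorem sum {ι : Type} (s : Finset ι) {f : ι → X → Y} (h : ∀ i, IsPM (f i)) :
    IsPM fun x => ∑ i ∈ s, f i x := fun l => by
  simpa only [map_sum] using IsP.sum s fun i _ => h i l
@[fun_prop] theorem prod {ι : Type} (s : Finset ι) {f : ι → X → ℝ} (h : ∀ i, IsPM (f i)) :
    IsPM fun x => ∏ i ∈ s, f i x := (IsP.prod s fun i _ => (h i).isP).isPM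
@[fun_prop] theorem prodMk {g : X → Z} (hf : IsPM f) (hg : IsPM g) : IsPM fun x => (f x, g x) := by
  have := ((clm (ContinuousLinearMap.inl ℝ Y Z)).comp hf).add
    ((clm (ContinuousLinearMap.inr ℝ Y Z)).comp hg)
  simpa using this
@[fun_prop] theorem apply {ι : Type} [Fintype ι] (i : ι) : IsPM fun x : ι → Y => x i :=
  clm (ContinuousLinearMap.proj (R := ℝ) (φ := fun _ : ι => Y) i)
@[fun_prop] theorem pi {ι : Type} [Fintype ι] {f : X → ι → Y} (h : ∀ i, IsPM fun x => f x i) :
    IsPM fun x i => f x i := by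
  classical
  have := sum Finset.univ fun i => (clm (ContinuousLinearMap.single ℝ (fun _ : ι => Y) i)).comp (h i)
  simpa [Finset.univ_sum_single] using this

theorem contDiff [FiniteDimensional ℝ Y] (hf : IsPM f) {n : WithTop ℕ∞} : ContDiff ℝ n f := by
  have e : f = fun x => ∑ i, (Module.finBasis ℝ Y).coord i (f x) • Module.finBasis ℝ Y i :=
    funext fun x => ((Module.finBasis ℝ Y).sum_repr (f x)).symm
  rw [e]
  exact ContDiff.sum fun i _ => (hf (LinearMap.toContinuousLinearMap _)).contDiff.smul contDiff_const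

theorem continuous [FiniteDimensional ℝ Y] (hf : IsPM f) : Continuous f :=
  (hf.contDiff (n := 0)).continuous

@[fun_prop] theorem clm_apply [FiniteDimensional ℝ Y] {A : X → Y →L[ℝ] Z} (hA : IsPM A)
    (hf : IsPM f) : IsPM fun x => A x (f x) := by
  have e : ∀ x, A x (f x) =
      ∑ i, (Module.finBasis ℝ Y).coord i (f x) • A x (Module.finBasis ℝ Y i) := fun x => by
    conv_lhs => rw [← (Module.finBasis ℝ Y).sum_repr (f x)]
    simp only [map_sum, map_smul, Module.Basis.coord_apply]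
  simp only [e]
  exact sum _ fun i => (hf (LinearMap.toContinuousLinearMap _)).isPM.smul
    ((clm (ContinuousLinearMap.apply ℝ Z (Module.finBasis ℝ Y i))).comp hA)

end IsPM

/-- coordinates on a finite dimensional space -/
noncomputable def cox (X : Type) [NormedAddCommGroup X] [NormedSpace ℝ X] [FiniteDimensional ℝ X] :
    X ≃L[ℝ] (Fin (Module.finrank ℝ X) → ℝ) := (Module.finBasis ℝ X).equivFunL

/-! ### Boolean operations -/

namespace SA

variable {s t : Set X}

theorem congr (h : SA s) (e : ∀ x, x ∈ t ↔ x ∈ s) : SA t := (Set.ext e : t = s) ▸ h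
theorem inter (hs : SA s) (ht : SA t) : SA (s ∩ t) :=
  (compl _ (union _ _ (compl _ hs) (compl _ ht))).congr fun x => by simp
theorem univ : SA (univ : Set X) := (pos _ (IsP.const 1)).congr fun x => by simp
theorem empty : SA (∅ : Set X) := (pos _ (IsP.const 0)).congr fun x => by simp
theorem diff (hs : SA s) (ht : SA t) : SA (s \ t) := hs.inter (compl _ ht)

theorem preimage {t : Set Y} (ht : SA t) {f : X → Y} (hf : IsPM f) : SA (f ⁻¹' t) := by
  induction ht with
  | pos g hg => exact pos _ (hg.comp hf)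
  | union _ _ _ _ a b => exact union _ _ a b
  | compl _ _ a => exact compl _ a

theorem biUnion {ι : Type} (I : Finset ι) {s : ι → Set X} (h : ∀ i ∈ I, SA (s i)) :
    SA (⋃ i ∈ I, s i) := by
  classical
  induction I using Finset.induction_on with
  | empty => simpa using empty
  | insert a I _ ih =>
    rw [Finset.set_biUnion_insert]
    exact union _ _ (h a (Finset.mem_insert_self _ _)) (ih fun i hi => h i (Finset.mem_insert_of_mem hi))

theorem iUnion {ι : Type} [Finite ι] {s : ι → Set X} (h : ∀ i, SA (s i)) : SA (⋃ i, s i) := by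
  cases nonempty_fintype ι
  exact (biUnion Finset.univ fun i _ => h i).congr fun x => by simp

theorem iInter {ι : Type} [Finite ι] {s : ι → Set X} (h : ∀ i, SA (s i)) : SA (⋂ i, s i) :=
  (compl _ (iUnion fun i => compl _ (h i))).congr fun x => by simp

theorem prod {t : Set Y} (hs : SA s) (ht : SA t) : SA (s ×ˢ t) :=
  (hs.preimage IsPM.id.fst).inter (ht.preimage IsPM.id.snd)

theorem lt {f g : X → ℝ} (hf : IsPM f) (hg : IsPM g) : SA {x | f x < g x} :=
  (pos _ (hg.sub hf).isP).congr fun x => by simp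

theorem le {f g : X → ℝ} (hf : IsPM f) (hg : IsPM g) : SA {x | f x ≤ g x} :=
  (compl _ (lt hg hf)).congr fun x => by simp

theorem eq [FiniteDimensional ℝ Y] {f g : X → Y} (hf : IsPM f) (hg : IsPM g) :
    SA {x | f x = g x} := by
  have h : ∀ i, SA {x | cox Y (f x) i ≤ cox Y (g x) i ∧ cox Y (g x) i ≤ cox Y (f x) i} := fun i =>
    (le (by fun_prop) (by fun_prop)).inter (le (by fun_prop) (by fun_prop))
  refine (iInter h).congr fun x => ?_
  simp only [mem_iInter, mem_setOf_eq, ← le_antisymm_iff, ← funext_iff, (cox Y).injective.eq_iff]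

/-- a semialgebraic set is a union of sign classes of finitely many polynomials -/
theorem sign (hs : SA s) : ∃ F : Set (X → ℝ), F.Finite ∧ (∀ f ∈ F, IsP f) ∧
    ∀ x y, (∀ f ∈ F, (0 < f x ↔ 0 < f y)) → (x ∈ s ↔ y ∈ s) := by
  induction hs with
  | pos f hf => exact ⟨{f}, finite_singleton f, by simpa, fun x y h => h f rfl⟩
  | union _ _ _ _ a b =>
    obtain ⟨F, h1, h2, h3⟩ := a
    obtain ⟨G, k1, k2, k3⟩ := b
    exact ⟨F ∪ G, h1.union k1, fun f hf => hf.elim (h2 f) (k2 f), fun x y h =>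
      or_congr (h3 x y fun f hf => h f (Or.inl hf)) (k3 x y fun f hf => h f (Or.inr hf))⟩
  | compl _ _ a =>
    obtain ⟨F, h1, h2, h3⟩ := a
    exact ⟨F, h1, h2, fun x y h => not_congr (h3 x y h)⟩

/-- a union of atoms of finitely many semialgebraic sets is semialgebraic -/
theorem of_atoms {ι : Type} [Finite ι] {A : ι → Set X} (hA : ∀ i, SA (A i))
    (h : ∀ x y, (∀ i, x ∈ A i ↔ y ∈ A i) → x ∈ s → y ∈ s) : SA s := by
  classical
  refine (iUnion (ι := {σ : ι → Prop // ∃ x ∈ s, ∀ i, x ∈ A i ↔ σ i}) fun σ =>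
    iInter fun i => (show SA {y | y ∈ A i ↔ σ.1 i} from ?_)).congr fun y => ?_
  · by_cases a : σ.1 i
    · exact (hA i).congr fun y => by simp [a]
    · exact (compl _ (hA i)).congr fun y => by simp [a]
  · simp only [mem_iUnion, mem_iInter, mem_setOf_eq]
    refine ⟨fun hy => ⟨⟨fun i => y ∈ A i, y, hy, fun _ => Iff.rfl⟩, fun _ => Iff.rfl⟩, ?_⟩
    rintro ⟨⟨σ, x, hx, a⟩, b⟩
    exact h x y (fun i => (a i).trans (b i).symm) hx

end SA

/-! ### Definable predicates and maps -/

/-- definable predicates -/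
@[fun_prop] def DP (φ : X → Prop) : Prop := SA {x | φ x}

/-- definable total maps -/
@[fun_prop] def DF (f : X → Y) : Prop := SA {p : X × Y | p.2 = f p.1}

theorem SA.dp {s : Set X} (h : SA s) : DP fun x => x ∈ s := h
theorem DP.sa {φ : X → Prop} (h : DP φ) : SA {x | φ x} := h
theorem DF.graph {f : X → Y} (h : DF f) : DP fun p : X × Y => p.2 = f p.1 := h
theorem saf_univ {f : X → Y} : SAF univ f ↔ DF f := by simp [SAF, DF]
theorem IsPM.df [FiniteDimensional ℝ Y] {f : X → Y} (h : IsPM f) : DF f :=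
  SA.eq IsPM.id.snd (h.comp IsPM.id.fst)
theorem IsP.df {f : X → ℝ} (h : IsP f) : DF f := h.isPM.df

namespace DP

variable {φ ψ : X → Prop}

theorem congr (h : DP φ) (e : ∀ x, ψ x ↔ φ x) : DP ψ := SA.congr h e
theorem pm {φ : Y → Prop} (h : DP φ) {f : X → Y} (hf : IsPM f) : DP fun x => φ (f x) :=
  SA.preimage h hf
@[fun_prop] theorem const (c : Prop) : DP fun _ : X => c := by
  by_cases h : c
  · exact SA.univ.congr fun x => by simp [h]
  · exact SA.empty.congr fun x => by simp [h]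
@[fun_prop] theorem and (h : DP φ) (k : DP ψ) : DP fun x => φ x ∧ ψ x := SA.inter h k
@[fun_prop] theorem or (h : DP φ) (k : DP ψ) : DP fun x => φ x ∨ ψ x := SA.union _ _ h k
@[fun_prop] theorem not (h : DP φ) : DP fun x => ¬φ x := SA.compl _ h
@[fun_prop] theorem imp (h : DP φ) (k : DP ψ) : DP fun x => φ x → ψ x :=
  (h.not.or k).congr fun _ => imp_iff_not_or
@[fun_prop] theorem iff (h : DP φ) (k : DP ψ) : DP fun x => φ x ↔ ψ x :=
  ((h.imp k).and (k.imp h)).congr fun _ => iff_def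
@[fun_prop] theorem ex_fin {ι : Type} [Finite ι] {φ : ι → X → Prop} (h : ∀ i, DP (φ i)) :
    DP fun x => ∃ i, φ i x := (SA.iUnion h).congr fun x => by simp
@[fun_prop] theorem all_fin {ι : Type} [Finite ι] {φ : ι → X → Prop} (h : ∀ i, DP (φ i)) :
    DP fun x => ∀ i, φ i x := (SA.iInter h).congr fun x => by simp
@[fun_prop] theorem ex_prop (h : DP φ) (k : DP ψ) : DP fun x => ∃ _ : φ x, ψ x :=
  (h.and k).congr fun _ => exists_prop

variable [hP : Fact S_PROJ] [FiniteDimensional ℝ X] [FiniteDimensional ℝ Y]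

@[fun_prop] theorem ex {φ : X → Y → Prop} (h : DP fun p : X × Y => φ p.1 p.2) :
    DP fun x => ∃ y, φ x y := (hP.out X Y _ h).congr fun x => by simp
@[fun_prop] theorem all {φ : X → Y → Prop} (h : DP fun p : X × Y => φ p.1 p.2) :
    DP fun x => ∀ y, φ x y := (ex (φ := fun x y => ¬φ x y) h.not).not.congr fun x => by simp
@[fun_prop] theorem comp {φ : Y → Prop} {f : X → Y} (h : DP φ) (hf : DF f) :
    DP fun x => φ (f x) :=
  (ex (φ := fun x y => y = f x ∧ φ y) (hf.graph.and (h.pm IsPM.id.snd))).congr fun x => by simp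

end DP

namespace DF

variable {f g : X → Y}

theorem of_graph (h : DP fun p : X × Y => p.2 = f p.1) : DF f := h
theorem congr (h : DF f) (e : ∀ x, g x = f x) : DF g := (funext e : g = f) ▸ h
@[fun_prop] theorem prodMk {g : X → Z} (hf : DF f) (hg : DF g) : DF fun x => (f x, g x) :=
  ((hf.graph.pm (f := fun p : X × Y × Z => (p.1, p.2.1)) (by fun_prop)).and
    (hg.graph.pm (f := fun p : X × Y × Z => (p.1, p.2.2)) (by fun_prop))).congr
    fun _ => Prod.ext_iff
@[fun_prop] theorem pi {ι : Type} [Fintype ι] {f : X → ι → Y} (h : ∀ i, DF fun x => f x i) :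
    DF fun x i => f x i :=
  (DP.all_fin fun i => (h i).graph.pm (f := fun p : X × (ι → Y) => (p.1, p.2 i))
    (by fun_prop)).congr fun _ => funext_iff
@[fun_prop] theorem ite {c : X → Prop} [DecidablePred c] (hc : DP c) (hf : DF f) (hg : DF g) :
    DF fun x => if c x then f x else g x :=
  (((hc.pm IsPM.id.fst).and hf.graph).or ((hc.pm IsPM.id.fst).not.and hg.graph)).congr
    fun p => by by_cases h : c p.1 <;> simp [h]

variable [FiniteDimensional ℝ X] [FiniteDimensional ℝ Y] [FiniteDimensional ℝ Z]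

@[fun_prop] theorem id : DF fun x : X => x := IsPM.id.df
omit [FiniteDimensional ℝ X] in
@[fun_prop] theorem const (c : Y) : DF fun _ : X => c := (IsPM.const c).df
omit [FiniteDimensional ℝ X] in
@[fun_prop] theorem clm (L : X →L[ℝ] Y) : DF (L : X → Y) := (IsPM.clm L).df
omit [FiniteDimensional ℝ X] in
@[fun_prop] theorem cle (L : X ≃L[ℝ] Y) : DF (L : X → Y) := (IsPM.cle L).df
@[fun_prop] theorem apply {ι : Type} [Fintype ι] (i : ι) : DF fun x : ι → Y => x i :=
  (IsPM.apply i).df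

variable [Fact S_PROJ]

@[fun_prop] theorem comp {g : Y → Z} (hg : DF g) (hf : DF f) : DF fun x => g (f x) :=
  (DP.ex (φ := fun (p : X × Z) y => y = f p.1 ∧ p.2 = g y)
    ((hf.graph.pm (f := fun q : (X × Z) × Y => (q.1.1, q.2)) (by fun_prop)).and
      (hg.graph.pm (f := fun q : (X × Z) × Y => (q.2, q.1.2)) (by fun_prop)))).congr
    fun p => by simp
@[fun_prop] theorem fst {f : X → Y × Z} (hf : DF f) : DF fun x => (f x).1 :=
  IsPM.id.fst.df.comp hf
@[fun_prop] theorem snd {f : X → Y × Z} (hf : DF f) : DF fun x => (f x).2 :=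
  IsPM.id.snd.df.comp hf
@[fun_prop] theorem add (hf : DF f) (hg : DF g) : DF fun x => f x + g x :=
  (IsPM.df (f := fun p : Y × Y => p.1 + p.2) (by fun_prop)).comp (hf.prodMk hg)
@[fun_prop] theorem sub (hf : DF f) (hg : DF g) : DF fun x => f x - g x :=
  (IsPM.df (f := fun p : Y × Y => p.1 - p.2) (by fun_prop)).comp (hf.prodMk hg)
@[fun_prop] theorem neg (hf : DF f) : DF fun x => -f x := IsPM.id.neg.df.comp hf
@[fun_prop] theorem smul {c : X → ℝ} (hc : DF c) (hf : DF f) : DF fun x => c x • f x :=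
  (IsPM.df (f := fun p : ℝ × Y => p.1 • p.2) (by fun_prop)).comp (hc.prodMk hf)
@[fun_prop] theorem mul {f g : X → ℝ} (hf : DF f) (hg : DF g) : DF fun x => f x * g x :=
  hf.smul hg
@[fun_prop] theorem pow {f : X → ℝ} (hf : DF f) (n : ℕ) : DF fun x => f x ^ n :=
  (IsPM.id.pow n).df.comp hf
@[fun_prop] theorem clm_apply {A : X → Y →L[ℝ] Z} (hA : DF A) (hf : DF f) :
    DF fun x => A x (f x) :=
  (IsPM.df (f := fun p : (Y →L[ℝ] Z) × Y => p.1 p.2) (by fun_prop)).comp (hA.prodMk hf)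

theorem sum' {ι : Type} (s : Finset ι) {f : ι → X → Y} (h : ∀ i ∈ s, DF (f i)) :
    DF fun x => ∑ i ∈ s, f i x := by
  classical
  induction s using Finset.induction_on with
  | empty => simpa using const 0
  | insert a s ha ih =>
    simpa only [Finset.sum_insert ha] using (h a (Finset.mem_insert_self _ _)).add
      (ih fun i hi => h i (Finset.mem_insert_of_mem hi))
@[fun_prop] theorem sum {ι : Type} (s : Finset ι) {f : ι → X → Y} (h : ∀ i, DF (f i)) :
    DF fun x => ∑ i ∈ s, f i x := sum' s fun i _ => h i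

theorem prod' {ι : Type} (s : Finset ι) {f : ι → X → ℝ} (h : ∀ i ∈ s, DF (f i)) :
    DF fun x => ∏ i ∈ s, f i x := by
  classical
  induction s using Finset.induction_on with
  | empty => simpa using const 1
  | insert a s ha ih =>
    simpa only [Finset.prod_insert ha] using (h a (Finset.mem_insert_self _ _)).mul
      (ih fun i hi => h i (Finset.mem_insert_of_mem hi))
@[fun_prop] theorem prod {ι : Type} (s : Finset ι) {f : ι → X → ℝ} (h : ∀ i, DF (f i)) :
    DF fun x => ∏ i ∈ s, f i x := prod' s fun i _ => h i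

end DF

section proj

variable [Fact S_PROJ] [FiniteDimensional ℝ X] [FiniteDimensional ℝ Y] [FiniteDimensional ℝ Z]

namespace DP

@[fun_prop] theorem lt {f g : X → ℝ} (hf : DF f) (hg : DF g) : DP fun x => f x < g x :=
  comp (φ := fun p : ℝ × ℝ => p.1 < p.2) (SA.lt IsPM.id.fst IsPM.id.snd) (hf.prodMk hg)
@[fun_prop] theorem le {f g : X → ℝ} (hf : DF f) (hg : DF g) : DP fun x => f x ≤ g x :=
  (lt hg hf).not.congr fun _ => not_lt.symm
@[fun_prop] theorem gt {f g : X → ℝ} (hf : DF f) (hg : DF g) : DP fun x => f x > g x := lt hg hf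
@[fun_prop] theorem ge {f g : X → ℝ} (hf : DF f) (hg : DF g) : DP fun x => f x ≥ g x := le hg hf
@[fun_prop] theorem eq {f g : X → Y} (hf : DF f) (hg : DF g) : DP fun x => f x = g x :=
  comp (φ := fun p : Y × Y => p.1 = p.2) (SA.eq IsPM.id.fst IsPM.id.snd) (hf.prodMk hg)
@[fun_prop] theorem ne {f g : X → Y} (hf : DF f) (hg : DF g) : DP fun x => f x ≠ g x :=
  (eq hf hg).not
theorem mem {s : Set Y} (hs : SA s) {f : X → Y} (hf : DF f) : DP fun x => f x ∈ s :=
  comp hs.dp hf
@[fun_prop] theorem mem_Icc {f a b : X → ℝ} (hf : DF f) (ha : DF a) (hb : DF b) :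
    DP fun x => f x ∈ Icc (a x) (b x) := (le ha hf).and (le hf hb)
@[fun_prop] theorem mem_Ioo {f a b : X → ℝ} (hf : DF f) (ha : DF a) (hb : DF b) :
    DP fun x => f x ∈ Ioo (a x) (b x) := (lt ha hf).and (lt hf hb)
@[fun_prop] theorem mem_Ico {f a b : X → ℝ} (hf : DF f) (ha : DF a) (hb : DF b) :
    DP fun x => f x ∈ Ico (a x) (b x) := (le ha hf).and (lt hf hb)
@[fun_prop] theorem mem_Ioc {f a b : X → ℝ} (hf : DF f) (ha : DF a) (hb : DF b) :
    DP fun x => f x ∈ Ioc (a x) (b x) := (lt ha hf).and (le hf hb)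

end DP

namespace DF

variable {f g : X → ℝ}

@[fun_prop] theorem inv (hf : DF f) : DF fun x => (f x)⁻¹ := by
  have h : DP fun p : X × ℝ => p.2 * f p.1 = 1 ∨ f p.1 = 0 ∧ p.2 = 0 := by fun_prop
  refine h.congr fun p => ?_
  by_cases a : f p.1 = 0
  · simp [a]
  · simp [a, mul_eq_one_iff_eq_inv₀ a]
@[fun_prop] theorem div (hf : DF f) (hg : DF g) : DF fun x => f x / g x := hf.mul hg.inv
@[fun_prop] theorem max (hf : DF f) (hg : DF g) : DF fun x => max (f x) (g x) :=
  (ite (DP.le hf hg) hg hf).congr fun _ => max_def _ _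
@[fun_prop] theorem min (hf : DF f) (hg : DF g) : DF fun x => min (f x) (g x) :=
  (ite (DP.le hf hg) hf hg).congr fun _ => min_def _ _
@[fun_prop] theorem abs (hf : DF f) : DF fun x => |f x| := hf.max hf.neg
@[fun_prop] theorem sqrt (hf : DF f) : DF fun x => √(f x) := by
  have h : DP fun p : X × ℝ => f p.1 = p.2 ^ 2 ∧ 0 ≤ p.2 ∨ p.2 = 0 ∧ f p.1 < 0 := by fun_prop
  exact h.congr fun p => eq_comm.trans (Real.sqrt_eq_cases.trans (by simp only [sq, eq_comm]; tauto))
theorem indicator {s : Set X} (hs : SA s) {f : X → Y} (hf : DF f) : DF (s.indicator f) := by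
  classical
  exact (ite hs.dp hf (const 0)).congr fun x => indicator_apply _ _ _

end DF

/-- spaces with a definable norm -/
class DN (X : Type) [NormedAddCommGroup X] [NormedSpace ℝ X] : Prop where
  out : DF fun x : X => ‖x‖

@[fun_prop] theorem DF.norm [DN Y] {f : X → Y} (hf : DF f) : DF fun x => ‖f x‖ := DN.out.comp hf
@[fun_prop] theorem DF.dist [DN Y] {f g : X → Y} (hf : DF f) (hg : DF g) :
    DF fun x => dist (f x) (g x) := (hf.sub hg).norm.congr fun _ => dist_eq_norm _ _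
@[fun_prop] theorem DP.mem_ball [DN Y] {f a : X → Y} {r : X → ℝ} (hf : DF f) (ha : DF a)
    (hr : DF r) : DP fun x => f x ∈ Metric.ball (a x) (r x) := DP.lt (hf.dist ha) hr
@[fun_prop] theorem DP.mem_closedBall [DN Y] {f a : X → Y} {r : X → ℝ} (hf : DF f) (ha : DF a)
    (hr : DF r) : DP fun x => f x ∈ Metric.closedBall (a x) (r x) := DP.le (hf.dist ha) hr

instance : DN ℝ := ⟨DF.id.abs⟩
instance [DN X] [DN Y] : DN (X × Y) := ⟨DF.id.fst.norm.max DF.id.snd.norm⟩
instance {ι : Type} [Fintype ι] [DN X] : DN (ι → X) := ⟨by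
  have h : DP fun p : (ι → X) × ℝ => ∀ r : ℝ, p.2 ≤ r ↔ 0 ≤ r ∧ ∀ i, ‖p.1 i‖ ≤ r := by fun_prop
  have k : ∀ (x : ι → X) (r : ℝ), ‖x‖ ≤ r ↔ 0 ≤ r ∧ ∀ i, ‖x i‖ ≤ r := fun x r =>
    ⟨fun a => ⟨(norm_nonneg x).trans a, fun i => (norm_le_pi_norm x i).trans a⟩,
      fun a => (pi_norm_le_iff_of_nonneg a.1).2 a.2⟩
  refine h.congr fun p => ?_
  simp only [← k]
  exact ⟨fun a r => by rw [a], fun a => le_antisymm ((a _).2 le_rfl) ((a _).1 le_rfl)⟩⟩
instance [DN X] [DN Y] : DN (X →L[ℝ] Y) := ⟨by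
  have h : DP fun p : (X →L[ℝ] Y) × ℝ => ∀ r : ℝ, p.2 ≤ r ↔ 0 ≤ r ∧ ∀ x, ‖p.1 x‖ ≤ r * ‖x‖ := by
    fun_prop
  have k : ∀ (A : X →L[ℝ] Y) (r : ℝ), ‖A‖ ≤ r ↔ 0 ≤ r ∧ ∀ x, ‖A x‖ ≤ r * ‖x‖ := fun A r =>
    ⟨fun a => ⟨(norm_nonneg A).trans a, fun x => A.le_of_opNorm_le a x⟩,
      fun a => A.opNorm_le_bound a.1 a.2⟩
  refine h.congr fun p => ?_
  simp only [← k]
  exact ⟨fun a r => by rw [a], fun a => le_antisymm ((a _).2 le_rfl) ((a _).1 le_rfl)⟩⟩

/-! ### Maps on definable sets -/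

omit [FiniteDimensional ℝ X] [FiniteDimensional ℝ Y] [Fact S_PROJ] in
theorem DF.saf {s : Set X} {f g : X → Y} (hg : DF g) (hs : SA s) (e : EqOn f g s) : SAF s f :=
  ((hs.dp.pm IsPM.id.fst).and hg.graph).congr fun _ =>
    and_congr_right fun h => by rw [e h]

theorem SAF.dom {s : Set X} {f : X → Y} (h : SAF s f) : SA s :=
  SA.congr (DP.ex (φ := fun x y => x ∈ s ∧ y = f x) h) fun _ =>
    ⟨fun a => ⟨_, a, rfl⟩, fun ⟨_, a, _⟩ => a⟩

/-- a definable map on `s` extends by zero to a definable total map -/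
theorem SAF.df {s : Set X} {f : X → Y} (h : SAF s f) : DF (s.indicator f) := by
  have h1 : DP fun p : X × Y => p.1 ∈ s ∧ p.2 = f p.1 := h
  have h2 := h.dom.dp
  have h3 : DP fun p : X × Y => (p.1 ∈ s ∧ p.2 = f p.1) ∨ ¬p.1 ∈ s ∧ p.2 = 0 :=
    h1.or (by fun_prop)
  exact h3.congr fun p => by by_cases a : p.1 ∈ s <;> simp [a]

theorem SAF.exists_df {s : Set X} {f : X → Y} (h : SAF s f) : ∃ g, DF g ∧ EqOn f g s :=
  ⟨_, h.df, fun _ hx => (indicator_of_mem hx f).symm⟩

theorem SAF.mono {s t : Set X} {f : X → Y} (h : SAF s f) (ht : SA t) (hts : t ⊆ s) : SAF t f :=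
  h.df.saf ht fun _ hx => (indicator_of_mem (hts hx) f).symm

theorem SA.image {s : Set X} (hs : SA s) {f : X → Y} (hf : DF f) : SA (f '' s) := by
  have := hs.dp
  exact (show DP fun y => ∃ x, x ∈ s ∧ f x = y by fun_prop)

theorem SA.preimage' {t : Set Y} (ht : SA t) {f : X → Y} (hf : DF f) : SA (f ⁻¹' t) :=
  DP.mem ht hf

/-! ### Topology, in families -/

theorem DP.closure {φ : Z → X → Prop} (h : DP fun p : Z × X => φ p.1 p.2) :
    DP fun p : Z × X => p.2 ∈ closure {y | φ p.1 y} := by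
  have k : DP fun p : Z × X => ∀ ε : ℝ, 0 < ε → ∃ y, φ p.1 y ∧ dist (cox X p.2) (cox X y) < ε := by
    have : DP fun q : ((Z × X) × ℝ) × X => φ q.1.1.1 q.2 :=
      h.pm (f := fun q : ((Z × X) × ℝ) × X => (q.1.1.1, q.2)) (by fun_prop)
    fun_prop
  refine k.congr fun p => ?_
  rw [(cox X).toHomeomorph.isInducing.closure_eq_preimage_closure_image, mem_preimage,
    Metric.mem_closure_iff]
  simp

theorem DP.interior {φ : Z → X → Prop} (h : DP fun p : Z × X => φ p.1 p.2) :
    DP fun p : Z × X => p.2 ∈ interior {y | φ p.1 y} :=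
  (DP.closure (φ := fun z y => ¬φ z y) h.not).not.congr fun p => by
    rw [interior_eq_compl_closure_compl]; rfl

theorem DP.frontier {φ : Z → X → Prop} (h : DP fun p : Z × X => φ p.1 p.2) :
    DP fun p : Z × X => p.2 ∈ frontier {y | φ p.1 y} := h.closure.and h.interior.not

theorem SA.closure {s : Set X} (h : SA s) : SA (closure s) :=
  (DP.closure (Z := ℝ) (φ := fun _ y => y ∈ s) (h.dp.pm IsPM.id.snd)).pm
    (f := fun x => (0, x)) (by fun_prop)

theorem SA.interior {s : Set X} (h : SA s) : SA (interior s) :=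
  (DP.interior (Z := ℝ) (φ := fun _ y => y ∈ s) (h.dp.pm IsPM.id.snd)).pm
    (f := fun x => (0, x)) (by fun_prop)

theorem SA.frontier {s : Set X} (h : SA s) : SA (frontier s) := h.closure.diff h.interior

end proj

end Pool.Agent.P.MP_a0f0ad_al.Fi
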