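import Mathlib

/-! Semialgebraic subsets of finite dimensional normed spaces. -/

namespace Pool.Agent.P.MP_a0f0ad_al.Fi

/-- polynomial functions: the algebra generated by the continuous linear functionals -/
def IsP {X : Type} [NormedAddCommGroup X] [NormedSpace ℝ X] (f : X → ℝ) : Prop :=
  f ∈ Algebra.adjoin ℝ (Set.range fun l : X →L[ℝ] ℝ => (l : X → ℝ))

/-- semialgebraic sets -/
inductive SA {X : Type} [NormedAddCommGroup X] [NormedSpace ℝ X] : Set X → Prop
  | pos (f : X → ℝ) : IsP f → SA {x | 0 < f x}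
  | union (s t : Set X) : SA s → SA t → SA (s ∪ t)
  | compl (s : Set X) : SA s → SA sᶜ

/-- the graph of `f` over `s` is semialgebraic -/
def SAF {X Y : Type} [NormedAddCommGroup X] [NormedSpace ℝ X] [NormedAddCommGroup Y]
    [NormedSpace ℝ Y] (s : Set X) (f : X → Y) : Prop :=
  SA {p : X × Y | p.1 ∈ s ∧ p.2 = f p.1}

end Pool.Agent.P.MP_a0f0ad_al.Fi
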