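import Pool.Agent.P.MP_a0f0ad_al.Fi.S.Iface2

/-! Step ADJ of the filiform project. -/

namespace Pool.Agent.P.MP_a0f0ad_al.Fi

open Set MeasureTheory Metric Filter Topology SignType
open scoped Polynomial

namespace AdjA

theorem fin (hGAP : S_GAP) {f g : ℝ → ℝ} (hf : Continuous f) (hg : Continuous g) (Y : Finset ℝ) :
    (∀ z ∈ Y, sign (f z) = sign (g z)) →
    (∀ a ∈ Y, ∀ b ∈ Y, a < b → (∀ z ∈ Y, z ∉ Ioo a b) →
      StrictMonoOn f (Icc a b) ∧ StrictMonoOn g (Icc a b) ∨
        StrictAntiOn f (Icc a b) ∧ StrictAntiOn g (Icc a b)) →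
    ∃ η : ℝ ≃o ℝ, (∀ t, (t ∈ Y ∨ (∀ z ∈ Y, z ≤ t) ∨ ∀ z ∈ Y, t ≤ z) → η t = t) ∧
      ∀ t, (∃ z ∈ Y, z ≤ t) → (∃ z ∈ Y, t ≤ z) → sign (f t) = sign (g (η t)) := by
  classical
  induction Y using Finset.induction_on_max with
  | empty => exact fun _ _ => ⟨OrderIso.refl ℝ, fun _ _ => rfl, fun t ⟨z, hz, _⟩ => by simp at hz⟩
  | insert d s hd ih =>
    intro h1 h2
    have md := Finset.mem_insert_self d s
    rcases s.eq_empty_or_nonempty with rfl | hne
    · refine ⟨OrderIso.refl ℝ, fun _ _ => rfl, fun t ⟨z, hz, a⟩ ⟨z', hz', b⟩ => ?_⟩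
      have e1 : z = d := by simpa using hz
      have e2 : z' = d := by simpa using hz'
      have e : t = d := le_antisymm (e2 ▸ b) (e1 ▸ a)
      rw [e]
      exact h1 d md
    obtain ⟨η₁, a1, a2⟩ := ih (fun z hz => h1 z (Finset.mem_insert_of_mem hz))
      fun a ha b hb hab hz => h2 a (Finset.mem_insert_of_mem ha) b (Finset.mem_insert_of_mem hb) hab
        fun z hz' => by
          rcases Finset.mem_insert.1 hz' with rfl | hz'
          · exact fun h => lt_asymm h.2 (hd b hb)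
          · exact hz z hz'
    obtain ⟨c, hc, cm⟩ : ∃ c ∈ s, ∀ z ∈ s, z ≤ c := ⟨s.max' hne, s.max'_mem hne, s.le_max'⟩
    have mc := Finset.mem_insert_of_mem (b := d) hc
    have hcd := hd c hc
    obtain ⟨η₂, b1, b2⟩ := hGAP c d f g hcd hf hg (h1 c mc) (h1 d md) (h2 c mc d md hcd
      fun z hz => by
        rcases Finset.mem_insert.1 hz with rfl | hz
        · exact fun h => lt_irrefl _ h.2
        · exact fun h => (cm z hz).not_gt h.1)
    have lo : ∀ t, t ≤ c → η₂ t = t := fun t ht => b1 t fun h => ht.not_gt h.1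
    have hi : ∀ t, d ≤ t → η₂ t = t := fun t ht => b1 t fun h => ht.not_gt h.2
    have up : ∀ t, c ≤ t → η₁ t = t := fun t ht =>
      a1 t (Or.inr (Or.inl fun z hz => (cm z hz).trans ht))
    refine ⟨η₂.trans η₁, fun t ht => ?_, fun t ⟨z, hz, a⟩ ⟨z', hz', b⟩ => ?_⟩
    · rw [OrderIso.trans_apply]
      rcases ht with ht | ht | ht
      · rcases Finset.mem_insert.1 ht with rfl | ht
        · rw [hi _ le_rfl, up _ hcd.le]
        · rw [lo _ (cm t ht), a1 t (Or.inl ht)]
      · rw [hi _ (ht d md), up _ (ht c mc)]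
      · rw [lo _ (ht c mc),
          a1 t (Or.inr (Or.inr fun z hz => ht z (Finset.mem_insert_of_mem hz)))]
    · rw [OrderIso.trans_apply]
      rcases le_total t c with h | h
      · rw [lo _ h]
        refine a2 t ⟨z, ?_, a⟩ ⟨c, hc, h⟩
        rcases Finset.mem_insert.1 hz with rfl | hz
        · exact absurd (a.trans h) hcd.not_ge
        · exact hz
      · have htd : t ≤ d := by
          rcases Finset.mem_insert.1 hz' with rfl | hz'
          · exact b
          · exact b.trans (hd z' hz').le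
        have k : c ≤ η₂ t := lo c le_rfl ▸ η₂.monotone h
        rw [up _ k]
        exact b2 t ⟨h, htd⟩

end AdjA

theorem p_ADJ (hGAP : S_GAP) :
    S_ADJ := by
  classical
  intro Z f g hf hg h1 h2 ht hb
  obtain ⟨R₁, k1⟩ := eventually_atTop.1 ht
  obtain ⟨R₂, k2⟩ := eventually_atBot.1 hb
  obtain ⟨M, hM⟩ := Z.finite_toSet.bddAbove
  obtain ⟨m, hm⟩ := Z.finite_toSet.bddBelow
  set u := max (max R₁ M) 0 with hu
  set l := min (min R₂ m) 0 with hl
  have u1 : R₁ ≤ u := (le_max_left _ _).trans (le_max_left _ _)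
  have u2 : M ≤ u := (le_max_right _ _).trans (le_max_left _ _)
  have l1 : l ≤ R₂ := (min_le_left _ _).trans (min_le_left _ _)
  have l2 : l ≤ m := (min_le_left _ _).trans (min_le_right _ _)
  have lu : l ≤ u := (min_le_right _ _).trans (le_max_right _ _)
  have sub : ∀ z ∈ Z, z ∈ insert u (insert l Z) := fun z hz =>
    Finset.mem_insert_of_mem (Finset.mem_insert_of_mem hz)
  have bd : ∀ z ∈ insert u (insert l Z), l ≤ z ∧ z ≤ u := fun z hz => by
    rcases Finset.mem_insert.1 hz with rfl | hz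
    · exact ⟨lu, le_rfl⟩
    rcases Finset.mem_insert.1 hz with rfl | hz
    · exact ⟨le_rfl, lu⟩
    · exact ⟨l2.trans (hm hz), (hM hz).trans u2⟩
  obtain ⟨η, a1, a2⟩ := AdjA.fin hGAP hf hg (insert u (insert l Z)) (fun z hz => by
      rcases Finset.mem_insert.1 hz with rfl | hz
      · exact k1 _ u1
      rcases Finset.mem_insert.1 hz with rfl | hz
      · exact k2 _ l1
      · exact h1 z hz)
    fun a _ b _ hab hz => h2 a b hab fun z hz' => hz z (sub z hz')
  refine ⟨η, fun z hz => a1 z (Or.inl (sub z hz)), fun t => ?_⟩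
  rcases le_total u t with h | h
  · rw [a1 t (Or.inr (Or.inl fun z hz => (bd z hz).2.trans h))]
    exact k1 t (u1.trans h)
  rcases le_total t l with h' | h'
  · rw [a1 t (Or.inr (Or.inr fun z hz => h'.trans (bd z hz).1))]
    exact k2 t (h'.trans l1)
  · exact a2 t ⟨l, Finset.mem_insert_of_mem (Finset.mem_insert_self _ _), h'⟩
      ⟨u, Finset.mem_insert_self _ _, h⟩

end Pool.Agent.P.MP_a0f0ad_al.Fi
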