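import Pool.Agent.P.MP_a0f0ad_al.Fi.S.Iface2
import Pool.Agent.P.MP_a0f0ad_al.Fi.S.Iface

/-! Step AE of the filiform project. -/

namespace Pool.Agent.P.MP_a0f0ad_al.Fi

open Set MeasureTheory Metric Filter Topology SignType
open scoped Polynomial

namespace AeA

theorem exists_simple {p : ℝ[X]} (hp : p ≠ 0) {t : ℝ} (ht : p.eval t = 0) :
    ∃ k : ℕ, (Polynomial.derivative^[k] p).eval t = 0 ∧
      (Polynomial.derivative^[k + 1] p).eval t ≠ 0 := by
  by_contra h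
  push Not at h
  have key : ∀ k : ℕ, (Polynomial.derivative^[k] p).eval t = 0 := fun k => by
    induction k with
    | zero => exact ht
    | succ k ih => exact h k ih
  exact lt_irrefl _ ((Polynomial.lt_rootMultiplicity_iff_isRoot_iterate_derivative
    (n := p.rootMultiplicity t) hp).2 fun m _ => key m)

theorem sign_const {p : ℝ[X]} {t : ℝ} (h : p ≠ 0 → p.eval t ≠ 0) :
    ∀ᶠ s in 𝓝 t, (0 < p.eval t ↔ 0 < p.eval s) := by
  by_cases hp : p = 0
  · simp [hp]
  · rcases lt_or_gt_of_ne (h hp) with h1 | h1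
    · filter_upwards [p.continuous.continuousAt.eventually (gt_mem_nhds h1)] with s hs
      exact iff_of_false h1.not_gt hs.not_gt
    · filter_upwards [p.continuous.continuousAt.eventually (lt_mem_nhds h1)] with s hs
      exact iff_of_true h1 hs

end AeA

theorem p_AE (hPROJ : S_PROJ) (hNULL : S_NULL) (hIFT : S_IFT) :
    S_AE := by
  intro X _ _ _ _ _ μ _ g n hg
  have : Fact S_PROJ := ⟨hPROJ⟩
  obtain ⟨F, hF, hP, hS⟩ := SA.sign hg
  have : Finite F := hF
  choose p hp using fun f : F => (hP f f.2).poly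
  let Q : F → ℕ → X × ℝ → ℝ := fun f k z =>
    ((Polynomial.derivative^[k] (p f)).map (evx z.1)).eval z.2
  have hQ : ∀ f k, IsP (Q f k) := fun f k => isP_poly _
  let A : F × ℕ × ℚ × ℚ → Set X := fun i =>
    {y | (i.2.2.1 : ℝ) < g y ∧ g y < (i.2.2.2 : ℝ) ∧ Q i.1 i.2.1 (y, g y) = 0}
  have hA : ∀ i, SA (A i) := fun i => by
    have h1 : DF (Q i.1 i.2.1) := (hQ _ _).df
    exact (show DP fun y => (i.2.2.1 : ℝ) < g y ∧ g y < (i.2.2.2 : ℝ) ∧ Q i.1 i.2.1 (y, g y) = 0 by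
      fun_prop)
  have hae : ∀ᵐ x ∂μ, ∀ i, x ∉ frontier (A i) :=
    ae_all_iff.2 fun i => measure_eq_zero_iff_ae_notMem.1 (hNULL X μ _ (hA i)).2
  filter_upwards [hae] with x hx
  have h1 : ∃ f : F, (p f).map (evx x) ≠ 0 ∧ ((p f).map (evx x)).eval (g x) = 0 := by
    by_contra hn
    push Not at hn
    have h2 : ∀ᶠ s in 𝓝 (g x), ∀ f : F, (0 < ((p f).map (evx x)).eval (g x) ↔
        0 < ((p f).map (evx x)).eval s) := eventually_all.2 fun f => AeA.sign_const (hn f)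
    obtain ⟨s, hs1, hs2⟩ := ((h2.filter_mono nhdsWithin_le_nhds).and
      (self_mem_nhdsWithin (s := {g x}ᶜ))).exists
    refine hs2 ((hS (x, g x) (x, s) fun f hf => ?_).1 rfl)
    have e := hs1 ⟨f, hf⟩
    rwa [← hp, ← hp] at e
  obtain ⟨f, hf0, hf1⟩ := h1
  obtain ⟨k, hk0, hk1⟩ := AeA.exists_simple hf0 hf1
  rw [Polynomial.iterate_derivative_map] at hk0
  have hd : HasDerivAt (fun t => Q f k (x, t))
      ((Polynomial.derivative^[k + 1] ((p f).map (evx x))).eval (g x)) (g x) := by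
    rw [Function.iterate_succ_apply', Polynomial.iterate_derivative_map]
    exact Polynomial.hasDerivAt ((Polynomial.derivative^[k] (p f)).map (evx x)) (g x)
  obtain ⟨h, hh, hev⟩ := hIFT X n (Q f k) x (g x) _ (hQ f k) hk0 hd hk1
  rw [nhds_prod_eq] at hev
  obtain ⟨pa, hpa, pb, hpb, hab⟩ := eventually_prod_iff.1 hev
  obtain ⟨l, u, hlu, hsub⟩ := mem_nhds_iff_exists_Ioo_subset.1 hpb
  obtain ⟨a, ha1, ha2⟩ := exists_rat_btwn hlu.1
  obtain ⟨b, hb1, hb2⟩ := exists_rat_btwn hlu.2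
  have hxA : x ∈ A (f, k, a, b) := ⟨ha2, hb1, hk0⟩
  have hint : x ∈ interior (A (f, k, a, b)) := by
    by_contra hn
    exact hx _ ⟨subset_closure hxA, hn⟩
  refine hh.congr_of_eventuallyEq ?_
  filter_upwards [hpa, mem_interior_iff_mem_nhds.1 hint] with y hy1 hy2
  exact hab hy1 (hsub ⟨ha1.trans hy2.1, hy2.2.1.trans hb2⟩) hy2.2.2

end Pool.Agent.P.MP_a0f0ad_al.Fi
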