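import Pool.Agent.P.MP_a0f0ad_al.Fi.S.Iface2
import Pool.Agent.P.MP_a0f0ad_al.Fi.S.Iface

/-! Step CH1 of the filiform project. -/

namespace Pool.Agent.P.MP_a0f0ad_al.Fi

open Set MeasureTheory Metric Filter Topology SignType
open scoped Polynomial

namespace Ch1A

/-- candidate points built from a set of marks -/
def Cand (F : ℝ → Prop) (t : ℝ) : Prop :=
  t = 0 ∨ ∃ a, F a ∧ ∃ b, F b ∧ (t = a + 1 ∨ t = a - 1 ∨ t = (a + b) / 2)

theorem cand_finite {F : Set ℝ} (hF : F.Finite) : {t | Cand (· ∈ F) t}.Finite := by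
  refine ((((hF.image (· + 1)).union (hF.image (· - 1))).union
    (hF.image2 (fun a b => (a + b) / 2) hF)).insert 0).subset ?_
  rintro t (rfl | ⟨a, ha, b, hb, rfl | rfl | rfl⟩)
  · exact Or.inl rfl
  · exact Or.inr (Or.inl (Or.inl ⟨a, ha, rfl⟩))
  · exact Or.inr (Or.inl (Or.inr ⟨a, ha, rfl⟩))
  · exact Or.inr (Or.inr ⟨a, ha, b, hb, rfl⟩)

theorem cand_meet {T : Set ℝ} (hF : (frontier T).Finite) {t : ℝ} (ht : t ∈ T) :
    ∃ k ∈ T, Cand (· ∈ frontier T) k := by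
  by_cases h0 : t ∈ frontier T
  · exact ⟨t, ht, Or.inr ⟨t, h0, t, h0, Or.inr (Or.inr (by ring))⟩⟩
  have tri : ∀ c ∈ frontier T, c < t ∨ t < c := fun c hc =>
    lt_or_gt_of_ne fun e => h0 (e ▸ hc)
  rcases (frontier T ∩ Iio t).eq_empty_or_nonempty with hL | hL <;>
    rcases (frontier T ∩ Ioi t).eq_empty_or_nonempty with hR | hR
  · refine ⟨0, sub_of_frontier isPreconnected_univ (disjoint_left.2 fun c _ hc => ?_)
      (mem_univ t) ht (mem_univ 0), Or.inl rfl⟩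
    rcases tri c hc with h | h
    · exact hL.subset ⟨hc, h⟩
    · exact hR.subset ⟨hc, h⟩
  · obtain ⟨b, hb, hm⟩ := exists_min_image _ id (hF.inter_of_left _) hR
    refine ⟨b - 1, sub_of_frontier isPreconnected_Iio (disjoint_left.2 fun c hcb hc => ?_)
      hb.2 ht (sub_one_lt b), Or.inr ⟨b, hb.1, b, hb.1, Or.inr (Or.inl rfl)⟩⟩
    rcases tri c hc with h | h
    · exact hL.subset ⟨hc, h⟩
    · exact not_lt.2 (hm c ⟨hc, h⟩) hcb
  · obtain ⟨a, ha, hm⟩ := exists_max_image _ id (hF.inter_of_left _) hL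
    refine ⟨a + 1, sub_of_frontier isPreconnected_Ioi (disjoint_left.2 fun c hca hc => ?_)
      ha.2 ht (lt_add_one a), Or.inr ⟨a, ha.1, a, ha.1, Or.inl rfl⟩⟩
    rcases tri c hc with h | h
    · exact not_lt.2 (hm c ⟨hc, h⟩) hca
    · exact hR.subset ⟨hc, h⟩
  · obtain ⟨a, ha, hm⟩ := exists_max_image _ id (hF.inter_of_left _) hL
    obtain ⟨b, hb, hn⟩ := exists_min_image _ id (hF.inter_of_left _) hR
    have hab : a < b := lt_trans ha.2 hb.2
    refine ⟨(a + b) / 2, sub_of_frontier (isPreconnected_Ioo (a := a) (b := b))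
      (disjoint_left.2 fun c hc' hc => ?_) ⟨ha.2, hb.2⟩ ht ⟨by linarith, by linarith⟩,
      Or.inr ⟨a, ha.1, b, hb.1, Or.inr (Or.inr rfl)⟩⟩
    rcases tri c hc with h | h
    · exact not_lt.2 (hm c ⟨hc, h⟩) hc'.1
    · exact not_lt.2 (hn c ⟨hc, h⟩) hc'.2

/-- the least point of a set, or zero -/
def Pick (G : ℝ → Prop) (t : ℝ) : Prop :=
  (G t ∧ ∀ u, G u → t ≤ u) ∨ ((∀ u, ¬G u) ∧ t = 0)

theorem pick_ex {G : ℝ → Prop} (hG : {t | G t}.Finite) : ∃ t, Pick G t := by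
  rcases {t | G t}.eq_empty_or_nonempty with h | h
  · exact ⟨0, Or.inr ⟨fun u hu => h.subset hu, rfl⟩⟩
  · obtain ⟨a, ha, hm⟩ := exists_min_image _ id hG h
    exact ⟨a, Or.inl ⟨ha, hm⟩⟩

theorem pick_uniq {G : ℝ → Prop} {t u : ℝ} (ht : Pick G t) (hu : Pick G u) : t = u := by
  rcases ht with ⟨a, b⟩ | ⟨a, b⟩ <;> rcases hu with ⟨c, d⟩ | ⟨c, d⟩
  · exact le_antisymm (b u c) (d t a)
  · exact (c t a).elim
  · exact (a u c).elim
  · rw [b, d]

variable {X : Type} [NormedAddCommGroup X] [NormedSpace ℝ X] [FiniteDimensional ℝ X]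
  [Fact S_PROJ]

theorem cand_dp {φ : X × ℝ → Prop} (h : DP φ) :
    DP fun p : X × ℝ => Cand (fun a => φ (p.1, a)) p.2 := by
  unfold Cand
  fun_prop

theorem pick_dp {φ : X × ℝ → Prop} (h : DP φ) :
    DP fun p : X × ℝ => Pick (fun a => φ (p.1, a)) p.2 := by
  unfold Pick
  fun_prop

end Ch1A

open Ch1A in
theorem p_CH1 (hPROJ : S_PROJ) (hUF : S_UF) :
    S_CH1 := by
  intro X _ _ _ s hs
  have : Fact S_PROJ := ⟨hPROJ⟩
  obtain ⟨B, hB⟩ := hUF X s hs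
  have hF : ∀ x, (frontier {t | (x, t) ∈ s}).Finite := fun x => by
    obtain ⟨F, -, hF⟩ := hB x
    exact F.finite_toSet.subset hF
  have h1 : DP fun p : X × ℝ => p.2 ∈ frontier {t | (p.1, t) ∈ s} :=
    DP.frontier (φ := fun x t => (x, t) ∈ s) hs.dp
  have h2 := pick_dp (hs.dp.and (cand_dp h1))
  have hG : ∀ x, {t | (x, t) ∈ s ∧ Cand (· ∈ frontier {t | (x, t) ∈ s}) t}.Finite := fun x =>
    (cand_finite (hF x)).subset fun t ht => ht.2
  choose f hf using fun x => pick_ex (hG x)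
  refine ⟨f, DF.of_graph (h2.congr fun p => ⟨fun e => ?_, fun e => pick_uniq e (hf p.1)⟩),
    fun x t ht => ?_⟩
  · rw [e]
    exact hf p.1
  · obtain ⟨k, hk, hc⟩ := cand_meet (hF x) ht
    rcases hf x with h | h
    · exact h.1.1
    · exact (h.1 k ⟨hk, hc⟩).elim

end Pool.Agent.P.MP_a0f0ad_al.Fi
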