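import Pool.Agent.P.MP_a0f0ad_al.Fi.S.Choicea
import Pool.Agent.P.MP_a0f0ad_al.Fi.S.Ch1
import Pool.Agent.P.MP_a0f0ad_al.Fi.S.Iface

/-! Step CHOICE of the filiform project. -/

namespace Pool.Agent.P.MP_a0f0ad_al.Fi

open Set MeasureTheory Metric

theorem p_CHOICE (hPROJ : S_PROJ) (hUF : S_UF) :
    S_CHOICE := by
  exact p_CHOICEA hPROJ (p_CH1 hPROJ hUF)

end Pool.Agent.P.MP_a0f0ad_al.Fi
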