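import Pool.Agent.P.MP_a0f0ad_al.Fi.S.Iface2

/-! Step IFT of the filiform project. -/

namespace Pool.Agent.P.MP_a0f0ad_al.Fi

open Set MeasureTheory Metric Filter Topology SignType
open scoped Polynomial

theorem p_IFT :
    S_IFT := by
  intro X _ _ _ n Q x₀ t₀ q hQ h0 hd hq
  have : CompleteSpace X := FiniteDimensional.complete ℝ X
  have hc : ContDiffAt ℝ (n + 1 : ℕ) Q (x₀, t₀) := hQ.contDiff.contDiffAt
  have pn : ((n + 1 : ℕ) : WithTop ℕ∞) ≠ 0 := by exact_mod_cast n.succ_ne_zero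
  have h1 : HasFDerivAt (fun t => Q (x₀, t))
      (fderiv ℝ Q (x₀, t₀) ∘L ContinuousLinearMap.inr ℝ X ℝ) t₀ :=
    (hc.differentiableAt pn).hasFDerivAt.comp t₀ (hasFDerivAt_prodMk_right x₀ t₀)
  have h2 : (fderiv ℝ Q (x₀, t₀) ∘L ContinuousLinearMap.inr ℝ X ℝ).IsInvertible :=
    ⟨_, (hd.hasFDerivAt_equiv hq).unique h1⟩
  refine ⟨_, (hc.contDiffAt_implicitFunction pn h2).of_le (by exact_mod_cast n.le_succ), ?_⟩
  filter_upwards [hc.eventually_apply_eq_iff_implicitFunction pn h2] with p hp h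
  exact (hp.1 (h.trans h0.symm)).symm

end Pool.Agent.P.MP_a0f0ad_al.Fi
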