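import Pool.Agent.P.MP_a0f0ad_al.Fi.S.Diffa
import Pool.Agent.P.MP_a0f0ad_al.Fi.S.Der
import Pool.Agent.P.MP_a0f0ad_al.Fi.S.Ae
import Pool.Agent.P.MP_a0f0ad_al.Fi.S.Ift
import Pool.Agent.P.MP_a0f0ad_al.Fi.S.Iface

/-! Step DIFF of the filiform project. -/

namespace Pool.Agent.P.MP_a0f0ad_al.Fi

open Set MeasureTheory Metric

theorem p_DIFF (hPROJ : S_PROJ) (hUF : S_UF) (hNULL : S_NULL) :
    S_DIFF := by
  exact p_DIFFA hPROJ hNULL (p_DER hPROJ) (p_AE hPROJ hNULL p_IFT)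

end Pool.Agent.P.MP_a0f0ad_al.Fi
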