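import Pool.Agent.P.MP_a0f0ad_al.Fi.S.Iface2

/-! Step ENUM of the filiform project. -/

namespace Pool.Agent.P.MP_a0f0ad_al.Fi

open Set MeasureTheory Metric

namespace EnumA

variable {X Y : Type} [NormedAddCommGroup X] [NormedSpace ℝ X] [FiniteDimensional ℝ X]
  [NormedAddCommGroup Y] [NormedSpace ℝ Y] [FiniteDimensional ℝ Y]

theorem fr {T : Set ℝ} (h : T.Finite) : frontier T = T := by
  rw [h.isClosed.frontier_eq, Measure.interior_eq_empty_of_null (h.measure_zero volume), sdiff_empty]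

theorem bound (hPROJ : S_PROJ) (hUF : S_UF) {s : Set (X × Y)} (hs : SA s)
    (hf : ∀ x, {y | (x, y) ∈ s}.Finite) :
    ∃ N : ℕ, ∀ x, ∃ F : Finset Y, F.card ≤ N ∧ ∀ y, (x, y) ∈ s → y ∈ F := by
  classical
  have : Fact S_PROJ := ⟨hPROJ⟩
  have h1 : ∀ i, SA {p : X × ℝ | ∃ y, (p.1, y) ∈ s ∧ cox Y y i = p.2} := fun i => by
    have := hs.dp
    exact (show DP fun p : X × ℝ => ∃ y, (p.1, y) ∈ s ∧ cox Y y i = p.2 by fun_prop)
  choose B hB using fun i => hUF X _ (h1 i)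
  refine ⟨∏ i, B i, fun x => ?_⟩
  choose F h2 h3 using fun i => hB i x
  refine ⟨(Fintype.piFinset F).image (cox Y).symm, Finset.card_image_le.trans ?_, fun y hy => ?_⟩
  · rw [Fintype.card_piFinset]
    exact Finset.prod_le_prod' fun i _ => h2 i
  · refine Finset.mem_image.2 ⟨cox Y y, Fintype.mem_piFinset.2 fun i => h3 i ?_, by simp⟩
    rw [fr]
    · exact ⟨y, hy, rfl⟩
    · exact ((hf x).image fun y => cox Y y i).subset fun t ⟨y, a, b⟩ => ⟨y, a, b⟩

theorem ind (hCHOICE : S_CHOICE) (N : ℕ) : ∀ s : Set (X × Y), SA s →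
    (∀ x, ∃ F : Finset Y, F.card ≤ N ∧ ∀ y, (x, y) ∈ s → y ∈ F) →
    ∃ (r : ℕ) (A : Fin r → Set X) (f : Fin r → X → Y), (∀ i, SAF (A i) (f i)) ∧
      ∀ x y, (x, y) ∈ s ↔ ∃ i, x ∈ A i ∧ y = f i x := by
  classical
  induction N with
  | zero =>
    intro s _ h
    refine ⟨0, Fin.elim0, Fin.elim0, fun i => i.elim0, fun x y => ⟨fun a => ?_, fun ⟨i, _⟩ => i.elim0⟩⟩
    obtain ⟨F, h1, h2⟩ := h x
    have := Finset.card_pos.2 ⟨y, h2 y a⟩
    omega
  | succ N ih =>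
    intro s hs h
    obtain ⟨g, g1, g2⟩ := hCHOICE X Y s hs
    obtain ⟨r, A, f, k1, k2⟩ := ih (s \ {p : X × Y | p.1 ∈ Prod.fst '' s ∧ p.2 = g p.1})
      (hs.diff g1) fun x => by
        obtain ⟨F, h1, h2⟩ := h x
        by_cases hx : x ∈ Prod.fst '' s
        · refine ⟨F.erase (g x), ?_, fun y hy =>
            Finset.mem_erase.2 ⟨fun e => hy.2 ⟨hx, e⟩, h2 y hy.1⟩⟩
          rw [Finset.card_erase_of_mem (h2 _ (g2 x hx))]
          omega
        · exact ⟨∅, by simp, fun y hy => absurd ⟨(x, y), hy.1, rfl⟩ hx⟩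
    refine ⟨r + 1, Fin.cons (Prod.fst '' s) A, Fin.cons g f, fun i => ?_, fun x y => ?_⟩
    · refine Fin.cases ?_ (fun i => ?_) i
      · exact g1
      · exact k1 i
    · rw [Fin.exists_fin_succ]
      simp only [Fin.cons_zero, Fin.cons_succ]
      rw [← k2]
      constructor
      · intro a
        by_cases e : y = g x
        · exact Or.inl ⟨⟨(x, y), a, rfl⟩, e⟩
        · exact Or.inr ⟨a, fun b => e b.2⟩
      · rintro (⟨a, rfl⟩ | a)
        · exact g2 x a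
        · exact a.1

end EnumA

theorem p_ENUM (hPROJ : S_PROJ) (hUF : S_UF) (hCHOICE : S_CHOICE) :
    S_ENUM := by
  intro X Y _ _ _ _ _ _ s hs hf
  obtain ⟨N, hN⟩ := EnumA.bound hPROJ hUF hs hf
  exact EnumA.ind hCHOICE N s hs hN

end Pool.Agent.P.MP_a0f0ad_al.Fi
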