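import Pool.Agent.P.MP_a0f0ad_al.Fi.S.Iface2

/-! Step LINE of the filiform project. -/

namespace Pool.Agent.P.MP_a0f0ad_al.Fi

open Set MeasureTheory Metric Filter Topology SignType
open scoped Polynomial

namespace LineA

theorem fub {X : Type} [NormedAddCommGroup X] [NormedSpace ℝ X] [FiniteDimensional ℝ X]
    [MeasurableSpace X] [BorelSpace X] (μ : Measure X) [μ.IsAddHaarMeasure] {Z : Set X} (v : X)
    (hZ : MeasurableSet Z) :
    μ Z = ∫⁻ x, volume ({t : ℝ | x + t • v ∈ Z} ∩ Icc 0 1) ∂μ := by
  have hm : MeasurableSet {p : X × ℝ | p.1 + p.2 • v ∈ Z} :=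
    (by fun_prop : Continuous fun p : X × ℝ => p.1 + p.2 • v).measurable hZ
  have h1 := Measure.prod_apply (μ := μ) (ν := volume.restrict (Icc (0 : ℝ) 1)) hm
  have h2 := Measure.prod_apply_symm (μ := μ) (ν := volume.restrict (Icc (0 : ℝ) 1)) hm
  have h3 : ∀ t : ℝ, μ ((fun x => (x, t)) ⁻¹' {p : X × ℝ | p.1 + p.2 • v ∈ Z}) = μ Z := fun t =>
    measure_preimage_add_right μ (t • v) Z
  simp only [h3, lintegral_const, Measure.restrict_apply_univ, Real.volume_Icc, sub_zero,
    ENNReal.ofReal_one, mul_one] at h2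
  rw [← h2, h1]
  exact lintegral_congr fun x => Measure.restrict_apply' measurableSet_Icc

end LineA

theorem p_LINE :
    S_LINE := by
  intro X _ _ _ _ _ μ _ Z v hZ
  refine ⟨fun R a hR ha => ?_, fun h => ?_⟩
  · rw [LineA.fub μ v hZ, ← lintegral_indicator_const measurableSet_closedBall]
    refine lintegral_mono fun x => ?_
    by_cases hx : x ∈ closedBall (0 : X) (R + ‖v‖)
    · rw [indicator_of_mem hx]
      exact (measure_mono inter_subset_left).trans (ha x)
    · have : {t : ℝ | x + t • v ∈ Z} ∩ Icc 0 1 = ∅ := eq_empty_of_forall_notMem fun t ht => hx (by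
        have a1 := mem_closedBall_zero_iff.1 (hR ht.1)
        have a2 : ‖t • v‖ ≤ ‖v‖ := by
          rw [norm_smul, Real.norm_of_nonneg ht.2.1]
          exact mul_le_of_le_one_left (norm_nonneg _) ht.2.2
        have a3 := norm_sub_le (x + t • v) (t • v)
        rw [add_sub_cancel_right] at a3
        exact mem_closedBall_zero_iff.2 (by linarith))
      simp [this]
  · rw [LineA.fub μ v hZ, lintegral_congr fun x => measure_mono_null inter_subset_left (h x),
      lintegral_zero]

end Pool.Agent.P.MP_a0f0ad_al.Fi
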