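import Pool.Agent.P.MP_a0f0ad_al.Fi.S.Nulla
import Pool.Agent.P.MP_a0f0ad_al.Fi.S.Line
import Pool.Agent.P.MP_a0f0ad_al.Fi.S.Iface

/-! Step NULL of the filiform project. -/

namespace Pool.Agent.P.MP_a0f0ad_al.Fi

open Set MeasureTheory Metric

theorem p_NULL :
    S_NULL := by
  exact p_NULLA p_LINE

end Pool.Agent.P.MP_a0f0ad_al.Fi
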