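import Pool.Agent.P.MP_a0f0ad_al.Fi.S.Iface2
import Pool.Agent.P.MP_a0f0ad_al.Fi.S.Iface

/-! Step NBH of the filiform project. -/

namespace Pool.Agent.P.MP_a0f0ad_al.Fi

open Set MeasureTheory Metric Filter Topology SignType
open scoped Polynomial

theorem p_NBH (hPROJ : S_PROJ) (hNULL : S_NULL) (hDER : S_DER) (hTAIL : S_TAIL) (hTHIN : S_THIN) :
    S_NBH := by
  haveI : Fact S_PROJ := ⟨hPROJ⟩
  intro X _ _ _ _ _ μ _ W g v hWo hW hg hd L0
  obtain ⟨K, hK⟩ : ∃ K : ℝ, ∀ y : X, ‖y‖ ≤ L0 + 1 → ‖cox X y‖ < K := by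
    refine ⟨‖(cox X).toContinuousLinearMap‖ * (L0 + 1) + 1, fun y hy => ?_⟩
    have h1 : ‖cox X y‖ ≤ ‖(cox X).toContinuousLinearMap‖ * ‖y‖ :=
      (cox X).toContinuousLinearMap.le_opNorm y
    have h2 := mul_le_mul_of_nonneg_left hy (norm_nonneg (cox X).toContinuousLinearMap)
    linarith
  have hWd := hW.dp
  have hD : DF (fderiv ℝ g) := (hDER X ℝ g hg).2.2.1
  have hBo : IsOpen {y : X | ‖cox X y‖ < K} :=
    isOpen_lt (cox X).continuous.norm continuous_const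
  have hBb : Bornology.IsBounded {y : X | ‖cox X y‖ < K} := by
    refine ((cox X).symm.toContinuousLinearMap.lipschitz.isBounded_image
      (isBounded_ball (x := 0) (r := K))).subset fun y hy => ?_
    exact ⟨cox X y, mem_ball_zero_iff.2 hy, (cox X).symm_apply_apply y⟩
  have hBs : SA {y : X | ‖cox X y‖ < K} := (show DP fun y : X => ‖cox X y‖ < K by fun_prop)
  obtain ⟨C1, hC1⟩ := hTAIL X μ (W ∩ {y : X | ‖cox X y‖ < K}) g (hWo.inter hBo)
    (hBb.subset inter_subset_right) (hg.saf (hW.inter hBs) fun _ _ => rfl)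
    fun x hx => (hd x hx.1).differentiableWithinAt
  obtain ⟨φ, hφ⟩ : ∃ φ : ℝ × ℝ → X → Prop, ∀ p y, φ p y ↔
      (y ∈ W ∧ ‖cox X y‖ < K) ∧ |g y| ≤ p.1 ∧ p.2 ≤ |fderiv ℝ g y v| := ⟨_, fun _ _ => Iff.rfl⟩
  have hφd : DP fun q : (ℝ × ℝ) × X => φ q.1 q.2 := by
    refine DP.congr ?_ fun q => hφ q.1 q.2
    fun_prop
  obtain ⟨C2, hC2⟩ := hTHIN (ℝ × ℝ) X μ _ hφd.frontier.sa (fun p => by
    have h : SA {y | φ p y} := hφd.pm (f := fun y : X => (p, y)) (by fun_prop)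
    exact μ.interior_eq_empty_of_null (hNULL X μ _ h).2) (L0 + 1)
  have hv : 0 < ‖v‖ + 1 := by positivity
  refine ⟨|C1| * (‖v‖ + 1) + |C2|, by positivity, fun r t l hr hr1 ht hl => ?_⟩
  have h1 := hC1 0 t (l / (‖v‖ + 1)) ht (by positivity)
  have h2 := hC2 (t, l) r hr hr1
  have hsub : {x | ‖x‖ ≤ L0 ∧ ∃ y ∈ ball x r, y ∈ W ∧ |g y| ≤ t ∧ l ≤ |fderiv ℝ g y v|} ⊆
      {y | φ (t, l) y} ∪ cthickening r (frontier {y | φ (t, l) y} ∩ closedBall 0 (L0 + 1)) := by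
    rintro x ⟨hx, y, hy, hyW, hyt, hyl⟩
    have hn : ∀ z ∈ ball x r, ‖z‖ ≤ L0 + 1 := fun z hz => by
      have a := mem_ball_iff_norm.1 hz
      have b := norm_le_norm_add_norm_sub' z x
      linarith
    by_cases hdis : Disjoint (ball x r) (frontier {y | φ (t, l) y})
    · exact Or.inl (sub_of_frontier (convex_ball x r).isPreconnected hdis hy
        ((hφ _ _).2 ⟨⟨hyW, hK y (hn y hy)⟩, hyt, hyl⟩) (mem_ball_self hr))
    · obtain ⟨z, hz, hzf⟩ := not_disjoint_iff.1 hdis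
      exact Or.inr (mem_cthickening_of_dist_le x z r _ ⟨hzf, mem_closedBall_zero_iff.2 (hn z hz)⟩
        (mem_ball'.1 hz).le)
  have hE : {y | φ (t, l) y} ⊆ {x | x ∈ W ∩ {y : X | ‖cox X y‖ < K} ∧ |g x - 0| ≤ t ∧
      l / (‖v‖ + 1) ≤ ‖fderiv ℝ g x‖} := fun y hy => by
    obtain ⟨a, b, c⟩ := (hφ _ _).1 hy
    refine ⟨a, by simpa using b, (div_le_iff₀ hv).2 ?_⟩
    have d : |fderiv ℝ g y v| ≤ ‖fderiv ℝ g y‖ * ‖v‖ := (fderiv ℝ g y).le_opNorm v
    have e := norm_nonneg (fderiv ℝ g y)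
    have c' : l ≤ |fderiv ℝ g y v| := c
    nlinarith
  refine (measure_mono hsub).trans ((measure_union_le _ _).trans ?_)
  have tl : 0 < t / l := by positivity
  have k1 : C1 * t / (l / (‖v‖ + 1)) ≤ |C1| * (‖v‖ + 1) * (t / l) := by
    have e : C1 * t / (l / (‖v‖ + 1)) = C1 * ((‖v‖ + 1) * (t / l)) := by field_simp
    rw [e, mul_assoc]
    exact mul_le_mul_of_nonneg_right (le_abs_self _) (by positivity)
  have k2 : C2 * r ≤ |C2| * r := mul_le_mul_of_nonneg_right (le_abs_self _) hr.le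
  refine (add_le_add (((measure_mono hE).trans h1).trans (ENNReal.ofReal_le_ofReal k1))
    (h2.trans (ENNReal.ofReal_le_ofReal k2))).trans ?_
  rw [← ENNReal.ofReal_add (by positivity) (by positivity)]
  refine ENNReal.ofReal_le_ofReal ?_
  have p1 : 0 ≤ |C1| * (‖v‖ + 1) * r := by positivity
  have p2 : 0 ≤ |C2| * (t / l) := by positivity
  nlinarith

end Pool.Agent.P.MP_a0f0ad_al.Fi
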