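import Pool.Agent.P.MP_a0f0ad_al.Fi.S.Iface2

/-! Step TAY of the filiform project. -/

namespace Pool.Agent.P.MP_a0f0ad_al.Fi

open Set MeasureTheory Metric Filter Topology SignType
open scoped Polynomial

theorem p_TAY :
    S_TAY := by
  intro X _ _ _
  obtain ⟨κ, hκ, -, hK⟩ := exists_norm_le_basis X
  refine ⟨κ ^ 2, by positivity, fun g x r e hr he hg hc hb => ?_⟩
  set b := Module.finBasis ℝ X
  have hx : x ∈ ball x r := mem_ball_self hr
  have hd : ∀ i, ∀ y ∈ ball x r, DifferentiableAt ℝ (fun z => fderiv ℝ g z (b i)) y :=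
    fun i y hy => (((hg y hy).fderiv_right (m := 1) (by norm_num)).differentiableAt
      (by norm_num)).clm_apply (differentiableAt_const _)
  have h1 : ∀ i, ∀ y ∈ ball x r,
      ‖fderiv ℝ (fun z => fderiv ℝ g z (b i)) y‖ ≤ κ * (e / (κ ^ 2 * r)) :=
    fun i y hy => hK ℝ _ _ (by positivity) fun j => hb y hy i j
  have h2 : ∀ y ∈ ball x r, ‖fderiv ℝ g y - fderiv ℝ g x‖ ≤ e := by
    intro y hy
    have t : ‖fderiv ℝ g y - fderiv ℝ g x‖ ≤ κ * (κ * (e / (κ ^ 2 * r)) * r) := by
      refine hK ℝ _ _ (by positivity) fun i => ?_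
      have u := (convex_ball x r).norm_image_sub_le_of_norm_fderiv_le (hd i) (h1 i) hx hy
      have v : ‖y - x‖ ≤ r := (mem_ball_iff_norm.1 hy).le
      exact u.trans (mul_le_mul_of_nonneg_left v (by positivity))
    refine t.trans (le_of_eq ?_)
    field_simp
  have h3 : ∀ y ∈ ball x r, |g y - g x - fderiv ℝ g x (y - x)| ≤ e * ‖y - x‖ :=
    fun y hy => (convex_ball x r).norm_image_sub_le_of_norm_fderiv_le'
      (fun z hz => (hg z hz).differentiableAt (by norm_num)) h2 hx hy
  intro y hy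
  rw [← closure_ball x hr.ne'] at hy hc
  refine le_on_closure h3 ?_ (by fun_prop) hy
  exact ((hc.sub continuousOn_const).sub (by fun_prop)).abs

end Pool.Agent.P.MP_a0f0ad_al.Fi
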