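import Pool.Agent.P.MP_a0f0ad_al.Fi.S.Osca
import Pool.Agent.P.MP_a0f0ad_al.Fi.S.Der
import Pool.Agent.P.MP_a0f0ad_al.Fi.S.Ae
import Pool.Agent.P.MP_a0f0ad_al.Fi.S.Ift
import Pool.Agent.P.MP_a0f0ad_al.Fi.S.Tay
import Pool.Agent.P.MP_a0f0ad_al.Fi.S.Nbh
import Pool.Agent.P.MP_a0f0ad_al.Fi.S.Iface

/-! Step OSC of the filiform project. -/

namespace Pool.Agent.P.MP_a0f0ad_al.Fi

open Set MeasureTheory Metric

theorem p_OSC (hPROJ : S_PROJ) (hUF : S_UF) (hNULL : S_NULL) (hDIFF : S_DIFF) (hTAIL : S_TAIL) (hTHIN : S_THIN) :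
    S_OSC := by
  exact p_OSCA hPROJ hNULL (p_DER hPROJ) (p_AE hPROJ hNULL p_IFT) hTHIN p_TAY
    (p_NBH hPROJ hNULL (p_DER hPROJ) hTAIL hTHIN)

end Pool.Agent.P.MP_a0f0ad_al.Fi
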