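import Pool.Agent.P.MP_a0f0ad_al.Fi.S.Iface2
import Pool.Agent.P.MP_a0f0ad_al.Fi.S.Iface

/-! Step STEEP of the filiform project. -/

namespace Pool.Agent.P.MP_a0f0ad_al.Fi

open Set MeasureTheory Metric Filter Topology SignType
open scoped Polynomial

namespace SteepA

theorem line {h h' : ℝ → ℝ} {T : Set ℝ} {c t l : ℝ} (ht : 0 < t) (hl : 0 < l)
    (hT : ∀ τ ∈ T, HasDerivAt h (h' τ) τ ∧ |h τ - c| ≤ t ∧ l ≤ h' τ) {B : ℕ} {F : Finset ℝ}
    (hB : F.card ≤ B) (hF : frontier T ⊆ (F : Set ℝ)) :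
    volume T ≤ ENNReal.ofReal (4 * B * t / l) := by
  set d : ℝ := 2 * t / l with hd
  have d0 : 0 < d := by positivity
  have hsub : T ⊆ ⋃ z ∈ F, Icc (z - d) (z + d) := fun τ hτ => by
    by_contra hn
    have hJ : Icc (τ - d) (τ + d) ⊆ T := by
      refine sub_of_frontier isPreconnected_Icc (disjoint_left.2 fun z hz hz' => hn ?_)
        (a := τ) ⟨by linarith, by linarith⟩ hτ
      exact mem_biUnion (hF hz') ⟨by linarith [hz.2], by linarith [hz.1]⟩
    have hab : τ - d < τ + d := by linarith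
    obtain ⟨s, hs, e⟩ := exists_hasDerivAt_eq_slope h h' hab
      (fun y hy => (hT y (hJ hy)).1.continuousAt.continuousWithinAt)
      (fun y hy => (hT y (hJ (Ioo_subset_Icc_self hy))).1)
    have h1 := (hT s (hJ (Ioo_subset_Icc_self hs))).2.2
    have h2 := abs_le.1 (hT _ (hJ (left_mem_Icc.2 hab.le))).2.1
    have h3 := abs_le.1 (hT _ (hJ (right_mem_Icc.2 hab.le))).2.1
    rw [e, le_div_iff₀ (by linarith)] at h1
    have h4 : l * (τ + d - (τ - d)) = 4 * t := by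
      rw [hd]
      field_simp
      ring
    linarith [h2.1, h3.2]
  refine (measure_mono hsub).trans ((measure_biUnion_finset_le _ _).trans ?_)
  simp only [Real.volume_Icc]
  have e : ∀ z : ℝ, z + d - (z - d) = 2 * d := fun z => by ring
  simp only [e, Finset.sum_const, nsmul_eq_mul]
  rw [← ENNReal.ofReal_natCast, ← ENNReal.ofReal_mul (Nat.cast_nonneg _)]
  refine ENNReal.ofReal_le_ofReal ?_
  have hB' : (F.card : ℝ) ≤ B := by exact_mod_cast hB
  have e2 : 4 * (B : ℝ) * t / l = B * (2 * d) := by rw [hd]; ring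
  rw [e2]
  exact mul_le_mul_of_nonneg_right hB' (by positivity)

end SteepA

theorem p_STEEP (hPROJ : S_PROJ) (hUF : S_UF) (hNULL : S_NULL) (hLINE : S_LINE) (hDER : S_DER) :
    S_STEEP := by
  intro X _ _ _ _ _ μ _ U g v hU hb hg hd
  haveI : Fact S_PROJ := ⟨hPROJ⟩
  have hU' := hU.dp
  have hg' : DF (fderiv ℝ g) := (hDER X ℝ g hg).2.2.1
  have hE : DP fun p : (ℝ × ℝ × ℝ) × X =>
      p.2 ∈ U ∧ |g p.2 - p.1.1| ≤ p.1.2.1 ∧ p.1.2.2 ≤ fderiv ℝ g p.2 v := by fun_prop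
  have hL := hE.pm (f := fun q : ((ℝ × ℝ × ℝ) × X) × ℝ => (q.1.1, q.1.2 + q.2 • v)) (by fun_prop)
  obtain ⟨B, hB⟩ := hUF _ _ hL.sa
  obtain ⟨R, hR⟩ := hb.subset_closedBall (0 : X)
  have hfin : μ (closedBall 0 (R + ‖v‖)) ≠ ⊤ := measure_closedBall_lt_top.ne
  refine ⟨4 * B * (μ (closedBall 0 (R + ‖v‖))).toReal, by positivity, fun c t l ht hl => ?_⟩
  have hZ := hE.pm (f := fun x : X => (((c, t, l) : ℝ × ℝ × ℝ), x)) (by fun_prop)
  refine ((hLINE X μ _ v (hNULL X μ _ hZ.sa).1).1 R (ENNReal.ofReal (4 * B * t / l))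
    (fun x hx => hR hx.1) fun x => ?_).trans_eq ?_
  · obtain ⟨F, h1, h2⟩ := hB ((c, t, l), x)
    refine SteepA.line (h := fun τ => g (x + τ • v)) (h' := fun τ => fderiv ℝ g (x + τ • v) v)
      (c := c) ht hl (fun τ hτ => ⟨?_, hτ.2.1, hτ.2.2⟩) h1 h2
    have k : HasDerivAt (fun τ : ℝ => x + τ • v) v τ := by
      simpa using ((hasDerivAt_id τ).smul_const v).const_add x
    exact (hd _ hτ.1).hasFDerivAt.comp_hasDerivAt τ k
  · rw [← ENNReal.ofReal_toReal hfin, ← ENNReal.ofReal_mul (by positivity),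
      ENNReal.toReal_ofReal ENNReal.toReal_nonneg]
    ring_nf

end Pool.Agent.P.MP_a0f0ad_al.Fi
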