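import Pool.Agent.P.MP_a0f0ad_al.Fi.S.Iface2
import Pool.Agent.P.MP_a0f0ad_al.Fi.S.Iface

/-! Step FAT of the filiform project. -/

namespace Pool.Agent.P.MP_a0f0ad_al.Fi

open Set MeasureTheory Metric Filter Topology SignType
open scoped Polynomial

namespace FatA

theorem line {T : Set ℝ} {F : Finset ℝ} {B : ℕ} {ρ : ℝ} (hρ : 0 ≤ ρ) (hB : F.card ≤ B)
    (hF : frontier T ⊆ (F : Set ℝ)) :
    volume {t | (∃ τ, |τ| ≤ ρ ∧ t + τ ∈ T) ∧ t ∉ T} ≤ ENNReal.ofReal (2 * B * ρ) := by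
  have h : {t | (∃ τ, |τ| ≤ ρ ∧ t + τ ∈ T) ∧ t ∉ T} ⊆ ⋃ z ∈ F, Icc (z - ρ) (z + ρ) := by
    rintro t ⟨⟨τ, h1, h2⟩, h3⟩
    obtain ⟨z, z1, z2⟩ := not_disjoint_iff.1 fun h => h3
      (sub_of_frontier (isPreconnected_uIcc (a := t) (b := t + τ)) h right_mem_uIcc h2
        left_mem_uIcc)
    refine mem_biUnion (hF z2) ?_
    rw [abs_le] at h1
    rcases mem_uIcc.1 z1 with a | a <;> constructor <;> linarith
  refine (measure_mono h).trans ((measure_biUnion_finset_le _ _).trans ?_)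
  simp only [Real.volume_Icc, add_sub_sub_cancel, Finset.sum_const, nsmul_eq_mul]
  rw [← ENNReal.ofReal_natCast, ← ENNReal.ofReal_mul (by positivity)]
  have : (F.card : ℝ) ≤ B := by exact_mod_cast hB
  exact ENNReal.ofReal_le_ofReal (by nlinarith)

end FatA

theorem p_FAT (hPROJ : S_PROJ) (hUF : S_UF) (hNULL : S_NULL) (hLINE : S_LINE) :
    S_FAT := by
  intro P X _ _ _ _ _ _ _ _ μ _ s v R hs
  have : Fact S_PROJ := ⟨hPROJ⟩
  obtain ⟨B, hB⟩ := hUF (P × X) _ (hs.preimage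
    (f := fun z : (P × X) × ℝ => (z.1.1, z.1.2 + z.2 • v)) (by fun_prop))
  refine ⟨2 * B * (μ (closedBall 0 (R + R * ‖v‖ + ‖v‖))).toReal, by positivity,
    fun p ρ h0 h1 h2 => ?_⟩
  have hd := hs.dp
  have hZ : DP fun x : X => (∃ τ : ℝ, |τ| ≤ ρ ∧ (p, x + τ • v) ∈ s) ∧ (p, x) ∉ s := by fun_prop
  have h3 := (hLINE X μ _ v (hNULL X μ _ hZ.sa).1).1 (R + R * ‖v‖) (ENNReal.ofReal (2 * B * ρ))
    (by
      rintro x ⟨⟨τ, a, b⟩, -⟩
      have c := mem_closedBall_zero_iff.1 (h2 b)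
      have d := norm_sub_le (x + τ • v) (τ • v)
      rw [add_sub_cancel_right, norm_smul, Real.norm_eq_abs] at d
      have := mul_le_mul_of_nonneg_right (a.trans h1) (norm_nonneg v)
      exact mem_closedBall_zero_iff.2 (by linarith))
    fun x => by
      obtain ⟨F, f1, f2⟩ := hB (p, x)
      simpa only [mem_ofPred_eq, mem_preimage, add_smul, add_assoc] using FatA.line h0 f1 f2
  refine (measure_mono fun x hx => ?_).trans ((measure_union_le _ _).trans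
    (add_le_add_right (h3.trans_eq ?_) _))
  · exact (em _).imp_right fun h => ⟨hx, h⟩
  · rw [mul_right_comm (2 * B : ℝ) _ ρ, ENNReal.ofReal_mul (p := 2 * B * ρ) (by positivity),
      ENNReal.ofReal_toReal measure_closedBall_lt_top.ne]

end Pool.Agent.P.MP_a0f0ad_al.Fi
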