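import Pool.Agent.P.MP_a0f0ad_al.Fi.S.Thina
import Pool.Agent.P.MP_a0f0ad_al.Fi.S.Fat
import Pool.Agent.P.MP_a0f0ad_al.Fi.S.Line
import Pool.Agent.P.MP_a0f0ad_al.Fi.S.Iface

/-! Step THIN of the filiform project. -/

namespace Pool.Agent.P.MP_a0f0ad_al.Fi

open Set MeasureTheory Metric

theorem p_THIN (hPROJ : S_PROJ) (hUF : S_UF) (hNULL : S_NULL) :
    S_THIN := by
  exact p_THINA hPROJ hNULL (p_FAT hPROJ hUF hNULL p_LINE)

end Pool.Agent.P.MP_a0f0ad_al.Fi
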