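import Pool.Agent.P.MP_a0f0ad_al.Fi.S.Iface2
import Pool.Agent.P.MP_a0f0ad_al.Fi.S.Iface

/-! Step UF of the filiform project. -/

namespace Pool.Agent.P.MP_a0f0ad_al.Fi

open Set MeasureTheory Metric Filter Topology

namespace UfA

theorem loc (q : Polynomial ℝ) (t : ℝ) (h : t ∉ q.roots.toFinset) :
    ∀ᶠ u in 𝓝 t, (0 < q.eval t ↔ 0 < q.eval u) := by
  by_cases h0 : q = 0
  · simp [h0]
  have h1 : q.eval t ≠ 0 := fun a => h (by simpa [h0] using a)
  rcases lt_or_gt_of_ne h1 with a | a
  · filter_upwards [q.continuous.continuousAt.eventually (gt_mem_nhds a)] with u hu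
    exact ⟨fun b => absurd b a.not_gt, fun b => absurd b hu.not_gt⟩
  · filter_upwards [q.continuous.continuousAt.eventually (lt_mem_nhds a)] with u hu
    exact ⟨fun _ => hu, fun _ => a⟩

end UfA

theorem p_UF :
    S_UF := by
  intro X _ _ _ s hs
  classical
  obtain ⟨F, hF, hP, hsig⟩ := hs.sign
  haveI : Fintype F := hF.fintype
  choose p hp using fun f : F => (hP f f.2).poly
  refine ⟨∑ f : F, (p f).natDegree, fun x =>
    ⟨Finset.univ.biUnion fun f : F => ((p f).map (evx x)).roots.toFinset, ?_, ?_⟩⟩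
  · refine Finset.card_biUnion_le.trans (Finset.sum_le_sum fun f _ => ?_)
    exact (Multiset.toFinset_card_le _).trans
      ((Polynomial.card_roots' _).trans Polynomial.natDegree_map_le)
  · intro t ht
    by_contra hn
    have h1 : ∀ f : F, t ∉ ((p f).map (evx x)).roots.toFinset := fun f a =>
      hn (Finset.mem_coe.2 (Finset.mem_biUnion.2 ⟨f, Finset.mem_univ _, a⟩))
    have h2 : ∀ᶠ u in 𝓝 t, ((x, t) ∈ s ↔ (x, u) ∈ s) := by
      filter_upwards [eventually_all.2 fun f : F => UfA.loc _ t (h1 f)] with u hu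
      refine hsig _ _ fun f hf => ?_
      have := hu ⟨f, hf⟩
      rwa [← hp, ← hp] at this
    by_cases a : (x, t) ∈ s
    · refine ht.2 (mem_interior_iff_mem_nhds.2 ?_)
      filter_upwards [h2] with u hu
      exact hu.1 a
    · have h3 : t ∈ interior {t | (x, t) ∈ s}ᶜ := by
        refine mem_interior_iff_mem_nhds.2 ?_
        filter_upwards [h2] with u hu
        exact fun b => a (hu.2 b)
      rw [interior_compl] at h3
      exact h3 ht.1

end Pool.Agent.P.MP_a0f0ad_al.Fi
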