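import Pool.Agent.P.MP_a0f0ad_al.Fi.S.Proj
import Pool.Agent.P.MP_a0f0ad_al.Fi.S.Uf
import Pool.Agent.P.MP_a0f0ad_al.Fi.S.Null
import Pool.Agent.P.MP_a0f0ad_al.Fi.S.Choice
import Pool.Agent.P.MP_a0f0ad_al.Fi.S.Enum
import Pool.Agent.P.MP_a0f0ad_al.Fi.S.Diff
import Pool.Agent.P.MP_a0f0ad_al.Fi.S.Tail
import Pool.Agent.P.MP_a0f0ad_al.Fi.S.Thin
import Pool.Agent.P.MP_a0f0ad_al.Fi.S.Osc
import Pool.Agent.P.MP_a0f0ad_al.Fi.S.Intg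

/-! The semialgebraic library, without hypotheses. -/

namespace Pool.Agent.P.MP_a0f0ad_al.Fi

theorem sa_PROJ : S_PROJ := p_PROJ
instance factProj : Fact S_PROJ := ⟨p_PROJ⟩
theorem sa_UF : S_UF := p_UF
theorem sa_NULL : S_NULL := p_NULL
theorem sa_CHOICE : S_CHOICE := p_CHOICE sa_PROJ sa_UF
theorem sa_ENUM : S_ENUM := p_ENUM sa_PROJ sa_UF sa_CHOICE
theorem sa_DIFF : S_DIFF := p_DIFF sa_PROJ sa_UF sa_NULL
theorem sa_TAIL : S_TAIL := p_TAIL sa_PROJ sa_UF sa_NULL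
theorem sa_THIN : S_THIN := p_THIN sa_PROJ sa_UF sa_NULL
theorem sa_OSC : S_OSC := p_OSC sa_PROJ sa_UF sa_NULL sa_DIFF sa_TAIL sa_THIN
theorem sa_INTG : S_INTG := p_INTG sa_PROJ sa_UF

end Pool.Agent.P.MP_a0f0ad_al.Fi
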