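import Pool.Agent.P.MP_a0f0ad_al.Fi.S.Basic

/-! More tools: polynomials in the last variable, induction on the dimension, frontiers. -/

namespace Pool.Agent.P.MP_a0f0ad_al.Fi

open Set Polynomial

variable {X : Type} [NormedAddCommGroup X] [NormedSpace ℝ X]

/-- the ring of polynomial functions -/
abbrev PA (X : Type) [NormedAddCommGroup X] [NormedSpace ℝ X] : Type :=
  Algebra.adjoin ℝ (Set.range fun l : X →L[ℝ] ℝ => (l : X → ℝ))

theorem PA.isP (a : PA X) : IsP (a : X → ℝ) := a.2

/-- evaluation at a point -/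
noncomputable def evx (x : X) : PA X →+* ℝ :=
  (Pi.evalRingHom (fun _ : X => ℝ) x).comp (Subalgebra.val _).toRingHom

@[simp] theorem evx_apply (x : X) (a : PA X) : evx x a = (a : X → ℝ) x := rfl

/-- a polynomial function on `X × ℝ` is a polynomial in the last variable -/
theorem IsP.poly {f : X × ℝ → ℝ} (hf : IsP f) :
    ∃ p : (PA X)[X], ∀ x t, f (x, t) = (p.map (evx x)).eval t := by
  refine hf.induction (fun c => ⟨C ⟨_, IsP.const c⟩, fun x t => by simp⟩) (fun l => ?_) ?_ ?_
  · refine ⟨C ⟨_, IsP.clm (l.comp (ContinuousLinearMap.inl ℝ X ℝ))⟩ +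
      C ⟨_, IsP.const (l (0, 1))⟩ * Polynomial.X, fun x t => ?_⟩
    have e : l (x, t) = l (x, 0) + l (0, 1) * t := by
      rw [mul_comm, ← smul_eq_mul, ← map_smul, ← map_add]
      simp
    simpa using e
  · rintro f g - - ⟨p, hp⟩ ⟨q, hq⟩
    exact ⟨p + q, fun x t => by simp [hp, hq]⟩
  · rintro f g - - ⟨p, hp⟩ ⟨q, hq⟩
    exact ⟨p * q, fun x t => by simp [hp, hq]⟩

/-- and conversely -/
theorem isP_poly (p : (PA X)[X]) : IsP fun z : X × ℝ => (p.map (evx z.1)).eval z.2 := by
  induction p using Polynomial.induction_on' with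
  | add p q hp hq => simpa using hp.add hq
  | monomial n a =>
    simpa using (a.isP.comp IsPM.id.fst).mul (IsPM.id.snd.isP.pow n)

/-- a polynomial function is a polynomial on every line -/
theorem IsP.line {f : X → ℝ} (hf : IsP f) (x v : X) : ∃ p : ℝ[X], ∀ t, f (x + t • v) = p.eval t := by
  obtain ⟨p, hp⟩ := (hf.comp (f := fun z : X × ℝ => z.1 + z.2 • v) (by fun_prop)).poly
  exact ⟨_, hp x⟩

/-- the derivative in the last variable -/
theorem IsP.exists_deriv {f : X × ℝ → ℝ} (hf : IsP f) :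
    ∃ g : X × ℝ → ℝ, IsP g ∧ ∀ x t, HasDerivAt (fun t => f (x, t)) (g (x, t)) t := by
  obtain ⟨p, hp⟩ := hf.poly
  refine ⟨_, isP_poly (derivative p), fun x t => ?_⟩
  simp only [hp, ← derivative_map]
  exact Polynomial.hasDerivAt _ t

/-- a primitive in the last variable -/
theorem IsP.exists_prim {f : X × ℝ → ℝ} (hf : IsP f) :
    ∃ G : X × ℝ → ℝ, IsP G ∧ ∀ x t, HasDerivAt (fun t => G (x, t)) (f (x, t)) t := by
  obtain ⟨p, hp⟩ := hf.poly
  simp only [hp]
  clear hp
  induction p using Polynomial.induction_on' with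
  | add p q hp hq =>
    obtain ⟨G, h1, h2⟩ := hp
    obtain ⟨H, k1, k2⟩ := hq
    exact ⟨_, h1.add k1, fun x t => by simpa using (h2 x t).fun_add (k2 x t)⟩
  | monomial n a =>
    refine ⟨fun z => (a : X → ℝ) z.1 * (z.2 ^ (n + 1) / (n + 1)),
      (a.isP.comp IsPM.id.fst).mul (IsPM.isP (by fun_prop)), fun x t => ?_⟩
    have h := ((hasDerivAt_pow (n + 1) t).div_const ((n : ℝ) + 1)).const_mul ((a : X → ℝ) x)
    have e : ((n + 1 : ℕ) : ℝ) * t ^ (n + 1 - 1) / (n + 1) = t ^ n := by
      push_cast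
      field_simp
    rw [e] at h
    simpa using h

/-- induction on the dimension -/
theorem dim_induction
    {P : ∀ (Y : Type) [NormedAddCommGroup Y] [NormedSpace ℝ Y] [FiniteDimensional ℝ Y], Prop}
    (h0 : ∀ (Y : Type) [NormedAddCommGroup Y] [NormedSpace ℝ Y] [FiniteDimensional ℝ Y]
      [Subsingleton Y], P Y)
    (hs : ∀ (Y Z : Type) [NormedAddCommGroup Y] [NormedSpace ℝ Y] [FiniteDimensional ℝ Y]
      [NormedAddCommGroup Z] [NormedSpace ℝ Z] [FiniteDimensional ℝ Z], (Y ≃L[ℝ] Z × ℝ) → P Z → P Y)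
    (Y : Type) [NormedAddCommGroup Y] [NormedSpace ℝ Y] [FiniteDimensional ℝ Y] : P Y := by
  induction hn : Module.finrank ℝ Y generalizing Y with
  | zero =>
    haveI := Module.finrank_zero_iff.1 hn
    exact h0 Y
  | succ n ih =>
    exact hs Y (Fin n → ℝ) (ContinuousLinearEquiv.ofFinrankEq (by simp [hn])) (ih _ (by simp))

/-- a connected set that meets `T` and misses its frontier lies in `T` -/
theorem sub_of_frontier {α : Type} [TopologicalSpace α] {J T : Set α} (hJ : IsPreconnected J)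
    (h : Disjoint J (frontier T)) {a : α} (ha : a ∈ J) (haT : a ∈ T) : J ⊆ T := by
  have e : J ⊆ interior T ∪ (closure T)ᶜ := fun x hx => by
    by_contra hn
    simp only [mem_union, mem_compl_iff, not_or, not_not] at hn
    exact disjoint_left.1 h hx ⟨hn.2, hn.1⟩
  refine (hJ.subset_left_of_subset_union isOpen_interior isClosed_closure.isOpen_compl
    (disjoint_compl_right_iff_subset.2 interior_subset_closure) e ⟨a, ha, ?_⟩).trans interior_subset
  exact (e ha).resolve_right (not_not.2 (subset_closure haT))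

/-- the operator norm is controlled by the values on a basis -/
theorem exists_norm_le_basis (X : Type) [NormedAddCommGroup X] [NormedSpace ℝ X]
    [FiniteDimensional ℝ X] : ∃ κ : ℝ, 0 < κ ∧ (∀ i, ‖Module.finBasis ℝ X i‖ ≤ κ) ∧
      ∀ (Y : Type) [NormedAddCommGroup Y] [NormedSpace ℝ Y] (A : X →L[ℝ] Y) (c : ℝ), 0 ≤ c →
        (∀ i, ‖A (Module.finBasis ℝ X i)‖ ≤ c) → ‖A‖ ≤ κ * c := by
  set b := Module.finBasis ℝ X
  set K : ℝ := Module.finrank ℝ X * ‖(cox X).toContinuousLinearMap‖ with hK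
  have K0 : 0 ≤ K := by positivity
  have S0 : 0 ≤ ∑ i, ‖b i‖ := by positivity
  refine ⟨K + ∑ i, ‖b i‖ + 1, by positivity, fun i => ?_, fun Y _ _ A c hc h => ?_⟩
  · linarith [Finset.single_le_sum (f := fun i => ‖b i‖) (fun _ _ => norm_nonneg _)
      (Finset.mem_univ i)]
  · refine (A.opNorm_le_bound (by positivity) fun x => ?_ : ‖A‖ ≤ K * c).trans (by nlinarith)
    conv_lhs => rw [← b.sum_repr x, map_sum]
    refine (norm_sum_le _ _).trans ((Finset.sum_le_card_nsmul _ _
      (‖(cox X).toContinuousLinearMap‖ * ‖x‖ * c) fun i _ => ?_).trans_eq ?_)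
    · rw [map_smul, norm_smul]
      exact mul_le_mul ((norm_le_pi_norm (cox X x) i).trans ((cox X).toContinuousLinearMap.le_opNorm x)) (h i)
        (norm_nonneg _) (by positivity)
    · simp [hK]; ring

end Pool.Agent.P.MP_a0f0ad_al.Fi
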