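import Pool.Agent.P.MP_a0f0ad_al.Fi.S.Iface2
import Pool.Agent.P.MP_a0f0ad_al.Fi.S.Iface

/-! Step CHOICEA of the filiform project. -/

namespace Pool.Agent.P.MP_a0f0ad_al.Fi

open Set MeasureTheory Metric Filter Topology SignType
open scoped Polynomial

namespace ChoiceaA

/-- the total form of definable choice with values in `Y` -/
def Ch (Y : Type) [NormedAddCommGroup Y] [NormedSpace ℝ Y] : Prop :=
  ∀ (X : Type) [NormedAddCommGroup X] [NormedSpace ℝ X] [FiniteDimensional ℝ X]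
    (s : Set (X × Y)), SA s → ∃ f : X → Y, DF f ∧ ∀ x y, (x, y) ∈ s → (x, f x) ∈ s

theorem ch (hPROJ : S_PROJ) (hCH1 : S_CH1) (Y : Type) [NormedAddCommGroup Y] [NormedSpace ℝ Y]
    [FiniteDimensional ℝ Y] : Ch Y := by
  haveI : Fact S_PROJ := ⟨hPROJ⟩
  refine dim_induction (P := fun Y _ _ _ => Ch Y) ?_ ?_ Y
  · intro Y _ _ _ _ X _ _ _ s _
    exact ⟨fun _ => 0, DF.const 0, fun x y h => by rwa [Subsingleton.elim (0 : Y) y]⟩
  · intro Y Z _ _ _ _ _ _ e ih X _ _ _ s hs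
    have he : DF (e.symm : Z × ℝ → Y) := DF.cle e.symm
    have h1 : DP fun p : X × Z => ∃ t : ℝ, (p.1, e.symm (p.2, t)) ∈ s :=
      DP.ex (φ := fun (p : X × Z) (t : ℝ) => (p.1, e.symm (p.2, t)) ∈ s)
        (DP.mem hs (DF.id.fst.fst.prodMk (he.comp (DF.id.fst.snd.prodMk DF.id.snd))))
    obtain ⟨f1, hf1, k1⟩ := ih X _ h1.sa
    have h2 : DP fun p : X × ℝ => (p.1, e.symm (f1 p.1, p.2)) ∈ s :=
      DP.mem hs (DF.id.fst.prodMk (he.comp ((hf1.comp DF.id.fst).prodMk DF.id.snd)))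
    obtain ⟨f2, hf2, k2⟩ := hCH1 X _ h2.sa
    refine ⟨fun x => e.symm (f1 x, f2 x), he.comp (hf1.prodMk hf2), fun x y h => ?_⟩
    obtain ⟨t, ht⟩ := k1 x (e y).1 ⟨(e y).2, by simpa using h⟩
    exact k2 x t ht

end ChoiceaA

theorem p_CHOICEA (hPROJ : S_PROJ) (hCH1 : S_CH1) :
    S_CHOICEA := by
  haveI : Fact S_PROJ := ⟨hPROJ⟩
  intro X Y _ _ _ _ _ _ s hs
  obtain ⟨f, hf, k⟩ := ChoiceaA.ch hPROJ hCH1 Y X s hs
  refine ⟨f, hf.saf (hPROJ X Y s hs) fun _ _ => rfl, ?_⟩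
  rintro x ⟨⟨x', y⟩, h, rfl⟩
  exact k x' y h

end Pool.Agent.P.MP_a0f0ad_al.Fi
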