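import Pool.Agent.P.MP_a0f0ad_al.Fi.S.Iface2

/-! Step CLOS of the filiform project. -/

namespace Pool.Agent.P.MP_a0f0ad_al.Fi

open Set MeasureTheory Metric Filter Topology SignType
open scoped Polynomial

namespace ClosA

open Polynomial

variable {A : Type} [CommRing A]

theorem pdiv (q : A[X]) (hq : 0 < q.natDegree) (m : ℕ) : ∀ p : A[X], p.natDegree ≤ m →
    ∃ r : A[X], r.natDegree < q.natDegree ∧
      ∃ (k : ℕ) (s : A[X]), C q.leadingCoeff ^ k * p = s * q + r := by
  induction m with
  | zero =>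
    intro p hp
    exact ⟨p, by omega, 0, 0, by simp⟩
  | succ m ih =>
    intro p hp
    by_cases h : p.natDegree < q.natDegree
    · exact ⟨p, h, 0, 0, by simp⟩
    by_cases h' : p.natDegree ≤ m
    · exact ih p h'
    have e : p.natDegree = m + 1 := by omega
    obtain ⟨d, hd⟩ : ∃ d, m + 1 = q.natDegree + d := ⟨m + 1 - q.natDegree, by omega⟩
    have hle : (C q.leadingCoeff * p - C p.leadingCoeff * (q * X ^ d)).natDegree ≤ m := by
      rw [natDegree_le_iff_coeff_eq_zero]
      intro N hN
      rw [coeff_sub, coeff_C_mul, coeff_C_mul, coeff_mul_X_pow']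
      rw [if_pos (by omega)]
      by_cases hN' : N = m + 1
      · have h1 : p.coeff N = p.leadingCoeff := by rw [hN', ← e]; rfl
        have h2 : q.coeff (N - d) = q.leadingCoeff := by
          rw [show N - d = q.natDegree by omega]; rfl
        rw [h1, h2]; ring
      · rw [coeff_eq_zero_of_natDegree_lt (show p.natDegree < N by omega),
          coeff_eq_zero_of_natDegree_lt (show q.natDegree < N - d by omega)]
        ring
    obtain ⟨r, hr, k, s, hs⟩ := ih _ hle
    refine ⟨r, hr, k + 1, s + C q.leadingCoeff ^ k * C p.leadingCoeff * X ^ d, ?_⟩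
    linear_combination hs

/-- the property of a pseudo-remainder -/
def Rm (p q r : A[X]) : Prop :=
  r.natDegree < q.natDegree ∧ ∃ (k : ℕ) (s : A[X]), C q.leadingCoeff ^ k * p = s * q + r

/-- closed under the operations for the divisors of degree at least `n` -/
def P (rm : A[X] → A[X] → A[X]) (n : ℕ) (F : Set A[X]) : Prop :=
  ∀ q ∈ F, n ≤ q.natDegree → 0 < q.natDegree →
    derivative q ∈ F ∧ q.eraseLead ∈ F ∧ C q.leadingCoeff ∈ F ∧
      ∀ p ∈ F, q.natDegree ≤ p.natDegree → rm p q ∈ F

theorem down (rm : A[X] → A[X] → A[X])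
    (hrm : ∀ p q, 0 < q.natDegree → (rm p q).natDegree < q.natDegree) (n : ℕ) :
    ∀ F : Set A[X], F.Finite → P rm n F → ∃ G : Set A[X], G.Finite ∧ F ⊆ G ∧ P rm 0 G := by
  induction n with
  | zero => exact fun F hF h => ⟨F, hF, subset_rfl, h⟩
  | succ n ih =>
    intro F hF h
    rcases Nat.eq_zero_or_pos n with rfl | hn
    · exact ⟨F, hF, subset_rfl, fun q hq _ h0 => h q hq h0 h0⟩
    let T : Set A[X] := {q | q ∈ F ∧ q.natDegree = n}
    have hT : T.Finite := hF.subset fun q hq => hq.1
    let N : Set A[X] := ((fun q => derivative q) '' T ∪ eraseLead '' T) ∪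
      ((fun q => C q.leadingCoeff) '' T ∪ image2 rm F T)
    have hN : N.Finite :=
      ((hT.image _).union (hT.image _)).union ((hT.image _).union (hF.image2 _ hT))
    have hdeg : ∀ x ∈ N, x.natDegree < n := by
      rintro x ((⟨q, hq, rfl⟩ | ⟨q, hq, rfl⟩) | (⟨q, hq, rfl⟩ | ⟨p, -, q, hq, rfl⟩))
      · have := natDegree_derivative_le q
        have := hq.2
        show (derivative q).natDegree < n
        omega
      · have := eraseLead_natDegree_le q
        have := hq.2
        omega
      · show (C q.leadingCoeff).natDegree < n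
        rw [natDegree_C]
        exact hn
      · have := hrm p q (hq.2 ▸ hn)
        have := hq.2
        omega
    have hmem : ∀ x ∈ F ∪ N, n ≤ x.natDegree → x ∈ F := fun x hx hxn =>
      hx.resolve_right fun hx => absurd (hdeg x hx) (not_lt.2 hxn)
    obtain ⟨G, hG, hFG, hP⟩ := ih (F ∪ N) (hF.union hN) (by
      intro q hq hnq h0
      have hqF := hmem q hq hnq
      by_cases e : q.natDegree = n
      · have hqT : q ∈ T := ⟨hqF, e⟩
        refine ⟨Or.inr (Or.inl (Or.inl ⟨q, hqT, rfl⟩)), Or.inr (Or.inl (Or.inr ⟨q, hqT, rfl⟩)),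
          Or.inr (Or.inr (Or.inl ⟨q, hqT, rfl⟩)), fun p hp hqp => ?_⟩
        exact Or.inr (Or.inr (Or.inr ⟨p, hmem p hp (by omega), q, hqT, rfl⟩))
      · obtain ⟨h1, h2, h3, h4⟩ := h q hqF (by omega) h0
        exact ⟨Or.inl h1, Or.inl h2, Or.inl h3,
          fun p hp hqp => Or.inl (h4 p (hmem p hp (by omega)) hqp)⟩)
    exact ⟨G, hG, subset_union_left.trans hFG, hP⟩

end ClosA

open ClosA Polynomial in
theorem p_CLOS :
    S_CLOS := by
  intro A _ S hS
  have h1 : ∀ p q : A[X], ∃ r, 0 < q.natDegree → Rm p q r := by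
    intro p q
    by_cases hq : 0 < q.natDegree
    · obtain ⟨r, hr⟩ := pdiv q hq _ p le_rfl
      exact ⟨r, fun _ => hr⟩
    · exact ⟨0, fun h => absurd h hq⟩
  choose rm hrm using h1
  have hS' : (insert 0 S).Finite := hS.insert 0
  obtain ⟨n, hn⟩ := (hS'.image natDegree).bddAbove
  obtain ⟨G, hG, hSG, hP⟩ := down rm (fun p q hq => (hrm p q hq).1) (n + 1) _ hS' (by
    intro q hq hnq
    have := hn ⟨q, hq, rfl⟩
    omega)
  have h0 : (0 : A[X]) ∈ G := hSG (mem_insert _ _)
  refine ⟨G, hG, (subset_insert _ _).trans hSG, ?_, ?_, ?_, ?_⟩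
  · intro p hp
    rcases Nat.eq_zero_or_pos p.natDegree with e | e
    · rw [derivative_of_natDegree_zero e]
      exact h0
    · exact (hP p hp (Nat.zero_le _) e).1
  · intro p hp
    rcases Nat.eq_zero_or_pos p.natDegree with e | e
    · rw [eq_C_of_natDegree_eq_zero e, eraseLead_C]
      exact h0
    · exact (hP p hp (Nat.zero_le _) e).2.1
  · intro p hp
    rcases Nat.eq_zero_or_pos p.natDegree with e | e
    · rw [leadingCoeff, e, ← eq_C_of_natDegree_eq_zero e]
      exact hp
    · exact (hP p hp (Nat.zero_le _) e).2.2.1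
  · intro p hp q hq e
    by_cases h : q.natDegree ≤ p.natDegree
    · exact ⟨rm p q, (hP q hq (Nat.zero_le _) e).2.2.2 p hp h, hrm p q e⟩
    · exact ⟨p, hp, not_le.1 h, 0, 0, by simp⟩

end Pool.Agent.P.MP_a0f0ad_al.Fi
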