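import Pool.Agent.P.MP_a0f0ad_al.Fi.S.Iface2
import Pool.Agent.P.MP_a0f0ad_al.Fi.S.Iface

/-! Step DIFFA of the filiform project. -/

namespace Pool.Agent.P.MP_a0f0ad_al.Fi

open Set MeasureTheory Metric Filter Topology SignType
open scoped Polynomial

theorem p_DIFFA (hPROJ : S_PROJ) (hNULL : S_NULL) (hDER : S_DER) (hAE : S_AE) :
    S_DIFFA := by
  intro X Y _ _ _ _ _ _ _ _ μ _ s f hf
  haveI : Fact S_PROJ := ⟨hPROJ⟩
  have hs : SA s := hf.dom
  have hg : DF (s.indicator f) := hf.df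
  set g := s.indicator f with hgdef
  have h1 : SA {x | ContDiffAt ℝ 1 g x} := by
    have := (hDER X Y g hg).2.2.2 1
    exact this
  have hae : ∀ᵐ x ∂μ, ContDiffAt ℝ 1 g x := by
    have k : ∀ i, ∀ᵐ x ∂μ, ContDiffAt ℝ 1 (fun x => cox Y (g x) i) x := fun i => by
      have := hAE X μ (fun x => cox Y (g x) i) 1 (by fun_prop)
      exact this
    filter_upwards [ae_all_iff.2 k] with x hx
    have h2 : ContDiffAt ℝ 1 (fun x => cox Y (g x)) x := contDiffAt_pi.2 hx
    have h3 := (cox Y).symm.contDiff.contDiffAt.comp x h2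
    simpa [Function.comp_def] using h3
  refine ⟨interior s ∩ {x | ContDiffAt ℝ 1 g x}, isOpen_interior.inter ?_, hs.interior.inter h1,
    inter_subset_left.trans interior_subset, ?_, ?_⟩
  · exact isOpen_iff_mem_nhds.2 fun x hx => ContDiffAt.eventually hx (by simp)
  · refine measure_mono_null (t := frontier s ∪ {x | ¬ContDiffAt ℝ 1 g x}) ?_
      (measure_union_null (hNULL X μ s hs).2 (ae_iff.1 hae))
    rintro x ⟨hx, hn⟩
    by_cases a : x ∈ interior s
    · exact Or.inr fun b => hn ⟨a, b⟩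
    · exact Or.inl ⟨subset_closure hx, a⟩
  · refine ContDiffOn.congr (f := g) (fun x hx => (show ContDiffAt ℝ 1 g x from hx.2).contDiffWithinAt)
      fun x hx => ?_
    exact (indicator_of_mem (interior_subset hx.1) f).symm

end Pool.Agent.P.MP_a0f0ad_al.Fi
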