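import Pool.Agent.P.MP_a0f0ad_al.Fi.S.Iface2

/-! Step GAP of the filiform project. -/

namespace Pool.Agent.P.MP_a0f0ad_al.Fi

open Set MeasureTheory Metric Filter Topology SignType
open scoped Polynomial

namespace GapA

theorem inc (hMOVE : S_MOVE) {c d : ℝ} {f g : ℝ → ℝ} (hcd : c < d) (hf : Continuous f)
    (hg : Continuous g) (sc : sign (f c) = sign (g c)) (sd : sign (f d) = sign (g d))
    (mf : StrictMonoOn f (Icc c d)) (mg : StrictMonoOn g (Icc c d)) :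
    ∃ η : ℝ ≃o ℝ, (∀ t, t ∉ Ioo c d → η t = t) ∧ ∀ t ∈ Icc c d, sign (f t) = sign (g (η t)) := by
  have hc : c ∈ Icc c d := left_mem_Icc.2 hcd.le
  have hd : d ∈ Icc c d := right_mem_Icc.2 hcd.le
  by_cases h1 : 0 ≤ f c
  · have h2 : 0 ≤ g c := by rwa [← sign_nonneg_iff, ← sc, sign_nonneg_iff]
    refine ⟨OrderIso.refl ℝ, fun _ _ => rfl, fun t ht => ?_⟩
    rcases ht.1.eq_or_lt with rfl | hlt
    · exact sc
    · rw [OrderIso.refl_apply, sign_pos (h1.trans_lt (mf hc ht hlt)),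
        sign_pos (h2.trans_lt (mg hc ht hlt))]
  by_cases h3 : f d ≤ 0
  · have h2 : g d ≤ 0 := by rwa [← sign_nonpos_iff, ← sd, sign_nonpos_iff]
    refine ⟨OrderIso.refl ℝ, fun _ _ => rfl, fun t ht => ?_⟩
    rcases ht.2.eq_or_lt with rfl | hlt
    · exact sd
    · rw [OrderIso.refl_apply, sign_neg ((mf ht hd hlt).trans_le h3),
        sign_neg ((mg ht hd hlt).trans_le h2)]
  have h2 : g c < 0 := by
    rw [← sign_eq_neg_one_iff, ← sc, sign_eq_neg_one_iff]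
    exact not_le.1 h1
  have h4 : 0 < g d := by
    rw [← sign_eq_one_iff, ← sd, sign_eq_one_iff]
    exact not_le.1 h3
  obtain ⟨a, ha, fa⟩ := intermediate_value_Ioo hcd.le hf.continuousOn
    (show (0 : ℝ) ∈ Ioo (f c) (f d) from ⟨not_le.1 h1, not_le.1 h3⟩)
  obtain ⟨b, hb, gb⟩ := intermediate_value_Ioo hcd.le hg.continuousOn
    (show (0 : ℝ) ∈ Ioo (g c) (g d) from ⟨h2, h4⟩)
  obtain ⟨η, e, hη⟩ := hMOVE c d a b ha hb
  refine ⟨η, hη, fun t ht => ?_⟩
  have ec : η c = c := hη c fun h => lt_irrefl _ h.1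
  have ed : η d = d := hη d fun h => lt_irrefl _ h.2
  have ht' : η t ∈ Icc c d := ⟨ec ▸ η.monotone ht.1, ed ▸ η.monotone ht.2⟩
  have ha' := Ioo_subset_Icc_self ha
  have hb' := Ioo_subset_Icc_self hb
  rcases lt_trichotomy t a with h | rfl | h
  · have k1 : f t < 0 := fa ▸ mf ht ha' h
    have k2 : g (η t) < 0 := gb ▸ mg ht' hb' (e ▸ η.strictMono h)
    rw [sign_neg k1, sign_neg k2]
  · rw [e, fa, gb]
  · have k1 : 0 < f t := fa ▸ mf ha' ht h
    have k2 : 0 < g (η t) := gb ▸ mg hb' ht' (e ▸ η.strictMono h)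
    rw [sign_pos k1, sign_pos k2]

end GapA

theorem p_GAP (hMOVE : S_MOVE) :
    S_GAP := by
  intro c d f g hcd hf hg sc sd h
  rcases h with ⟨mf, mg⟩ | ⟨mf, mg⟩
  · exact GapA.inc hMOVE hcd hf hg sc sd mf mg
  · obtain ⟨η, h1, h2⟩ := GapA.inc hMOVE (f := fun t => -f t) (g := fun t => -g t) hcd hf.neg hg.neg
      (by simp only [Left.sign_neg, sc]) (by simp only [Left.sign_neg, sd]) mf.neg mg.neg
    refine ⟨η, h1, fun t ht => ?_⟩
    have := h2 t ht
    simp only [Left.sign_neg] at this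
    exact neg_injective this

end Pool.Agent.P.MP_a0f0ad_al.Fi
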