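import Pool.Agent.P.MP_a0f0ad_al.Fi.S.Basic2

/-! The steps inside the semialgebraic library. -/

namespace Pool.Agent.P.MP_a0f0ad_al.Fi

open Set MeasureTheory Metric Filter Topology SignType
open scoped Polynomial

/-- families of polynomials that are closed under the operations of the elimination -/
structure Clo {A : Type} [CommRing A] (F : Set A[X]) : Prop where
  der : ∀ p ∈ F, Polynomial.derivative p ∈ F
  ers : ∀ p ∈ F, p.eraseLead ∈ F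
  lc : ∀ p ∈ F, Polynomial.C p.leadingCoeff ∈ F
  rem : ∀ p ∈ F, ∀ q ∈ F, 0 < q.natDegree → ∃ r ∈ F, r.natDegree < q.natDegree ∧
    ∃ (k : ℕ) (s : A[X]), Polynomial.C q.leadingCoeff ^ k * p = s * q + r

/-- `θ` matches the signs of the two specialisations of the members of `G` -/
def Mat {A : Type} [CommRing A] (φ ψ : A →+* ℝ) (G : Set A[X]) (θ : ℝ ≃o ℝ) : Prop :=
  ∀ p ∈ G, ∀ t, sign ((p.map φ).eval t) = sign ((p.map ψ).eval (θ t))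

-- deps:
def S_MOVE : Prop := ∀ c d a b : ℝ, a ∈ Ioo c d → b ∈ Ioo c d →
  ∃ η : ℝ ≃o ℝ, η a = b ∧ ∀ t, t ∉ Ioo c d → η t = t

-- deps: MOVE
def S_GAP : Prop := ∀ (c d : ℝ) (f g : ℝ → ℝ), c < d → Continuous f → Continuous g →
  sign (f c) = sign (g c) → sign (f d) = sign (g d) →
  (StrictMonoOn f (Icc c d) ∧ StrictMonoOn g (Icc c d) ∨
    StrictAntiOn f (Icc c d) ∧ StrictAntiOn g (Icc c d)) →
  ∃ η : ℝ ≃o ℝ, (∀ t, t ∉ Ioo c d → η t = t) ∧ ∀ t ∈ Icc c d, sign (f t) = sign (g (η t))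

-- deps: GAP
def S_ADJ : Prop := ∀ (Z : Finset ℝ) (f g : ℝ → ℝ), Continuous f → Continuous g →
  (∀ z ∈ Z, sign (f z) = sign (g z)) →
  (∀ a b, a < b → (∀ z ∈ Z, z ∉ Ioo a b) →
    StrictMonoOn f (Icc a b) ∧ StrictMonoOn g (Icc a b) ∨
      StrictAntiOn f (Icc a b) ∧ StrictAntiOn g (Icc a b)) →
  (∀ᶠ t in atTop, sign (f t) = sign (g t)) → (∀ᶠ t in atBot, sign (f t) = sign (g t)) →
  ∃ η : ℝ ≃o ℝ, (∀ z ∈ Z, η z = z) ∧ ∀ t, sign (f t) = sign (g (η t))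

-- deps:
def S_INF : Prop := ∀ p : ℝ[X], (∀ᶠ t in atTop, sign (p.eval t) = sign p.leadingCoeff) ∧
  ∀ᶠ t in atBot, sign (p.eval t) = (-1) ^ p.natDegree * sign p.leadingCoeff

-- deps:
def S_CLOS : Prop := ∀ (A : Type) [CommRing A] (S : Set A[X]), S.Finite →
  ∃ F : Set A[X], F.Finite ∧ S ⊆ F ∧ Clo F

-- deps:
/-- the signs of `p` at the roots of the matched family are matched -/
def S_ROOT : Prop := ∀ (A : Type) [CommRing A] (φ ψ : A →+* ℝ) (F G : Set A[X]) (θ : ℝ ≃o ℝ)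
  (p : A[X]), Clo F → G ⊆ F → p ∈ F → (∀ q ∈ F, q.natDegree < p.natDegree → q ∈ G) →
  (∀ q ∈ G, q.natDegree ≤ p.natDegree) → Mat φ ψ G θ →
  (∀ c, Polynomial.C c ∈ F → sign (φ c) = sign (ψ c)) →
  ∀ q ∈ G, q.map φ ≠ 0 → ∀ z, (q.map φ).eval z = 0 →
    sign ((p.map φ).eval z) = sign ((p.map ψ).eval (θ z))

-- deps: ADJ INF ROOT
def S_STEP : Prop := ∀ (A : Type) [CommRing A] (φ ψ : A →+* ℝ) (F G : Set A[X]) (θ : ℝ ≃o ℝ)
  (p : A[X]), Clo F → G.Finite → G ⊆ F → p ∈ F →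
  (∀ q ∈ F, q.natDegree < p.natDegree → q ∈ G) → (∀ q ∈ G, q.natDegree ≤ p.natDegree) →
  Mat φ ψ G θ → (∀ c, Polynomial.C c ∈ F → sign (φ c) = sign (ψ c)) →
  ∃ θ', Mat φ ψ (insert p G) θ'

-- deps: CLOS STEP
def S_PRO1 : Prop :=
  ∀ (X : Type) [NormedAddCommGroup X] [NormedSpace ℝ X] (s : Set (X × ℝ)),
    SA s → SA (Prod.fst '' s)

-- deps: PRO1
def S_PROJA : Prop := S_PROJ

-- deps:
/-- the measure of a set with short linear sections -/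
def S_LINE : Prop :=
  ∀ (X : Type) [NormedAddCommGroup X] [NormedSpace ℝ X] [FiniteDimensional ℝ X]
    [MeasurableSpace X] [BorelSpace X] (μ : Measure X) [μ.IsAddHaarMeasure] (Z : Set X) (v : X),
    MeasurableSet Z →
    (∀ (R : ℝ) (a : ENNReal), Z ⊆ closedBall 0 R → (∀ x, volume {t : ℝ | x + t • v ∈ Z} ≤ a) →
      μ Z ≤ a * μ (closedBall 0 (R + ‖v‖))) ∧
    ((∀ x, volume {t : ℝ | x + t • v ∈ Z} = 0) → μ Z = 0)

-- deps: LINE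
def S_NULLA : Prop := S_NULL

-- deps: PROJ UF
def S_CH1 : Prop :=
  ∀ (X : Type) [NormedAddCommGroup X] [NormedSpace ℝ X] [FiniteDimensional ℝ X]
    (s : Set (X × ℝ)), SA s → ∃ f : X → ℝ, DF f ∧ ∀ x t, (x, t) ∈ s → (x, f x) ∈ s

-- deps: PROJ CH1
def S_CHOICEA : Prop := S_CHOICE

-- deps: PROJ
/-- derivatives are definable -/
def S_DER : Prop :=
  ∀ (X Y : Type) [NormedAddCommGroup X] [NormedSpace ℝ X] [FiniteDimensional ℝ X]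
    [NormedAddCommGroup Y] [NormedSpace ℝ Y] [FiniteDimensional ℝ Y] (g : X → Y), DF g →
    DP (ContinuousAt g) ∧ DP (DifferentiableAt ℝ g) ∧ DF (fderiv ℝ g) ∧
      ∀ n : ℕ, DP (ContDiffAt ℝ n g)

-- deps:
def S_IFT : Prop :=
  ∀ (X : Type) [NormedAddCommGroup X] [NormedSpace ℝ X] [FiniteDimensional ℝ X] (n : ℕ)
    (Q : X × ℝ → ℝ) (x₀ : X) (t₀ q : ℝ), IsP Q → Q (x₀, t₀) = 0 →
    HasDerivAt (fun t => Q (x₀, t)) q t₀ → q ≠ 0 →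
    ∃ h : X → ℝ, ContDiffAt ℝ n h x₀ ∧ ∀ᶠ p in 𝓝 (x₀, t₀), Q p = 0 → p.2 = h p.1

-- deps: PROJ NULL IFT
def S_AE : Prop :=
  ∀ (X : Type) [NormedAddCommGroup X] [NormedSpace ℝ X] [FiniteDimensional ℝ X]
    [MeasurableSpace X] [BorelSpace X] (μ : Measure X) [μ.IsAddHaarMeasure] (g : X → ℝ) (n : ℕ),
    DF g → ∀ᵐ x ∂μ, ContDiffAt ℝ n g x

-- deps: PROJ NULL DER AE
def S_DIFFA : Prop := S_DIFF

-- deps: PROJ UF NULL LINE DER
def S_STEEP : Prop :=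
  ∀ (X : Type) [NormedAddCommGroup X] [NormedSpace ℝ X] [FiniteDimensional ℝ X]
    [MeasurableSpace X] [BorelSpace X] (μ : Measure X) [μ.IsAddHaarMeasure]
    (U : Set X) (g : X → ℝ) (v : X), SA U → Bornology.IsBounded U → DF g →
    (∀ x ∈ U, DifferentiableAt ℝ g x) → ∃ C : ℝ, 0 ≤ C ∧ ∀ c t l : ℝ, 0 < t → 0 < l →
      μ {x | x ∈ U ∧ |g x - c| ≤ t ∧ l ≤ fderiv ℝ g x v} ≤ ENNReal.ofReal (C * t / l)

-- deps: PROJ STEEP
def S_TAILA : Prop := S_TAIL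

-- deps: PROJ UF NULL LINE
/-- thickening in one direction -/
def S_FAT : Prop :=
  ∀ (P X : Type) [NormedAddCommGroup P] [NormedSpace ℝ P] [FiniteDimensional ℝ P]
    [NormedAddCommGroup X] [NormedSpace ℝ X] [FiniteDimensional ℝ X]
    [MeasurableSpace X] [BorelSpace X] (μ : Measure X) [μ.IsAddHaarMeasure]
    (s : Set (P × X)) (v : X) (R : ℝ), SA s → ∃ C : ℝ, 0 ≤ C ∧ ∀ (p : P) (ρ : ℝ), 0 ≤ ρ → ρ ≤ R →
      {x | (p, x) ∈ s} ⊆ closedBall 0 R →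
      μ {x | ∃ τ : ℝ, |τ| ≤ ρ ∧ (p, x + τ • v) ∈ s} ≤ μ {x | (p, x) ∈ s} + ENNReal.ofReal (C * ρ)

-- deps: PROJ NULL FAT
def S_THINA : Prop := S_THIN

-- deps:
def S_TAY : Prop :=
  ∀ (X : Type) [NormedAddCommGroup X] [NormedSpace ℝ X] [FiniteDimensional ℝ X],
    ∃ κ : ℝ, 0 < κ ∧ ∀ (g : X → ℝ) (x : X) (r e : ℝ), 0 < r → 0 ≤ e →
      (∀ y ∈ ball x r, ContDiffAt ℝ 2 g y) → ContinuousOn g (closedBall x r) →
      (∀ y ∈ ball x r, ∀ i j, |fderiv ℝ (fun z => fderiv ℝ g z (Module.finBasis ℝ X i)) y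
        (Module.finBasis ℝ X j)| ≤ e / (κ * r)) →
      ∀ y ∈ closedBall x r, |g y - g x - fderiv ℝ g x (y - x)| ≤ e * ‖y - x‖

-- deps: PROJ NULL DER TAIL THIN
/-- neighbourhoods of the set where a function is bounded and steep -/
def S_NBH : Prop :=
  ∀ (X : Type) [NormedAddCommGroup X] [NormedSpace ℝ X] [FiniteDimensional ℝ X]
    [MeasurableSpace X] [BorelSpace X] (μ : Measure X) [μ.IsAddHaarMeasure]
    (W : Set X) (g : X → ℝ) (v : X), IsOpen W → SA W → DF g →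
    (∀ x ∈ W, DifferentiableAt ℝ g x) → ∀ L0 : ℝ, ∃ C : ℝ, 0 ≤ C ∧
      ∀ r t l : ℝ, 0 < r → r ≤ 1 → 0 < t → 0 < l →
      μ {x | ‖x‖ ≤ L0 ∧ ∃ y ∈ ball x r, y ∈ W ∧ |g y| ≤ t ∧ l ≤ |fderiv ℝ g y v|} ≤
        ENNReal.ofReal (C * (r + t / l))

-- deps: PROJ NULL DER AE THIN TAY NBH
def S_OSCA : Prop := S_OSC

end Pool.Agent.P.MP_a0f0ad_al.Fi
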