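import Pool.Agent.P.MP_a0f0ad_al.Fi.S.Iface2

/-! Step INF of the filiform project. -/

namespace Pool.Agent.P.MP_a0f0ad_al.Fi

open Set MeasureTheory Metric Filter Topology SignType
open scoped Polynomial

namespace InfA

theorem sg {l : Filter ℝ} {u v : ℝ → ℝ} (h : Asymptotics.IsEquivalent l u v) :
    ∀ᶠ t in l, sign (u t) = sign (v t) := by
  obtain ⟨φ, h1, h2⟩ := h.exists_eq_mul
  filter_upwards [h2, h1.eventually (lt_mem_nhds one_pos)] with t a b
  rw [a, Pi.mul_apply, sign_mul, sign_pos b, one_mul]

end InfA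

theorem p_INF :
    S_INF := fun p => by
  constructor
  · filter_upwards [InfA.sg p.isEquivalent_atTop_lead, eventually_gt_atTop 0] with t a b
    rw [a, sign_mul, sign_pos (pow_pos b _), mul_one]
  · filter_upwards [InfA.sg p.isEquivalent_atBot_lead, eventually_lt_atBot 0] with t a b
    rw [a, sign_mul, sign_pow, sign_neg b, mul_comm]

end Pool.Agent.P.MP_a0f0ad_al.Fi
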