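import Pool.Agent.P.MP_a0f0ad_al.Fi.S.Iface
import Pool.Agent.P.MP_a0f0ad_al.Fi.S.Iface2

/-! Step INTG of the filiform project. -/

namespace Pool.Agent.P.MP_a0f0ad_al.Fi

open Set MeasureTheory Metric

namespace IntgA

variable {X : Type} [NormedAddCommGroup X] [NormedSpace ℝ X]

/-- one piece: the open interval lies in the fibre or misses it -/
def R0 (A : Set (X × ℝ)) (G : X × ℝ → ℝ) (x : X) (a b y : ℝ) : Prop :=
  a ≤ b ∧ ((∀ t : ℝ, a < t → t < b → (x, t) ∈ A) ∧ y = G (x, b) - G (x, a) ∨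
    (∀ t : ℝ, a < t → t < b → ¬(x, t) ∈ A) ∧ y = 0)

/-- `k + 1` pieces -/
def R (A : Set (X × ℝ)) (G : X × ℝ → ℝ) : ℕ → X → ℝ → ℝ → ℝ → Prop
  | 0 => R0 A G
  | k + 1 => fun x a b y => ∃ m y1 y2 : ℝ, R0 A G x a m y1 ∧ R A G k x m b y2 ∧ y = y1 + y2

theorem dp_R0 [Fact S_PROJ] [FiniteDimensional ℝ X] {A : Set (X × ℝ)} {G : X × ℝ → ℝ}
    (hA : SA A) (hG : IsP G) :
    DP fun p : X × ℝ × ℝ × ℝ => R0 A G p.1 p.2.1 p.2.2.1 p.2.2.2 := by
  have h1 : DP fun q : (X × ℝ × ℝ × ℝ) × ℝ => (q.1.1, q.2) ∈ A :=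
    hA.dp.pm (f := fun q : (X × ℝ × ℝ × ℝ) × ℝ => (q.1.1, q.2)) (by fun_prop)
  have h2 : DF fun p : X × ℝ × ℝ × ℝ => G (p.1, p.2.2.1) :=
    (hG.comp (f := fun p : X × ℝ × ℝ × ℝ => (p.1, p.2.2.1)) (by fun_prop)).df
  have h3 : DF fun p : X × ℝ × ℝ × ℝ => G (p.1, p.2.1) :=
    (hG.comp (f := fun p : X × ℝ × ℝ × ℝ => (p.1, p.2.1)) (by fun_prop)).df
  have k1 : DP fun p : X × ℝ × ℝ × ℝ => ∀ t : ℝ, p.2.1 < t → t < p.2.2.1 → (p.1, t) ∈ A :=
    DP.all (φ := fun (p : X × ℝ × ℝ × ℝ) (t : ℝ) => p.2.1 < t → t < p.2.2.1 → (p.1, t) ∈ A)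
      (DP.imp (by fun_prop) (DP.imp (by fun_prop) h1))
  have k2 : DP fun p : X × ℝ × ℝ × ℝ => ∀ t : ℝ, p.2.1 < t → t < p.2.2.1 → ¬(p.1, t) ∈ A :=
    DP.all (φ := fun (p : X × ℝ × ℝ × ℝ) (t : ℝ) => p.2.1 < t → t < p.2.2.1 → ¬(p.1, t) ∈ A)
      (DP.imp (by fun_prop) (DP.imp (by fun_prop) h1.not))
  exact DP.and (by fun_prop) (DP.or (k1.and (DP.eq (by fun_prop) (h2.sub h3)))
    (k2.and (by fun_prop)))

theorem dp_R [Fact S_PROJ] [FiniteDimensional ℝ X] {A : Set (X × ℝ)} {G : X × ℝ → ℝ}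
    (hA : SA A) (hG : IsP G) (k : ℕ) :
    DP fun p : X × ℝ × ℝ × ℝ => R A G k p.1 p.2.1 p.2.2.1 p.2.2.2 := by
  induction k with
  | zero => exact dp_R0 hA hG
  | succ k ih =>
    have h1 : DP fun q : (X × ℝ × ℝ × ℝ) × (ℝ × ℝ × ℝ) =>
        R0 A G q.1.1 q.1.2.1 q.2.1 q.2.2.1 :=
      (dp_R0 hA hG).pm (f := fun q : (X × ℝ × ℝ × ℝ) × (ℝ × ℝ × ℝ) =>
        (q.1.1, q.1.2.1, q.2.1, q.2.2.1)) (by fun_prop)
    have h2 : DP fun q : (X × ℝ × ℝ × ℝ) × (ℝ × ℝ × ℝ) =>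
        R A G k q.1.1 q.2.1 q.1.2.2.1 q.2.2.2 :=
      ih.pm (f := fun q : (X × ℝ × ℝ × ℝ) × (ℝ × ℝ × ℝ) =>
        (q.1.1, q.2.1, q.1.2.2.1, q.2.2.2)) (by fun_prop)
    have h3 : DP fun q : (X × ℝ × ℝ × ℝ) × (ℝ × ℝ × ℝ) => q.1.2.2.2 = q.2.2.1 + q.2.2.2 := by
      fun_prop
    refine (DP.ex (φ := fun (p : X × ℝ × ℝ × ℝ) (u : ℝ × ℝ × ℝ) =>
      R0 A G p.1 p.2.1 u.1 u.2.1 ∧ R A G k p.1 u.1 p.2.2.1 u.2.2 ∧ p.2.2.2 = u.2.1 + u.2.2)
      (h1.and (h2.and h3))).congr fun p => ?_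
    simp only [R, Prod.exists]

theorem sound0 {A : Set (X × ℝ)} {G f : X × ℝ → ℝ} (hf : IsP f)
    (hG : ∀ x t, HasDerivAt (fun t => G (x, t)) (f (x, t)) t) {x : X} {a b y : ℝ}
    (h : R0 A G x a b y) :
    a ≤ b ∧ IntervalIntegrable (fun t => A.indicator f (x, t)) volume a b ∧
      y = ∫ t in a..b, A.indicator f (x, t) := by
  obtain ⟨hab, h⟩ := h
  have hc : Continuous fun t : ℝ => f (x, t) := hf.continuous.comp (by fun_prop)
  have key : ∀ g : ℝ → ℝ, Continuous g → (∀ t, a < t → t < b → A.indicator f (x, t) = g t) →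
      IntervalIntegrable (fun t => A.indicator f (x, t)) volume a b ∧
        (∫ t in a..b, A.indicator f (x, t)) = ∫ t in a..b, g t := by
    intro g hg e
    refine ⟨?_, ?_⟩
    · rw [intervalIntegrable_iff_integrableOn_Ioo_of_le hab]
      exact ((intervalIntegrable_iff_integrableOn_Ioo_of_le hab).1
        (hg.intervalIntegrable a b)).congr_fun (fun t ht => (e t ht.1 ht.2).symm) measurableSet_Ioo
    · rw [intervalIntegral.integral_of_le hab, intervalIntegral.integral_of_le hab,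
        integral_Ioc_eq_integral_Ioo, integral_Ioc_eq_integral_Ioo]
      exact setIntegral_congr_fun measurableSet_Ioo fun t ht => e t ht.1 ht.2
  rcases h with ⟨h1, h2⟩ | ⟨h1, h2⟩
  · obtain ⟨k1, k2⟩ := key _ hc fun t ha hb => indicator_of_mem (h1 t ha hb) f
    refine ⟨hab, k1, ?_⟩
    rw [k2, h2, intervalIntegral.integral_eq_sub_of_hasDerivAt (fun t _ => hG x t)
      (hc.intervalIntegrable a b)]
  · obtain ⟨k1, k2⟩ := key (fun _ => 0) continuous_const fun t ha hb =>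
      indicator_of_notMem (h1 t ha hb) f
    refine ⟨hab, k1, ?_⟩
    rw [k2, h2]
    simp

theorem sound {A : Set (X × ℝ)} {G f : X × ℝ → ℝ} (hf : IsP f)
    (hG : ∀ x t, HasDerivAt (fun t => G (x, t)) (f (x, t)) t) (k : ℕ) {x : X} {a b y : ℝ}
    (h : R A G k x a b y) :
    a ≤ b ∧ IntervalIntegrable (fun t => A.indicator f (x, t)) volume a b ∧
      y = ∫ t in a..b, A.indicator f (x, t) := by
  induction k generalizing a y with
  | zero => exact sound0 hf hG h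
  | succ k ih =>
    obtain ⟨m, y1, y2, h1, h2, h3⟩ := h
    obtain ⟨a1, a2, a3⟩ := sound0 hf hG h1
    obtain ⟨b1, b2, b3⟩ := ih h2
    exact ⟨a1.trans b1, a2.trans b2, by
      rw [h3, a3, b3, intervalIntegral.integral_add_adjacent_intervals a2 b2]⟩

omit [NormedAddCommGroup X] [NormedSpace ℝ X] in
theorem compl0 {A : Set (X × ℝ)} (G : X × ℝ → ℝ) {x : X} {a b : ℝ} (hab : a ≤ b)
    (h : Disjoint (Ioo a b) (frontier {t | (x, t) ∈ A})) : ∃ y, R0 A G x a b y := by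
  by_cases hT : ∃ t ∈ Ioo a b, (x, t) ∈ A
  · obtain ⟨t, ht, htA⟩ := hT
    exact ⟨_, hab, Or.inl ⟨fun s h1 h2 =>
      sub_of_frontier isPreconnected_Ioo h ht htA ⟨h1, h2⟩, rfl⟩⟩
  · exact ⟨_, hab, Or.inr ⟨fun s h1 h2 hs => hT ⟨s, ⟨h1, h2⟩, hs⟩, rfl⟩⟩

omit [NormedAddCommGroup X] [NormedSpace ℝ X] in
theorem complete {A : Set (X × ℝ)} (G : X × ℝ → ℝ) {x : X} {F : Finset ℝ}
    (hF : frontier {t | (x, t) ∈ A} ⊆ (F : Set ℝ)) (k : ℕ) {a b : ℝ} (hab : a ≤ b)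
    (hk : (F.filter fun t => a < t ∧ t < b).card ≤ k) : ∃ y, R A G k x a b y := by
  have d : ∀ a b : ℝ, (∀ t ∈ F, ¬(a < t ∧ t < b)) →
      Disjoint (Ioo a b) (frontier {t | (x, t) ∈ A}) := fun a b h =>
    disjoint_left.2 fun t ht ht' => h t (hF ht') ht
  induction k generalizing a with
  | zero =>
    refine compl0 G hab (d a b fun t ht h => ?_)
    have : 0 < (F.filter fun t => a < t ∧ t < b).card :=
      Finset.card_pos.2 ⟨t, Finset.mem_filter.2 ⟨ht, h⟩⟩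
    omega
  | succ k ih =>
    by_cases hne : (F.filter fun t => a < t ∧ t < b).Nonempty
    · set m := (F.filter fun t => a < t ∧ t < b).min' hne with hm
      have hmem := Finset.mem_filter.1 (Finset.min'_mem _ hne)
      rw [← hm] at hmem
      obtain ⟨y1, h1⟩ := compl0 G hmem.2.1.le (d a m fun t ht h =>
        absurd (Finset.min'_le _ t (Finset.mem_filter.2 ⟨ht, h.1, h.2.trans hmem.2.2⟩))
          (not_le.2 h.2))
      have hc : (F.filter fun t => m < t ∧ t < b).card <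
          (F.filter fun t => a < t ∧ t < b).card := by
        refine Finset.card_lt_card ⟨fun t ht => ?_, fun hs => ?_⟩
        · have := Finset.mem_filter.1 ht
          exact Finset.mem_filter.2 ⟨this.1, hmem.2.1.trans this.2.1, this.2.2⟩
        · exact lt_irrefl m (Finset.mem_filter.1 (hs (Finset.mem_filter.2 hmem))).2.1
      obtain ⟨y2, h2⟩ := ih hmem.2.2.le (by omega)
      exact ⟨_, m, y1, y2, h1, h2, rfl⟩
    · obtain ⟨y1, h1⟩ := compl0 (A := A) (x := x) G (le_refl a) (by simp)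
      obtain ⟨y2, h2⟩ := ih hab (by rw [Finset.not_nonempty_iff_eq_empty.1 hne]; simp)
      exact ⟨_, a, y1, y2, h1, h2, rfl⟩

end IntgA

open IntgA in
theorem p_INTG (hPROJ : S_PROJ) (hUF : S_UF) :
    S_INTG := by
  intro X _ _ _ A f hA hf
  haveI : Fact S_PROJ := ⟨hPROJ⟩
  obtain ⟨G, hG, hG'⟩ := hf.exists_prim
  obtain ⟨B, hB⟩ := hUF X A hA
  have h := dp_R hA hG B
  have h1 : DP fun q : (X × ℝ × ℝ) × ℝ => R A G B q.1.1 q.1.2.1 q.1.2.2 q.2 :=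
    h.pm (f := fun q : (X × ℝ × ℝ) × ℝ => (q.1.1, q.1.2.1, q.1.2.2, q.2)) (by fun_prop)
  have h2 : DP fun q : (X × ℝ × ℝ) × ℝ => R A G B q.1.1 q.1.2.2 q.1.2.1 (-q.2) :=
    h.pm (f := fun q : (X × ℝ × ℝ) × ℝ => (q.1.1, q.1.2.2, q.1.2.1, -q.2)) (by fun_prop)
  refine saf_univ.2 (DF.of_graph ((h1.or h2).congr ?_))
  rintro ⟨⟨x, a, b⟩, y⟩
  obtain ⟨F, hF, hF'⟩ := hB x
  refine ⟨fun e => ?_, ?_⟩
  · rcases le_total a b with hab | hab
    · obtain ⟨z, hz⟩ := complete G hF' B hab ((Finset.card_filter_le _ _).trans hF)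
      left
      have := (sound hf hG' B hz).2.2
      dsimp only at e ⊢
      rwa [e, ← this]
    · obtain ⟨z, hz⟩ := complete G hF' B hab ((Finset.card_filter_le _ _).trans hF)
      right
      have := (sound hf hG' B hz).2.2
      dsimp only at e ⊢
      rwa [e, ← intervalIntegral.integral_symm, ← this]
  · rintro (e | e)
    · exact (sound hf hG' B e).2.2
    · have := (sound hf hG' B e).2.2
      dsimp only at this ⊢
      rw [intervalIntegral.integral_symm, ← this, neg_neg]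

end Pool.Agent.P.MP_a0f0ad_al.Fi
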