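import Pool.Agent.P.MP_a0f0ad_al.Fi.S.Iface2

/-! Step MOVE of the filiform project. -/

namespace Pool.Agent.P.MP_a0f0ad_al.Fi

open Set MeasureTheory Metric Filter Topology SignType
open scoped Polynomial

namespace MoveA

/-- The piecewise affine map fixing the complement of `(c, d)` and sending `a` to `b`. -/
noncomputable def mv (c d a b t : ℝ) : ℝ :=
  if t ≤ c then t else if t ≤ a then c + (t - c) * ((b - c) / (a - c))
    else if t ≤ d then d - (d - t) * ((d - b) / (d - a)) else t

theorem mv_low {c d a b t : ℝ} (h : t ≤ c) : mv c d a b t = t := by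
  simp [mv, h]

theorem mv_left {c d a b t : ℝ} (h1 : c < t) (h2 : t ≤ a) :
    mv c d a b t = c + (t - c) * ((b - c) / (a - c)) := by
  simp [mv, not_le.mpr h1, h2]

theorem mv_right {c d a b t : ℝ} (hc : c < a) (h1 : a < t) (h2 : t ≤ d) :
    mv c d a b t = d - (d - t) * ((d - b) / (d - a)) := by
  simp [mv, not_le.mpr h1, h2, not_le.mpr (hc.trans h1)]

theorem mv_high {c d a b t : ℝ} (hc : c < a) (hd : a < d) (h : d ≤ t) : mv c d a b t = t := by
  rcases h.eq_or_lt with rfl | h
  · rw [mv_right hc hd le_rfl]; simp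
  · simp [mv, not_le.mpr h, not_le.mpr (hd.trans h), not_le.mpr ((hc.trans hd).trans h)]

theorem left_mem {c d a b t : ℝ} (ha : a ∈ Ioo c d) (hb : b ∈ Ioo c d) (h1 : c < t)
    (h2 : t ≤ a) : c < mv c d a b t ∧ mv c d a b t ≤ b := by
  rw [mv_left h1 h2]
  have hac : 0 < a - c := sub_pos.mpr ha.1
  have hbc : 0 < b - c := sub_pos.mpr hb.1
  have hp : 0 < (b - c) / (a - c) := div_pos hbc hac
  have he : (a - c) * ((b - c) / (a - c)) = b - c := by field_simp
  constructor
  · have := mul_pos (sub_pos.mpr h1) hp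
    linarith
  · have := mul_le_mul_of_nonneg_right (show t - c ≤ a - c by linarith) hp.le
    linarith

theorem right_mem {c d a b t : ℝ} (ha : a ∈ Ioo c d) (hb : b ∈ Ioo c d) (h1 : a < t)
    (h2 : t ≤ d) : b < mv c d a b t ∧ mv c d a b t ≤ d := by
  rw [mv_right ha.1 h1 h2]
  have hac : 0 < d - a := sub_pos.mpr ha.2
  have hbc : 0 < d - b := sub_pos.mpr hb.2
  have hp : 0 < (d - b) / (d - a) := div_pos hbc hac
  have he : (d - a) * ((d - b) / (d - a)) = d - b := by field_simp
  constructor
  · have := mul_lt_mul_of_pos_right (show d - t < d - a by linarith) hp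
    linarith
  · have := mul_nonneg (sub_nonneg.mpr h2) hp.le
    linarith

theorem mv_inv {c d a b : ℝ} (ha : a ∈ Ioo c d) (hb : b ∈ Ioo c d) (t : ℝ) :
    mv c d b a (mv c d a b t) = t := by
  have hac : a - c ≠ 0 := (sub_pos.mpr ha.1).ne'
  have hbc : b - c ≠ 0 := (sub_pos.mpr hb.1).ne'
  have hda : d - a ≠ 0 := (sub_pos.mpr ha.2).ne'
  have hdb : d - b ≠ 0 := (sub_pos.mpr hb.2).ne'
  rcases le_or_gt t c with h1 | h1
  · rw [mv_low h1, mv_low h1]
  rcases le_or_gt t a with h2 | h2
  · obtain ⟨p, q⟩ := left_mem ha hb h1 h2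
    rw [mv_left p q, mv_left h1 h2]
    field_simp
    ring
  rcases le_or_gt t d with h3 | h3
  · obtain ⟨p, q⟩ := right_mem ha hb h2 h3
    rw [mv_right hb.1 p q, mv_right ha.1 h2 h3]
    field_simp
    ring
  · rw [mv_high ha.1 ha.2 h3.le, mv_high hb.1 hb.2 h3.le]

theorem mv_strictMono {c d a b : ℝ} (ha : a ∈ Ioo c d) (hb : b ∈ Ioo c d) :
    StrictMono (mv c d a b) := by
  intro s t hst
  have hp : 0 < (b - c) / (a - c) := div_pos (sub_pos.mpr hb.1) (sub_pos.mpr ha.1)
  have hq : 0 < (d - b) / (d - a) := div_pos (sub_pos.mpr hb.2) (sub_pos.mpr ha.2)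
  have hcb := hb.1
  have hbd := hb.2
  have hca := ha.1
  have had := ha.2
  rcases le_or_gt t c with t1 | t1
  · rw [mv_low t1, mv_low (hst.le.trans t1)]; exact hst
  rcases le_or_gt t a with t2 | t2
  · rcases le_or_gt s c with s1 | s1
    · rw [mv_low s1]
      exact s1.trans_lt (left_mem ha hb t1 t2).1
    · rw [mv_left s1 (hst.le.trans t2), mv_left t1 t2]
      have := mul_lt_mul_of_pos_right (show s - c < t - c by linarith) hp
      linarith
  rcases le_or_gt t d with t3 | t3
  · have ht := (right_mem ha hb t2 t3).1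
    rcases le_or_gt s c with s1 | s1
    · rw [mv_low s1]; linarith
    rcases le_or_gt s a with s2 | s2
    · exact (left_mem ha hb s1 s2).2.trans_lt ht
    · rw [mv_right hca s2 (hst.le.trans t3), mv_right hca t2 t3]
      have := mul_lt_mul_of_pos_right (show d - t < d - s by linarith) hq
      linarith
  · rw [mv_high hca had t3.le]
    rcases le_or_gt s c with s1 | s1
    · rw [mv_low s1]; exact hst
    rcases le_or_gt s a with s2 | s2
    · have := (left_mem ha hb s1 s2).2
      linarith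
    rcases le_or_gt s d with s3 | s3
    · exact (right_mem ha hb s2 s3).2.trans_lt t3
    · rw [mv_high hca had s3.le]; exact hst

end MoveA

theorem p_MOVE :
    S_MOVE := by
  intro c d a b ha hb
  have hs : Function.Surjective (MoveA.mv c d a b) := fun t =>
    ⟨MoveA.mv c d b a t, MoveA.mv_inv hb ha t⟩
  refine ⟨(MoveA.mv_strictMono ha hb).orderIsoOfSurjective _ hs, ?_, ?_⟩
  · show MoveA.mv c d a b a = b
    have hac : a - c ≠ 0 := (sub_pos.mpr ha.1).ne'
    rw [MoveA.mv_left ha.1 le_rfl]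
    field_simp
    ring
  · intro t ht
    show MoveA.mv c d a b t = t
    rcases le_or_gt t c with h | h
    · exact MoveA.mv_low h
    · exact MoveA.mv_high ha.1 ha.2 (not_lt.mp fun h' => ht ⟨h, h'⟩)

end Pool.Agent.P.MP_a0f0ad_al.Fi
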