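import Pool.Agent.P.MP_a0f0ad_al.Fi.S.Iface2

/-! Step NULLA of the filiform project. -/

namespace Pool.Agent.P.MP_a0f0ad_al.Fi

open Set MeasureTheory Metric Filter Topology SignType
open scoped Polynomial

namespace NullaA

variable {X : Type} [NormedAddCommGroup X] [NormedSpace ℝ X]

/-- the points at which `f` vanishes in all directions of the span of `l` -/
def zs (f : X → ℝ) (l : Set X) : Set X := {x | ∀ c ∈ Submodule.span ℝ l, f (x + c) = 0}

theorem closed_zs {f : X → ℝ} (hf : IsP f) (l : Set X) : IsClosed (zs f l) := by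
  have : zs f l = ⋂ c ∈ Submodule.span ℝ l, {x | f (x + c) = 0} := by
    ext x; simp [zs]
  rw [this]
  exact isClosed_biInter fun c _ =>
    isClosed_eq (hf.continuous.comp (continuous_id.add continuous_const)) continuous_const

theorem finite_line {f : X → ℝ} (hf : IsP f) (l : Set X) (v x : X) :
    {t : ℝ | x + t • v ∈ zs f l \ zs f (insert v l)}.Finite := by
  by_cases h : ∀ t : ℝ, x + t • v ∈ zs f l
  · refine finite_empty.subset fun t ht => ht.2 fun c hc => ?_
    obtain ⟨a, z, hz, rfl⟩ := Submodule.mem_span_insert.1 hc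
    have := h (t + a) z hz
    rw [← this, add_smul]
    congr 1
    abel
  · obtain ⟨t₀, h₀⟩ := not_forall.1 h
    simp only [zs, mem_ofPred_eq, not_forall] at h₀
    obtain ⟨c, hc, h₀⟩ := h₀
    obtain ⟨p, hp⟩ := hf.line (x + c) v
    have hp' : ∀ t : ℝ, f (x + t • v + c) = p.eval t := fun t => by
      rw [← hp t, add_right_comm]
    have hp0 : p ≠ 0 := by
      rintro rfl
      exact h₀ (by simpa using hp' t₀)
    refine (p.roots.toFinset.finite_toSet).subset fun t ht => ?_
    have := ht.1 c hc
    rw [hp'] at this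
    simpa [hp0] using this

theorem null_zero (hLINE : S_LINE) [FiniteDimensional ℝ X] [MeasurableSpace X] [BorelSpace X]
    (μ : Measure X) [μ.IsAddHaarMeasure] {f : X → ℝ} (hf : IsP f) (hne : ∃ x, f x ≠ 0) :
    μ {x | f x = 0} = 0 := by
  classical
  have key : ∀ l : Finset X, μ (zs f ∅ \ zs f l) = 0 := by
    intro l
    induction l using Finset.induction_on with
    | empty => simp
    | insert v l _ ih =>
      have h1 : μ (zs f l \ zs f (insert v l)) = 0 :=
        (hLINE X μ _ v ((closed_zs hf _).measurableSet.diff (closed_zs hf _).measurableSet)).2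
          fun x => (finite_line hf l v x).measure_zero _
      rw [Finset.coe_insert]
      refine measure_mono_null (fun x hx => ?_) (measure_union_null ih h1)
      by_cases hx' : x ∈ zs f l
      · exact Or.inr ⟨hx', hx.2⟩
      · exact Or.inl ⟨hx.1, hx'⟩
  obtain ⟨l, hl⟩ : (⊤ : Submodule ℝ X).FG := Module.Finite.fg_top
  obtain ⟨x₀, h₀⟩ := hne
  refine measure_mono_null (fun x hx => ?_) (key l)
  refine ⟨fun c hc => ?_, fun h => h₀ ?_⟩
  · rw [Submodule.span_empty, Submodule.mem_bot] at hc
    rw [hc, add_zero]; exact hx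
  · simpa using h (x₀ - x) (hl ▸ Submodule.mem_top)

end NullaA

theorem p_NULLA (hLINE : S_LINE) :
    S_NULLA := by
  intro X _ _ _ _ _ μ _ s hs
  induction hs with
  | pos f hf =>
    refine ⟨(isOpen_lt continuous_const hf.continuous).measurableSet, ?_⟩
    by_cases h : ∃ x, f x ≠ 0
    · refine measure_mono_null (fun x hx => ?_) (NullaA.null_zero hLINE μ hf h)
      exact (frontier_lt_subset_eq continuous_const hf.continuous hx).symm
    · have : {x | 0 < f x} = ∅ := by
        ext x
        simp [not_not.1 (not_exists.1 h x)]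
      simp [this]
  | union s t _ _ a b =>
    refine ⟨a.1.union b.1, measure_mono_null (fun x hx => ?_) (measure_union_null a.2 b.2)⟩
    exact (frontier_union_subset s t hx).imp And.left And.right
  | compl s _ a => exact ⟨a.1.compl, by rw [frontier_compl]; exact a.2⟩

end Pool.Agent.P.MP_a0f0ad_al.Fi
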