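import Pool.Agent.P.MP_a0f0ad_al.Fi.S.Iface2
import Pool.Agent.P.MP_a0f0ad_al.Fi.S.Iface

/-! Step OSCA of the filiform project. -/

namespace Pool.Agent.P.MP_a0f0ad_al.Fi

open Set MeasureTheory Metric Filter Topology SignType
open scoped Polynomial

theorem p_OSCA (hPROJ : S_PROJ) (hNULL : S_NULL) (hDER : S_DER) (hAE : S_AE) (hTHIN : S_THIN) (hTAY : S_TAY) (hNBH : S_NBH) :
    S_OSCA := by
  intro X _ _ _ _ _ μ _ U f hU hf L0
  haveI : Fact S_PROJ := ⟨hPROJ⟩
  set g : X → ℝ := U.indicator f with hgdef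
  have hg : DF g := hf.df
  have hgf : ∀ x ∈ U, g x = f x := fun x hx => indicator_of_mem hx f
  have hev : ∀ x ∈ U, g =ᶠ[𝓝 x] f := fun x hx =>
    (show ∀ᶠ y in 𝓝 x, y ∈ U from hU.mem_nhds hx).mono hgf
  obtain ⟨-, -, hD, hC⟩ := hDER X ℝ g hg
  set W : Set X := {x | ContDiffAt ℝ 2 g x} with hW
  have hWs : SA W := hC 2
  have hWo : IsOpen W := isOpen_iff_mem_nhds.2 fun x hx =>
    ContDiffAt.eventually (show ContDiffAt ℝ 2 g x from hx) (by simp)
  have hN0 : μ Wᶜ = 0 := hAE X μ g 2 hg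
  have hNi : interior Wᶜ = ∅ :=
    (isOpen_interior.measure_eq_zero_iff μ).1 (measure_mono_null interior_subset hN0)
  obtain ⟨C1, hC1⟩ := hTHIN ℝ X μ {p : ℝ × X | p.2 ∈ Wᶜ}
    ((SA.compl _ hWs).preimage IsPM.id.snd) (fun _ => hNi) (L0 + 1)
  obtain ⟨κ, hκ, hT⟩ := hTAY X
  obtain ⟨κ0, hκ0, hb, -⟩ := exists_norm_le_basis X
  set b := Module.finBasis ℝ X with hbdef
  have hφ : ∀ i, DF fun z => fderiv ℝ g z (b i) := fun i => hD.clm_apply (DF.const _)
  have hφd : ∀ i, ∀ x ∈ W, DifferentiableAt ℝ (fun z => fderiv ℝ g z (b i)) x := by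
    intro i x hx
    have h1 : ContDiffAt ℝ 1 (fderiv ℝ g) x :=
      ContDiffAt.fderiv_right (show ContDiffAt ℝ 2 g x from hx) (by norm_num)
    exact (h1.differentiableAt one_ne_zero).clm_apply (differentiableAt_const _)
  choose C hC0 hCb using fun i j => hNBH X μ W (fun z => fderiv ℝ g z (b i)) (b j) hWo hWs
    (hφ i) (hφd i) L0
  refine ⟨max C1 0 + ∑ i, ∑ j, C i j * (1 + κ0 * κ), fun r e L hr hr1 he hL => ?_⟩
  have hsub : {x | ‖x‖ ≤ L0 ∧ closedBall x r ⊆ U ∧
          (∀ y ∈ closedBall x r, ∀ z ∈ closedBall x r, |f y - f z| ≤ L * ‖y - z‖) ∧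
          ¬ (DifferentiableAt ℝ f x ∧ ∀ y ∈ closedBall x r,
              |f y - f x - fderiv ℝ f x (y - x)| ≤ e * ‖y - x‖)} ⊆
      cthickening r ({x | ((0 : ℝ), x) ∈ {p : ℝ × X | p.2 ∈ Wᶜ}} ∩ closedBall 0 (L0 + 1)) ∪
        ⋃ i, ⋃ j, {x | ‖x‖ ≤ L0 ∧ ∃ y ∈ ball x r, y ∈ W ∧ |fderiv ℝ g y (b i)| ≤ L * κ0 ∧
          e / (κ * r) ≤ |fderiv ℝ (fun z => fderiv ℝ g z (b i)) y (b j)|} := by
    rintro x ⟨hx, hxU, hlip, hbad⟩
    by_cases h : ∃ y ∈ ball x r, y ∉ W
    · obtain ⟨y, hy, hyW⟩ := h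
      left
      rw [mem_ball] at hy
      refine mem_cthickening_of_dist_le x y r _ ⟨hyW, ?_⟩ (by rw [dist_comm]; exact hy.le)
      rw [mem_closedBall, dist_zero_right]
      have h1 : ‖y‖ ≤ ‖x‖ + dist y x := by
        rw [dist_eq_norm]
        simpa using norm_add_le x (y - x)
      linarith
    · right
      push Not at h
      have hxx : x ∈ U := hxU (mem_closedBall_self hr.le)
      have hcont : ContinuousOn g (closedBall x r) := by
        have h1 : LipschitzOnWith ⟨L, hL.le⟩ f (closedBall x r) :=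
          LipschitzOnWith.of_dist_le_mul fun y hy z hz => by
            rw [Real.dist_eq, dist_eq_norm]
            exact hlip y hy z hz
        exact h1.continuousOn.congr fun y hy => hgf y (hxU hy)
      by_contra hno
      apply hbad
      have hdx : DifferentiableAt ℝ g x :=
        ContDiffAt.differentiableAt (show ContDiffAt ℝ 2 g x from h x (mem_ball_self hr))
          (by norm_num)
      refine ⟨(hev x hxx).differentiableAt_iff.1 hdx, fun y hy => ?_⟩
      have key := hT g x r e hr he.le h hcont (fun z hz i j => ?_) y hy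
      · rwa [hgf y (hxU hy), hgf x hxx, (hev x hxx).fderiv_eq] at key
      · by_contra hlt
        apply hno
        simp only [mem_iUnion]
        refine ⟨i, j, hx, z, hz, h z hz, ?_, (not_le.1 hlt).le⟩
        have h1 : ‖fderiv ℝ g z‖ ≤ L := by
          refine norm_fderiv_le_of_lip' ℝ hL.le ?_
          filter_upwards [isOpen_ball.mem_nhds hz] with w hw
          have hw' := ball_subset_closedBall hw
          have hz' := ball_subset_closedBall hz
          rw [hgf w (hxU hw'), hgf z (hxU hz')]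
          exact hlip w hw' z hz'
        exact ((fderiv ℝ g z).le_opNorm (b i)).trans
          (mul_le_mul h1 (hb i) (norm_nonneg _) hL.le)
  have hs : 0 < r * L / e := by positivity
  have hq : r + L * κ0 / (e / (κ * r)) ≤ (1 + κ0 * κ) * (r + r * L / e) := by
    have e1 : L * κ0 / (e / (κ * r)) = κ0 * κ * (r * L / e) := by
      field_simp
    rw [e1]
    have : 0 ≤ κ0 * κ * r := by positivity
    nlinarith
  refine (measure_mono hsub).trans ((measure_union_le _ _).trans ?_)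
  have h1 : μ (cthickening r ({x | ((0 : ℝ), x) ∈ {p : ℝ × X | p.2 ∈ Wᶜ}} ∩
      closedBall 0 (L0 + 1))) ≤ ENNReal.ofReal (max C1 0 * (r + r * L / e)) := by
    refine (hC1 0 r hr hr1).trans (ENNReal.ofReal_le_ofReal ?_)
    have h2 := le_max_left C1 0
    have h3 := le_max_right C1 0
    nlinarith
  have hnn : ∀ i j, 0 ≤ C i j * (1 + κ0 * κ) * (r + r * L / e) := fun i j => by
    have := hC0 i j
    positivity
  have h2 : μ (⋃ i, ⋃ j, {x | ‖x‖ ≤ L0 ∧ ∃ y ∈ ball x r, y ∈ W ∧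
      |fderiv ℝ g y (b i)| ≤ L * κ0 ∧
      e / (κ * r) ≤ |fderiv ℝ (fun z => fderiv ℝ g z (b i)) y (b j)|}) ≤
      ENNReal.ofReal (∑ i, ∑ j, C i j * (1 + κ0 * κ) * (r + r * L / e)) := by
    rw [ENNReal.ofReal_sum_of_nonneg fun i _ => Finset.sum_nonneg fun j _ => hnn i j]
    refine (measure_iUnion_fintype_le μ _).trans (Finset.sum_le_sum fun i _ => ?_)
    rw [ENNReal.ofReal_sum_of_nonneg fun j _ => hnn i j]
    refine (measure_iUnion_fintype_le μ _).trans (Finset.sum_le_sum fun j _ => ?_)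
    refine (hCb i j r (L * κ0) (e / (κ * r)) hr hr1 (by positivity) (by positivity)).trans
      (ENNReal.ofReal_le_ofReal ?_)
    rw [mul_assoc]
    exact mul_le_mul_of_nonneg_left hq (hC0 i j)
  refine (add_le_add h1 h2).trans ?_
  rw [← ENNReal.ofReal_add (mul_nonneg (le_max_right _ _) (by positivity))
    (Finset.sum_nonneg fun i _ => Finset.sum_nonneg fun j _ => hnn i j)]
  apply le_of_eq
  congr 1
  simp only [add_mul, Finset.sum_mul]

end Pool.Agent.P.MP_a0f0ad_al.Fi
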