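import Pool.Agent.P.MP_a0f0ad_al.Fi.S.Iface2

/-! Step PRO1 of the filiform project. -/

namespace Pool.Agent.P.MP_a0f0ad_al.Fi

open Set MeasureTheory Metric Filter Topology SignType
open scoped Polynomial

namespace Pro1A

theorem mat (hSTEP : S_STEP) {A : Type} [CommRing A] (φ ψ : A →+* ℝ) {F : Set A[X]}
    (hF : F.Finite) (hC : Clo F) (hc : ∀ c, Polynomial.C c ∈ F → sign (φ c) = sign (ψ c)) :
    ∃ θ, Mat φ ψ F θ := by
  have key : ∀ n : ℕ, ∃ θ, Mat φ ψ {q ∈ F | q.natDegree < n} θ := by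
    intro n
    induction n with
    | zero => exact ⟨OrderIso.refl ℝ, fun p hp => absurd hp.2 (Nat.not_lt_zero _)⟩
    | succ n ih =>
      have hT : {q ∈ F | q.natDegree = n}.Finite := hF.subset fun _ h => h.1
      have h1 : ∀ S : Set A[X], S.Finite → S ⊆ {q ∈ F | q.natDegree = n} →
          ∃ θ, Mat φ ψ (S ∪ {q ∈ F | q.natDegree < n}) θ := by
        intro S hS
        induction S, hS using Set.Finite.induction_on with
        | empty => intro _; simpa using ih
        | @insert p S _ hS ih2 =>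
          intro hsub
          obtain ⟨θ, hθ⟩ := ih2 ((subset_insert _ _).trans hsub)
          obtain ⟨hpF, hpn⟩ := hsub (mem_insert _ _)
          have hSF : ∀ q ∈ S, q ∈ F ∧ q.natDegree = n := fun q hq =>
            hsub (mem_insert_of_mem _ hq)
          rw [insert_union]
          refine hSTEP A φ ψ F _ θ p hC (hS.union (hF.subset fun _ h => h.1)) ?_ hpF ?_ ?_ hθ hc
          · rintro q (hq | hq)
            · exact (hSF q hq).1
            · exact hq.1
          · exact fun q hq hlt => Or.inr ⟨hq, hpn ▸ hlt⟩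
          · rintro q (hq | hq)
            · rw [(hSF q hq).2, hpn]
            · rw [hpn]; exact hq.2.le
      obtain ⟨θ, hθ⟩ := h1 _ hT subset_rfl
      refine ⟨θ, fun p hp => hθ p ?_⟩
      rcases Nat.lt_succ_iff_lt_or_eq.1 hp.2 with h | h
      · exact Or.inr ⟨hp.1, h⟩
      · exact Or.inl ⟨hp.1, h⟩
  obtain ⟨N, hN⟩ := (hF.image Polynomial.natDegree).bddAbove
  obtain ⟨θ, hθ⟩ := key (N + 1)
  exact ⟨θ, fun p hp => hθ p ⟨hp, Nat.lt_succ_of_le (hN (mem_image_of_mem _ hp))⟩⟩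

theorem sign_congr {a b : ℝ} (h1 : 0 < a ↔ 0 < b) (h2 : a < 0 ↔ b < 0) : sign a = sign b := by
  rcases lt_trichotomy a 0 with h | h | h
  · rw [sign_neg h, sign_neg (h2.1 h)]
  · have e : b = 0 := by
      rcases lt_trichotomy b 0 with k | k | k
      · exact absurd (h2.2 k) h.not_lt
      · exact k
      · exact absurd (h1.2 k) h.not_gt
    rw [h, e]
  · rw [sign_pos h, sign_pos (h1.1 h)]

end Pro1A

theorem p_PRO1 (hCLOS : S_CLOS) (hSTEP : S_STEP) :
    S_PRO1 := by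
  intro X _ _ s hs
  obtain ⟨F0, hF0, hP, hsg⟩ := hs.sign
  have h1 : ∀ f : F0, ∃ p : (PA X)[X], ∀ x t, f.1 (x, t) = (p.map (evx x)).eval t :=
    fun f => (hP f.1 f.2).poly
  choose P hPe using h1
  have : Finite F0 := hF0.to_subtype
  obtain ⟨F, hF, hSF, hC⟩ := hCLOS (PA X) (range P) (finite_range P)
  have : Finite {c : PA X // Polynomial.C c ∈ F} :=
    (hF.preimage Polynomial.C_injective.injOn).to_subtype
  refine SA.of_atoms (ι := {c : PA X // Polynomial.C c ∈ F} × Bool)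
    (A := fun i => if i.2 then {x | 0 < (i.1.1 : X → ℝ) x} else {x | (i.1.1 : X → ℝ) x < 0})
    (fun i => ?_) ?_
  · split_ifs
    · exact SA.lt (IsPM.const 0) i.1.1.isP.isPM
    · exact SA.lt i.1.1.isP.isPM (IsPM.const 0)
  · rintro x y hxy ⟨⟨x', t⟩, hxt, rfl⟩
    obtain ⟨θ, hθ⟩ := Pro1A.mat hSTEP (evx x') (evx y) hF hC fun c hc =>
      Pro1A.sign_congr (by simpa using hxy (⟨c, hc⟩, true)) (by simpa using hxy (⟨c, hc⟩, false))
    refine ⟨(y, θ t), (hsg (x', t) (y, θ t) fun f hf => ?_).1 hxt, rfl⟩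
    have e := hθ (P ⟨f, hf⟩) (hSF (mem_range_self _)) t
    rw [← hPe ⟨f, hf⟩, ← hPe ⟨f, hf⟩] at e
    rw [← sign_eq_one_iff, ← sign_eq_one_iff]
    exact e ▸ Iff.rfl

end Pool.Agent.P.MP_a0f0ad_al.Fi
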