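import Pool.Agent.P.MP_a0f0ad_al.Fi.S.Iface2

/-! Step ROOT of the filiform project. -/

namespace Pool.Agent.P.MP_a0f0ad_al.Fi

open Set MeasureTheory Metric Filter Topology SignType
open scoped Polynomial

theorem p_ROOT :
    S_ROOT := by
  intro A _ φ ψ F G θ p hF hGF hp hlt hle hM hc q
  induction hn : q.natDegree using Nat.strong_induction_on generalizing q with
  | _ n ih =>
    intro hq h0 z hz
    subst hn
    by_cases hl : φ q.leadingCoeff = 0
    · have e : q.eraseLead.map φ = q.map φ := by
        conv_rhs => rw [← q.eraseLead_add_C_mul_X_pow]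
        rw [Polynomial.map_add, Polynomial.map_mul, Polynomial.map_C, hl, map_zero, zero_mul,
          add_zero]
      rcases q.eraseLead_natDegree_lt_or_eraseLead_eq_zero with h | h
      · exact ih _ h q.eraseLead rfl (hlt _ (hF.ers q (hGF hq)) (h.trans_le (hle q hq)))
          (e ▸ h0) z (e ▸ hz)
      · rw [h, Polynomial.map_zero] at e
        exact absurd e.symm h0
    · have hpos : 0 < q.natDegree := by
        refine Nat.pos_of_ne_zero fun h => hl ?_
        rw [Polynomial.eq_C_of_natDegree_eq_zero h] at hz
        rw [Polynomial.leadingCoeff, h]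
        simpa using hz
      obtain ⟨r, hr, hrd, k, s, e⟩ := hF.rem p hp q (hGF hq) hpos
      have hrG := hlt r hr (hrd.trans_le (hle q hq))
      have hz' : (q.map ψ).eval (θ z) = 0 := by
        have := hM q hq z
        rw [hz, sign_zero] at this
        exact sign_eq_zero_iff.1 this.symm
      have e1 := congrArg (fun u : A[X] => sign ((u.map φ).eval z)) e
      have e2 := congrArg (fun u : A[X] => sign ((u.map ψ).eval (θ z))) e
      simp only [Polynomial.map_mul, Polynomial.map_add, Polynomial.map_pow, Polynomial.map_C,
        Polynomial.eval_mul, Polynomial.eval_add, Polynomial.eval_pow, Polynomial.eval_C, hz, hz',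
        mul_zero, zero_add, sign_mul, sign_pow] at e1 e2
      rw [hM r hrG z, ← e2, ← hc _ (hF.lc q (hGF hq))] at e1
      exact mul_left_cancel₀ (pow_ne_zero k (sign_ne_zero.2 hl)) e1

end Pool.Agent.P.MP_a0f0ad_al.Fi
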