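import Pool.Agent.P.MP_a0f0ad_al.Fi.S.Iface2

/-! Step STEP of the filiform project. -/

namespace Pool.Agent.P.MP_a0f0ad_al.Fi

open Set MeasureTheory Metric Filter Topology SignType
open scoped Polynomial

namespace StepA

theorem sign_const {f : ℝ → ℝ} (hf : Continuous f) {S : Set ℝ} (hS : IsPreconnected S)
    (h0 : ∀ t ∈ S, f t ≠ 0) {a b : ℝ} (ha : a ∈ S) (hb : b ∈ S) : sign (f a) = sign (f b) := by
  have key : ∀ a ∈ S, ∀ b ∈ S, f a < 0 → f b < 0 := by
    intro a ha b hb h
    by_contra h'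
    obtain ⟨t, ht, e⟩ := hS.intermediate_value ha hb hf.continuousOn ⟨h.le, not_lt.1 h'⟩
    exact h0 t ht e
  rcases lt_or_gt_of_ne (h0 a ha) with h | h
  · rw [sign_neg h, sign_neg (key a ha b hb h)]
  · rcases lt_or_gt_of_ne (h0 b hb) with h' | h'
    · exact absurd (key b hb a ha h') h.not_gt
    · rw [sign_pos h, sign_pos h']

theorem mono_of_pos (P : ℝ[X]) {a b : ℝ} (h : ∀ t ∈ Ioo a b, 0 < P.derivative.eval t) :
    StrictMonoOn (fun t => P.eval t) (Icc a b) := by
  refine strictMonoOn_of_deriv_pos (convex_Icc a b) P.continuous.continuousOn fun t ht => ?_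
  rw [interior_Icc] at ht
  rw [Polynomial.deriv]
  exact h t ht

theorem anti_of_neg (P : ℝ[X]) {a b : ℝ} (h : ∀ t ∈ Ioo a b, P.derivative.eval t < 0) :
    StrictAntiOn (fun t => P.eval t) (Icc a b) := by
  refine strictAntiOn_of_deriv_neg (convex_Icc a b) P.continuous.continuousOn fun t ht => ?_
  rw [interior_Icc] at ht
  rw [Polynomial.deriv]
  exact h t ht

theorem symm_mem (θ : ℝ ≃o ℝ) {a b x : ℝ} (hx : x ∈ Ioo (θ a) (θ b)) : θ.symm x ∈ Ioo a b :=
  ⟨θ.lt_symm_apply.2 hx.1, θ.symm_apply_lt.2 hx.2⟩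

theorem mono_pair (P Q : ℝ[X]) (θ : ℝ ≃o ℝ) {a b : ℝ} (hab : a < b)
    (h0 : ∀ t ∈ Ioo a b, P.derivative.eval t ≠ 0)
    (hs : ∀ t, sign (P.derivative.eval t) = sign (Q.derivative.eval (θ t))) :
    StrictMonoOn (fun t => P.eval t) (Icc a b) ∧ StrictMonoOn (fun t => Q.eval (θ t)) (Icc a b) ∨
      StrictAntiOn (fun t => P.eval t) (Icc a b) ∧
        StrictAntiOn (fun t => Q.eval (θ t)) (Icc a b) := by
  obtain ⟨c, hc⟩ := nonempty_Ioo.2 hab
  have hk : ∀ t ∈ Ioo a b, sign (P.derivative.eval t) = sign (P.derivative.eval c) :=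
    fun t ht => sign_const P.derivative.continuous isPreconnected_Ioo h0 ht hc
  have hm : ∀ t ∈ Icc a b, θ t ∈ Icc (θ a) (θ b) :=
    fun t ht => ⟨θ.monotone ht.1, θ.monotone ht.2⟩
  rcases lt_or_gt_of_ne (h0 c hc) with h | h
  · right
    rw [sign_neg h] at hk
    refine ⟨anti_of_neg P fun t ht => sign_eq_neg_one_iff.1 (hk t ht), ?_⟩
    have := anti_of_neg Q (a := θ a) (b := θ b) fun x hx => by
      have e := hs (θ.symm x)
      rw [hk _ (symm_mem θ hx), θ.apply_symm_apply] at e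
      exact sign_eq_neg_one_iff.1 e.symm
    exact fun s hs t ht hst => this (hm s hs) (hm t ht) (θ.strictMono hst)
  · left
    rw [sign_pos h] at hk
    refine ⟨mono_of_pos P fun t ht => sign_eq_one_iff.1 (hk t ht), ?_⟩
    have := mono_of_pos Q (a := θ a) (b := θ b) fun x hx => by
      have e := hs (θ.symm x)
      rw [hk _ (symm_mem θ hx), θ.apply_symm_apply] at e
      exact sign_eq_one_iff.1 e.symm
    exact fun s hs t ht hst => this (hm s hs) (hm t ht) (θ.strictMono hst)

theorem map_eraseLead {A : Type} [CommRing A] (φ : A →+* ℝ) (p : A[X])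
    (h : φ p.leadingCoeff = 0) : p.map φ = p.eraseLead.map φ := by
  conv_lhs => rw [← p.eraseLead_add_C_mul_X_pow]
  rw [Polynomial.map_add, Polynomial.map_mul, Polynomial.map_C, h, Polynomial.C_0, zero_mul,
    add_zero]

end StepA

open StepA in
theorem p_STEP (hADJ : S_ADJ) (hINF : S_INF) (hROOT : S_ROOT) :
    S_STEP := by
  intro A _ φ ψ F G θ p hF hG hGF hp hlt hle hM hC
  by_cases hd : p.natDegree = 0
  · refine ⟨θ, fun q hq t => ?_⟩
    rcases hq with rfl | hq
    · have e := Polynomial.eq_C_of_natDegree_eq_zero hd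
      have := hC _ (e ▸ hp)
      rw [e, Polynomial.map_C, Polynomial.map_C, Polynomial.eval_C, Polynomial.eval_C]
      exact this
    · exact hM q hq t
  have hlc := hC _ (hF.lc p hp)
  by_cases h0 : φ p.leadingCoeff = 0
  · have h1 : ψ p.leadingCoeff = 0 := by
      rw [h0, sign_zero] at hlc
      exact sign_eq_zero_iff.1 hlc.symm
    have he : p.eraseLead ∈ G := by
      refine hlt _ (hF.ers p hp) ?_
      rcases p.eraseLead_natDegree_lt_or_eraseLead_eq_zero with h | h
      · exact h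
      · rw [h, Polynomial.natDegree_zero]
        omega
    refine ⟨θ, fun q hq t => ?_⟩
    rcases hq with rfl | hq
    · rw [map_eraseLead φ q h0, map_eraseLead ψ q h1]
      exact hM _ he t
    · exact hM q hq t
  have h1 : ψ p.leadingCoeff ≠ 0 := by
    intro h
    rw [h, sign_zero] at hlc
    exact h0 (sign_eq_zero_iff.1 hlc)
  classical
  obtain ⟨Z, hZ⟩ : ∃ Z : Finset ℝ, ∀ z, z ∈ Z ↔ ∃ q ∈ G, q.map φ ≠ 0 ∧ (q.map φ).eval z = 0 := by
    refine ⟨hG.toFinset.biUnion fun q => (q.map φ).roots.toFinset, fun z => ?_⟩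
    simp only [Finset.mem_biUnion, Finite.mem_toFinset, Multiset.mem_toFinset,
      Polynomial.mem_roots', Polynomial.IsRoot.def]
  have n0 := Polynomial.natDegree_map_of_leadingCoeff_ne_zero φ h0
  have n1 := Polynomial.natDegree_map_of_leadingCoeff_ne_zero ψ h1
  have l0 := Polynomial.leadingCoeff_map_of_leadingCoeff_ne_zero φ h0
  have l1 := Polynomial.leadingCoeff_map_of_leadingCoeff_ne_zero ψ h1
  have hdG : Polynomial.derivative p ∈ G :=
    hlt _ (hF.der p hp) (Polynomial.natDegree_derivative_lt hd)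
  have hd0 : (Polynomial.derivative p).map φ ≠ 0 := by
    rw [← Polynomial.derivative_map]
    intro h
    exact hd (n0 ▸ Polynomial.derivative_eq_zero.1 h)
  obtain ⟨η, hη, hs⟩ := hADJ Z (fun t => (p.map φ).eval t) (fun t => (p.map ψ).eval (θ t))
    (p.map φ).continuous ((p.map ψ).continuous.comp θ.continuous)
    (fun z hz => by
      obtain ⟨q, hq, hq0, hqz⟩ := (hZ z).1 hz
      exact hROOT A φ ψ F G θ p hF hGF hp hlt hle hM hC q hq hq0 z hqz)
    (fun a b hab hz => mono_pair (p.map φ) (p.map ψ) θ hab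
      (fun t ht h => hz t ((hZ t).2 ⟨_, hdG, hd0, by rwa [← Polynomial.derivative_map]⟩) ht)
      (fun t => by
        rw [Polynomial.derivative_map, Polynomial.derivative_map]
        exact hM _ hdG t))
    (by
      filter_upwards [(hINF (p.map φ)).1, θ.tendsto_atTop.eventually (hINF (p.map ψ)).1]
        with t e1 e2
      rw [e1, e2, l0, l1, hlc])
    (by
      filter_upwards [(hINF (p.map φ)).2, θ.tendsto_atBot.eventually (hINF (p.map ψ)).2]
        with t e1 e2
      rw [e1, e2, l0, l1, n0, n1, hlc])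
  refine ⟨η.trans θ, fun q hq t => ?_⟩
  rcases hq with rfl | hq
  · exact hs t
  rw [OrderIso.trans_apply, ← hM q hq (η t)]
  by_cases hq0 : q.map φ = 0
  · rw [hq0, Polynomial.eval_zero, Polynomial.eval_zero]
  by_cases ht : t ∈ Z
  · rw [hη t ht]
  refine sign_const (q.map φ).continuous isPreconnected_uIcc (fun z hz h => ?_)
    left_mem_uIcc right_mem_uIcc
  have hzZ := (hZ z).2 ⟨q, hq, hq0, h⟩
  have e := hη z hzZ
  have : z = t := by
    rcases mem_uIcc.1 hz with ⟨h1, h2⟩ | ⟨h1, h2⟩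
    · rw [← e, η.le_iff_le] at h2
      exact le_antisymm h2 h1
    · rw [← e, η.le_iff_le] at h1
      exact le_antisymm h2 h1
  exact ht (this ▸ hzZ)

end Pool.Agent.P.MP_a0f0ad_al.Fi
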