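import Pool.Agent.P.MP_a0f0ad_al.Fi.S.Proja
import Pool.Agent.P.MP_a0f0ad_al.Fi.S.Pro1
import Pool.Agent.P.MP_a0f0ad_al.Fi.S.Clos
import Pool.Agent.P.MP_a0f0ad_al.Fi.S.Step
import Pool.Agent.P.MP_a0f0ad_al.Fi.S.Adj
import Pool.Agent.P.MP_a0f0ad_al.Fi.S.Gap
import Pool.Agent.P.MP_a0f0ad_al.Fi.S.Move
import Pool.Agent.P.MP_a0f0ad_al.Fi.S.Inf
import Pool.Agent.P.MP_a0f0ad_al.Fi.S.Root
import Pool.Agent.P.MP_a0f0ad_al.Fi.S.Iface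

/-! Step PROJ of the filiform project. -/

namespace Pool.Agent.P.MP_a0f0ad_al.Fi

open Set MeasureTheory Metric

theorem p_PROJ :
    S_PROJ := by
  exact p_PROJA (p_PRO1 p_CLOS (p_STEP (p_ADJ (p_GAP p_MOVE)) p_INF p_ROOT))

end Pool.Agent.P.MP_a0f0ad_al.Fi
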