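import Pool.Agent.P.MP_a0f0ad_al.Fi.S.Iface2

/-! Step PROJA of the filiform project. -/

namespace Pool.Agent.P.MP_a0f0ad_al.Fi

open Set MeasureTheory Metric Filter Topology SignType
open scoped Polynomial

theorem p_PROJA (hPRO1 : S_PRO1) :
    S_PROJA := by
  intro X Y _ _ _ _ _ _
  suffices h : ∀ (X : Type) [NormedAddCommGroup X] [NormedSpace ℝ X] (s : Set (X × Y)),
      SA s → SA (Prod.fst '' s) from h X
  refine dim_induction (P := fun Y _ _ _ => ∀ (X : Type) [NormedAddCommGroup X] [NormedSpace ℝ X]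
    (s : Set (X × Y)), SA s → SA (Prod.fst '' s)) ?_ ?_ Y
  · intro Y _ _ _ _ X _ _ s hs
    refine (hs.preimage (f := fun x : X => (x, (0 : Y))) (by fun_prop)).congr fun x => ?_
    constructor
    · rintro ⟨⟨a, b⟩, h, rfl⟩
      rwa [Subsingleton.elim b 0] at h
    · exact fun h => ⟨_, h, rfl⟩
  · intro Y Z _ _ _ _ _ _ e ih X _ _ s hs
    have h1 := hs.preimage (f := fun p : (X × Z) × ℝ => (p.1.1, e.symm (p.1.2, p.2))) (by fun_prop)
    refine (ih X _ (hPRO1 _ _ h1)).congr fun x => ?_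
    constructor
    · rintro ⟨⟨a, b⟩, h, rfl⟩
      exact ⟨(a, (e b).1), ⟨((a, (e b).1), (e b).2), by simpa using h, rfl⟩, rfl⟩
    · rintro ⟨_, ⟨p, h, rfl⟩, rfl⟩
      exact ⟨_, h, rfl⟩

end Pool.Agent.P.MP_a0f0ad_al.Fi
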