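import Pool.Agent.P.MP_a0f0ad_al.Fi.S.Iface2
import Pool.Agent.P.MP_a0f0ad_al.Fi.S.Iface

/-! Step TAILA of the filiform project. -/

namespace Pool.Agent.P.MP_a0f0ad_al.Fi

open Set MeasureTheory Metric Filter Topology SignType
open scoped Polynomial

theorem p_TAILA (hPROJ : S_PROJ) (hSTEEP : S_STEEP) :
    S_TAILA := by
  intro X _ _ _ _ _ μ _ U f hU hb hf hd
  have : Fact S_PROJ := ⟨hPROJ⟩
  have ev : ∀ x ∈ U, U.indicator f =ᶠ[𝓝 x] f := fun x hx =>
    eventually_of_mem (hU.mem_nhds hx) fun y hy => indicator_of_mem hy f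
  have dg : ∀ x ∈ U, DifferentiableAt ℝ (U.indicator f) x := fun x hx =>
    ((hd x hx).differentiableAt (hU.mem_nhds hx)).congr_of_eventuallyEq (ev x hx)
  obtain ⟨κ, hκ, -, hk⟩ := exists_norm_le_basis X
  choose C hC0 hC using fun j : Fin (Module.finrank ℝ X) × Bool =>
    hSTEEP X μ U (U.indicator f) (if j.2 then Module.finBasis ℝ X j.1 else -Module.finBasis ℝ X j.1)
      hf.dom hb hf.df dg
  refine ⟨2 * κ * ∑ j, C j, fun c t l ht hl => ?_⟩
  have hl' : 0 < l / (2 * κ) := by positivity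
  refine le_trans (measure_mono ?_) ((measure_iUnion_fintype_le μ _).trans
    ((Finset.sum_le_sum fun j _ => hC j c t _ ht hl').trans_eq ?_))
  · rintro x ⟨hx, h1, h2⟩
    have h3 : ∃ i, l / (2 * κ) < ‖fderiv ℝ f x (Module.finBasis ℝ X i)‖ := by
      by_contra hn
      have h4 := hk ℝ (fderiv ℝ f x) _ hl'.le fun i => not_lt.1 fun h => hn ⟨i, h⟩
      have h5 : κ * (l / (2 * κ)) = l / 2 := by field_simp
      linarith
    obtain ⟨i, hi⟩ := h3
    rw [Real.norm_eq_abs, lt_abs] at hi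
    rw [← indicator_of_mem hx f] at h1
    rw [← (ev x hx).fderiv_eq] at hi
    rcases hi with hi | hi
    · exact mem_iUnion.2 ⟨(i, true), hx, h1, by simpa using hi.le⟩
    · exact mem_iUnion.2 ⟨(i, false), hx, h1, by simpa using hi.le⟩
  · rw [← ENNReal.ofReal_sum_of_nonneg fun j _ => by have := hC0 j; positivity]
    congr 1
    rw [← Finset.sum_div, ← Finset.sum_mul]
    field_simp

end Pool.Agent.P.MP_a0f0ad_al.Fi
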