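import Pool.Agent.P.MP_a0f0ad_al.Fi.S.Iface2
import Pool.Agent.P.MP_a0f0ad_al.Fi.S.Iface

/-! Step THINA of the filiform project. -/

namespace Pool.Agent.P.MP_a0f0ad_al.Fi

open Set MeasureTheory Metric Filter Topology SignType
open scoped Polynomial

namespace ThinaA

variable {P X : Type} [NormedAddCommGroup P] [NormedSpace ℝ P] [FiniteDimensional ℝ P]
  [NormedAddCommGroup X] [NormedSpace ℝ X] [FiniteDimensional ℝ X]

/-- thickening in the listed directions -/
def fat {ι : Type} (T : Set ((P × ℝ) × X)) (v : ι → X) : List ι → Set ((P × ℝ) × X)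
  | [] => T
  | i :: l => {z | ∃ τ : ℝ, |τ| ≤ z.1.2 ∧ (z.1, z.2 + τ • v i) ∈ fat T v l}

omit [NormedAddCommGroup P] [NormedSpace ℝ P] [FiniteDimensional ℝ P] [FiniteDimensional ℝ X] in
theorem mem_fat {ι : Type} {T : Set ((P × ℝ) × X)} (v : ι → X) {q : P × ℝ} {y : X} (c : ι → ℝ)
    (hc : ∀ i, |c i| ≤ q.2) (hy : (q, y) ∈ T) (l : List ι) :
    (q, y - (l.map fun i => c i • v i).sum) ∈ fat T v l := by
  induction l with
  | nil => simpa [fat] using hy
  | cons i l ih =>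
    refine ⟨c i, hc i, ?_⟩
    have e : y - ((i :: l).map fun i => c i • v i).sum + c i • v i =
        y - (l.map fun i => c i • v i).sum := by
      rw [List.map_cons, List.sum_cons]; abel
    exact e ▸ ih

variable [MeasurableSpace X] [BorelSpace X] (μ : Measure X) [μ.IsAddHaarMeasure]

/-- definable families with bounded fibres of small measure -/
def Good (R0 : ℝ) (T : Set ((P × ℝ) × X)) : Prop :=
  SA T ∧ ∃ R C : ℝ, 0 ≤ C ∧ ∀ p ρ, 0 ≤ ρ → ρ ≤ R0 →
    {x | ((p, ρ), x) ∈ T} ⊆ closedBall 0 R ∧ μ {x | ((p, ρ), x) ∈ T} ≤ ENNReal.ofReal (C * ρ)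

theorem good_fat (hPROJ : S_PROJ) (hFAT : S_FAT) {ι : Type} {R0 : ℝ} {T : Set ((P × ℝ) × X)}
    (hT : Good μ R0 T) (v : ι → X) (l : List ι) : Good μ R0 (fat T v l) := by
  have : Fact S_PROJ := ⟨hPROJ⟩
  induction l with
  | nil => exact hT
  | cons i l ih =>
    obtain ⟨hs, R, C, C0, h⟩ := ih
    obtain ⟨C', C1, h'⟩ := hFAT (P × ℝ) X μ _ (v i) (max R R0) hs
    refine ⟨?_, R + R0 * ‖v i‖, C + C', add_nonneg C0 C1, fun p ρ r0 r1 => ⟨?_, ?_⟩⟩
    · have := hs.dp
      exact DP.sa (φ := fun z : (P × ℝ) × X =>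
        ∃ τ : ℝ, |τ| ≤ z.1.2 ∧ (z.1, z.2 + τ • v i) ∈ fat T v l) (by fun_prop)
    · rintro x ⟨τ, a, b⟩
      have c := mem_closedBall_zero_iff.1 ((h p ρ r0 r1).1 b)
      have d : ‖τ • v i‖ ≤ R0 * ‖v i‖ := by
        rw [norm_smul]
        exact mul_le_mul_of_nonneg_right (le_trans a r1) (norm_nonneg _)
      have e := norm_sub_le (x + τ • v i) (τ • v i)
      rw [add_sub_cancel_right] at e
      exact mem_closedBall_zero_iff.2 (e.trans (add_le_add c d))
    · refine (h' (p, ρ) ρ r0 (r1.trans (le_max_right _ _)) ((h p ρ r0 r1).1.trans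
        (closedBall_subset_closedBall (le_max_left _ _)))).trans ?_
      rw [add_mul, ENNReal.ofReal_add (mul_nonneg C0 r0) (mul_nonneg C1 r0)]
      exact add_le_add (h p ρ r0 r1).2 le_rfl

end ThinaA

open ThinaA in
theorem p_THINA (hPROJ : S_PROJ) (hNULL : S_NULL) (hFAT : S_FAT) :
    S_THINA := by
  intro P X _ _ _ _ _ _ _ _ μ _ s hs hi L
  have : Fact S_PROJ := ⟨hPROJ⟩
  set κ := ‖(cox X : X →L[ℝ] (Fin (Module.finrank ℝ X) → ℝ))‖ with hκ
  have κ0 : 0 ≤ κ := norm_nonneg _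
  have hc : ∀ x i, |cox X x i| ≤ κ * ‖x‖ := fun x i =>
    (norm_le_pi_norm (cox X x) i).trans ((cox X : X →L[ℝ] (Fin (Module.finrank ℝ X) → ℝ)).le_opNorm x)
  let T : Set ((P × ℝ) × X) := {z | (z.1.1, z.2) ∈ s ∧ ∀ i, |cox X z.2 i| ≤ κ * |L|}
  have hT : SA T := by
    have := hs.dp
    exact DP.sa (φ := fun z : (P × ℝ) × X =>
      (z.1.1, z.2) ∈ s ∧ ∀ i, |cox X z.2 i| ≤ κ * |L|) (by fun_prop)
  have gT : Good μ (2 * κ) T := by
    refine ⟨hT, ‖((cox X).symm : (Fin (Module.finrank ℝ X) → ℝ) →L[ℝ] X)‖ * (κ * |L|), 0, le_rfl,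
      fun p ρ _ _ => ⟨fun x hx => mem_closedBall_zero_iff.2 ?_, ?_⟩⟩
    · have a := ((cox X).symm : (Fin (Module.finrank ℝ X) → ℝ) →L[ℝ] X).le_opNorm (cox X x)
      rw [ContinuousLinearEquiv.coe_coe, ContinuousLinearEquiv.symm_apply_apply] at a
      exact a.trans (mul_le_mul_of_nonneg_left
        ((pi_norm_le_iff_of_nonneg (by positivity)).2 hx.2) (norm_nonneg _))
    · have a : SA {x | ((p, ρ), x) ∈ T} :=
        hT.preimage (f := fun x : X => ((p, ρ), x)) (by fun_prop)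
      have b : interior {x | ((p, ρ), x) ∈ T} = ∅ :=
        subset_eq_empty (interior_mono fun _ hx => hx.1) (hi p)
      refine le_trans (measure_mono_null (fun x hx => ?_) (hNULL X μ _ a).2).le zero_le
      rw [frontier, b, Set.sdiff_empty]
      exact subset_closure hx
  obtain ⟨-, R, C, -, h⟩ := good_fat μ hPROJ hFAT gT (Module.finBasis ℝ X) (List.finRange _)
  refine ⟨C * (2 * κ), fun p r r0 r1 => ?_⟩
  have h2 := (h p (2 * κ * r) (by positivity) (mul_le_of_le_one_right (by positivity) r1)).2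
  rw [mul_assoc C]
  refine le_trans (measure_mono ((cthickening_subset_thickening' (δ₂ := 2 * r) (by positivity)
    (by linarith) _).trans fun x hx => ?_)) h2
  obtain ⟨y, ⟨y1, y2⟩, hy⟩ := mem_thickening_iff.1 hx
  have a := mem_fat (T := T) (Module.finBasis ℝ X) (q := (p, 2 * κ * r)) (y := y) (cox X (y - x))
    (fun i => (hc _ i).trans (by
      rw [dist_comm, dist_eq_norm] at hy
      nlinarith))
    ⟨y1, fun i => (hc y i).trans (mul_le_mul_of_nonneg_left
      ((mem_closedBall_zero_iff.1 y2).trans (le_abs_self L)) κ0)⟩ (List.finRange _)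
  have e : ∑ i, cox X (y - x) i • Module.finBasis ℝ X i = y - x :=
    (Module.finBasis ℝ X).sum_equivFun (y - x)
  rwa [← Fin.sum_univ_def, e, sub_sub_cancel] at a

end Pool.Agent.P.MP_a0f0ad_al.Fi
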